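import Mathlib

/-!
Definitions for the arithmetic of quadratic twist pencils `t y^2 = g(x)`.
-/

open NumberField Polynomial

namespace Pool.TP

/-- The number of ideals of norm `n` of the ring of integers of a number field. -/
noncomputable def idc (E : Type) [Field E] [NumberField E] (n : ℕ) : ℕ :=
  Nat.card {I : Ideal (𝓞 E) // Ideal.absNorm I = n}

/-- `q* = (-1)^((q-1)/2) q` for an odd prime `q`. -/
def qstar (q : ℕ) : ℤ := if q % 4 = 1 then q else -q

open Classical in
/-- The Legendre symbol with values in the units (junk value `1` at multiples of `p`). -/
noncomputable def ls (p : ℕ) (a : ℤ) : ℤˣ := if IsSquare (a : ZMod p) then 1 else -1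

/-- A play of `N` rounds: in round `m` an element of `T` and signs indexed by the rounds. -/
abbrev Play (T : Type) (N : ℕ) : Type := Fin N → T × (Fin N → ℤˣ)

end Pool.TP
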