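import Pool.Agent.TP.Defs

/-!
The number of ideals of norm `n` of the ring of integers of a number field is multiplicative.
-/

open NumberField Polynomial
open scoped Pointwise BigOperators

namespace Pool.TP

namespace IdcMul

variable (E : Type) [Field E] [NumberField E]

theorem idc_zero : idc E 0 = 1 := by
  unfold idc
  rw [Nat.card_eq_one_iff_exists]
  refine ⟨⟨⊥, by simp⟩, ?_⟩
  rintro ⟨I, hI⟩
  apply Subtype.ext
  simpa using Ideal.absNorm_eq_zero_iff.mp hI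

theorem idc_one : idc E 1 = 1 := by
  unfold idc
  rw [Nat.card_eq_one_iff_exists]
  refine ⟨⟨⊤, by simp⟩, ?_⟩
  rintro ⟨I, hI⟩
  apply Subtype.ext
  simpa using Ideal.absNorm_eq_one_iff.mp hI

variable {E}

theorem span_le {m : ℕ} {I : Ideal (𝓞 E)} (hI : Ideal.absNorm I = m) :
    Ideal.span {(m : 𝓞 E)} ≤ I := by
  rw [Ideal.span_singleton_le_iff_mem, ← hI]
  exact Ideal.absNorm_mem I

omit [NumberField E] in
theorem span_sup {m n : ℕ} (h : m.Coprime n) :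
    Ideal.span {(m : 𝓞 E)} ⊔ Ideal.span {(n : 𝓞 E)} = ⊤ := by
  rw [Ideal.eq_top_iff_one]
  have h1 : IsCoprime (m : ℤ) (n : ℤ) := Nat.isCoprime_iff_coprime.mpr h
  obtain ⟨a, b, hab⟩ := h1
  have h2 : (a : 𝓞 E) * (m : 𝓞 E) + (b : 𝓞 E) * (n : 𝓞 E) = 1 := by
    have := congrArg (fun z : ℤ => (z : 𝓞 E)) hab
    push_cast at this
    exact this
  rw [← h2]
  exact Ideal.add_mem _ (Ideal.mem_sup_left (Ideal.mul_mem_left _ _ (Ideal.mem_span_singleton_self _)))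
    (Ideal.mem_sup_right (Ideal.mul_mem_left _ _ (Ideal.mem_span_singleton_self _)))

/-- Recover the factor of norm `m`. -/
theorem recover {m n : ℕ} (h : m.Coprime n) {I J : Ideal (𝓞 E)} (hI : Ideal.absNorm I = m)
    (hJ : Ideal.absNorm J = n) : I * J ⊔ Ideal.span {(m : 𝓞 E)} = I := by
  apply le_antisymm
  · exact sup_le Ideal.mul_le_left (span_le hI)
  · have h1 : J ⊔ Ideal.span {(m : 𝓞 E)} = ⊤ := by
      rw [eq_top_iff, ← span_sup (E := E) h]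
      exact sup_le le_sup_right ((span_le hJ).trans le_sup_left)
    calc I = I * ⊤ := by rw [Ideal.mul_top]
      _ = I * (J ⊔ Ideal.span {(m : 𝓞 E)}) := by rw [h1]
      _ = I * J ⊔ I * Ideal.span {(m : 𝓞 E)} := Ideal.mul_sup _ _ _
      _ ≤ I * J ⊔ Ideal.span {(m : 𝓞 E)} := sup_le_sup_left Ideal.mul_le_right _

theorem norm_factor {m n : ℕ} (h : m.Coprime n) (hm : 0 < m) (hn : 0 < n) {K : Ideal (𝓞 E)}
    (hK : Ideal.absNorm K = m * n) :
    (K ⊔ Ideal.span {(m : 𝓞 E)}) * (K ⊔ Ideal.span {(n : 𝓞 E)}) = K ∧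
    Ideal.absNorm (K ⊔ Ideal.span {(m : 𝓞 E)}) = m ∧
    Ideal.absNorm (K ⊔ Ideal.span {(n : 𝓞 E)}) = n := by
  have hcop : (K ⊔ Ideal.span {(m : 𝓞 E)}) ⊔ (K ⊔ Ideal.span {(n : 𝓞 E)}) = ⊤ := by
    rw [eq_top_iff, ← span_sup (E := E) h]
    exact sup_le (le_sup_right.trans le_sup_left) (le_sup_right.trans le_sup_right)
  have hmn : Ideal.span {(m : 𝓞 E)} * Ideal.span {(n : 𝓞 E)} ≤ K := by
    rw [Ideal.span_singleton_mul_span_singleton, ← Nat.cast_mul]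
    exact span_le hK
  have hprod : (K ⊔ Ideal.span {(m : 𝓞 E)}) * (K ⊔ Ideal.span {(n : 𝓞 E)}) = K := by
    apply le_antisymm
    · rw [Ideal.sup_mul]
      refine sup_le Ideal.mul_le_left ?_
      rw [Ideal.mul_sup]
      exact sup_le Ideal.mul_le_right hmn
    · have h1 : (K ⊔ Ideal.span {(m : 𝓞 E)}) ⊓ (K ⊔ Ideal.span {(n : 𝓞 E)}) =
          (K ⊔ Ideal.span {(m : 𝓞 E)}) * (K ⊔ Ideal.span {(n : 𝓞 E)}) :=
        (Ideal.mul_eq_inf_of_isCoprime (Ideal.isCoprime_iff_sup_eq.mpr hcop)).symm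
      rw [← h1]
      exact le_inf le_sup_left le_sup_left
  have hnorm : Ideal.absNorm (K ⊔ Ideal.span {(m : 𝓞 E)}) *
      Ideal.absNorm (K ⊔ Ideal.span {(n : 𝓞 E)}) = m * n := by
    rw [← hK, ← map_mul, hprod]
  have hdvd : ∀ k : ℕ, Ideal.absNorm (K ⊔ Ideal.span {(k : 𝓞 E)}) ∣
      k ^ Module.finrank ℤ (𝓞 E) := by
    intro k
    have h1 : Ideal.absNorm (K ⊔ Ideal.span {(k : 𝓞 E)}) ∣ Ideal.absNorm (Ideal.span {(k : 𝓞 E)}) :=
      Ideal.absNorm_dvd_absNorm_of_le le_sup_right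
    have h2 : Ideal.absNorm (Ideal.span {(k : 𝓞 E)}) = k ^ Module.finrank ℤ (𝓞 E) := by
      rw [Ideal.absNorm_span_singleton]
      have h3 : ((k : ℕ) : 𝓞 E) = algebraMap ℤ (𝓞 E) (k : ℤ) := by simp
      rw [h3, Algebra.norm_algebraMap]
      simp [Int.natAbs_pow]
    rwa [h2] at h1
  have hc1 : (Ideal.absNorm (K ⊔ Ideal.span {(m : 𝓞 E)})).Coprime n :=
    Nat.Coprime.coprime_dvd_left (hdvd m) (Nat.Coprime.pow_left _ h)
  have hc2 : (Ideal.absNorm (K ⊔ Ideal.span {(n : 𝓞 E)})).Coprime m :=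
    Nat.Coprime.coprime_dvd_left (hdvd n) (Nat.Coprime.pow_left _ h.symm)
  have hd1 : Ideal.absNorm (K ⊔ Ideal.span {(m : 𝓞 E)}) ∣ m :=
    hc1.dvd_of_dvd_mul_right (hnorm ▸ dvd_mul_right _ _)
  have hd2 : Ideal.absNorm (K ⊔ Ideal.span {(n : 𝓞 E)}) ∣ n :=
    hc2.dvd_of_dvd_mul_left (hnorm ▸ dvd_mul_left _ _)
  have hd3 : m ∣ Ideal.absNorm (K ⊔ Ideal.span {(m : 𝓞 E)}) := by
    have : m ∣ Ideal.absNorm (K ⊔ Ideal.span {(m : 𝓞 E)}) *
        Ideal.absNorm (K ⊔ Ideal.span {(n : 𝓞 E)}) := hnorm ▸ dvd_mul_right _ _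
    exact hc2.symm.dvd_of_dvd_mul_right this
  have hd4 : n ∣ Ideal.absNorm (K ⊔ Ideal.span {(n : 𝓞 E)}) := by
    have : n ∣ Ideal.absNorm (K ⊔ Ideal.span {(m : 𝓞 E)}) *
        Ideal.absNorm (K ⊔ Ideal.span {(n : 𝓞 E)}) := hnorm ▸ dvd_mul_left _ _
    exact hc1.symm.dvd_of_dvd_mul_left this
  exact ⟨hprod, Nat.dvd_antisymm hd1 hd3, Nat.dvd_antisymm hd2 hd4⟩

theorem idc_mul_pos {m n : ℕ} (h : m.Coprime n) (hm : 0 < m) (hn : 0 < n) :
    idc E (m * n) = idc E m * idc E n := by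
  unfold idc
  rw [← Nat.card_prod]
  symm
  refine Nat.card_congr (Equiv.ofBijective (fun p : {I : Ideal (𝓞 E) // Ideal.absNorm I = m} ×
    {I : Ideal (𝓞 E) // Ideal.absNorm I = n} =>
    (⟨p.1.1 * p.2.1, by rw [map_mul, p.1.2, p.2.2]⟩ :
      {I : Ideal (𝓞 E) // Ideal.absNorm I = m * n})) ⟨?_, ?_⟩)
  · rintro ⟨⟨I, hI⟩, ⟨J, hJ⟩⟩ ⟨⟨I', hI'⟩, ⟨J', hJ'⟩⟩ he
    have he' : I * J = I' * J' := congrArg Subtype.val he
    have h1 : I = I' := by
      rw [← recover h hI hJ, ← recover h hI' hJ', he']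
    have h2 : J = J' := by
      rw [← recover h.symm hJ hI, ← recover h.symm hJ' hI', mul_comm J I, mul_comm J' I', he']
    subst h1 h2
    rfl
  · rintro ⟨K, hK⟩
    obtain ⟨h1, h2, h3⟩ := norm_factor h hm hn hK
    exact ⟨⟨⟨_, h2⟩, ⟨_, h3⟩⟩, Subtype.ext h1⟩

end IdcMul

theorem idc_mul (E : Type) [Field E] [NumberField E] {m n : ℕ} (h : m.Coprime n) :
    idc E (m * n) = idc E m * idc E n := by
  rcases Nat.eq_zero_or_pos m with rfl | hm
  · have : n = 1 := by simpa using h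
    subst this
    simp [IdcMul.idc_zero, IdcMul.idc_one]
  rcases Nat.eq_zero_or_pos n with rfl | hn
  · have : m = 1 := by simpa using h
    subst this
    simp [IdcMul.idc_zero, IdcMul.idc_one]
  exact IdcMul.idc_mul_pos h hm hn

end Pool.TP
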