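import Pool.Agent.TP.Defs

set_option autoImplicit false

/-! The number of ideals of norm `p ^ e` of a number field of degree `d` is at most
`(e + 1) ^ d`. -/

open NumberField Polynomial UniqueFactorizationMonoid

namespace Pool.TP

namespace IdcPow

variable {E : Type} [Field E] [NumberField E]

theorem norm_eq_pow {p : ℕ} (hp : p.Prime) {e : ℕ} {P : Ideal (𝓞 E)} (hP : Prime P)
    (h : Ideal.absNorm P ∣ p ^ e) : ∃ f, 1 ≤ f ∧ Ideal.absNorm P = p ^ f := by
  obtain ⟨f, _, hf⟩ := (Nat.dvd_prime_pow hp).1 h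
  refine ⟨f, ?_, hf⟩
  rcases Nat.eq_zero_or_pos f with h0 | h0
  · subst h0
    rw [pow_zero, Ideal.absNorm_eq_one_iff] at hf
    refine absurd ?_ hP.not_isUnit
    rw [hf, ← Ideal.one_eq_top]
    exact isUnit_one
  · exact h0

theorem card_le_of_norm {p : ℕ} (hp : p.Prime) {J : Ideal (𝓞 E)} (hJ : J ≠ 0) {e : ℕ}
    (h : Ideal.absNorm J = p ^ e) : Multiset.card (normalizedFactors J) ≤ e := by
  classical
  have h1 : (normalizedFactors J).prod = J := Ideal.prod_normalizedFactors_eq_self hJ
  have h2 : p ^ Multiset.card (normalizedFactors J) ∣ p ^ e := by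
    rw [← h]
    conv_rhs => rw [← h1, map_multiset_prod]
    have h3 : ∀ s : Multiset (Ideal (𝓞 E)), (∀ P ∈ s, p ∣ Ideal.absNorm P) →
        p ^ Multiset.card s ∣ (s.map Ideal.absNorm).prod := by
      intro s
      induction s using Multiset.induction_on with
      | empty => intro _; simp
      | cons a s ih =>
        intro hs
        rw [Multiset.card_cons, Multiset.map_cons, Multiset.prod_cons, pow_succ, mul_comm]
        exact mul_dvd_mul (hs a (Multiset.mem_cons_self a s))
          (ih fun P hP => hs P (Multiset.mem_cons_of_mem hP))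
    refine h3 _ fun P hP => ?_
    have h4 : Ideal.absNorm P ∣ p ^ e := by
      rw [← h]
      exact map_dvd Ideal.absNorm (dvd_of_mem_normalizedFactors hP)
    obtain ⟨f, hf1, hf⟩ := norm_eq_pow hp (prime_of_normalized_factor P hP) h4
    rw [hf]
    exact dvd_pow_self p (by omega)
  exact (Nat.pow_dvd_pow_iff_le_right hp.one_lt).1 h2

end IdcPow

open IdcPow in
theorem idc_prime_pow_le (E : Type) [Field E] [NumberField E] {p : ℕ} (hp : p.Prime) (e : ℕ) :
    idc E (p ^ e) ≤ (e + 1) ^ Module.finrank ℚ E := by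
  classical
  set J : Ideal (𝓞 E) := Ideal.span {((p : ℕ) : 𝓞 E)} with hJ
  have hp0 : ((p : ℕ) : 𝓞 E) ≠ 0 := by exact_mod_cast hp.ne_zero
  have hJ0 : J ≠ 0 := by
    rw [hJ, Ideal.zero_eq_bot, Ne, Ideal.span_singleton_eq_bot]
    exact hp0
  have hJn : Ideal.absNorm J = p ^ Module.finrank ℚ E := by
    rw [hJ, Ideal.absNorm_span_singleton]
    have : (p : 𝓞 E) = algebraMap ℤ (𝓞 E) (p : ℤ) := by simp
    rw [this, Algebra.norm_algebraMap, RingOfIntegers.rank, Int.natAbs_pow, Int.natAbs_natCast]
  set F : Finset (Ideal (𝓞 E)) := (normalizedFactors J).toFinset with hF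
  have hFcard : F.card ≤ Module.finrank ℚ E :=
    (Multiset.toFinset_card_le _).trans (card_le_of_norm hp hJ0 hJn)
  have hpe : p ^ e ≠ 0 := pow_ne_zero e hp.ne_zero
  have hne : ∀ I : {I : Ideal (𝓞 E) // Ideal.absNorm I = p ^ e}, I.1 ≠ 0 := by
    rintro ⟨I, hI⟩ h0
    simp only at h0
    rw [h0, Ideal.zero_eq_bot, Ideal.absNorm_bot] at hI
    exact hpe hI.symm
  have hcount : ∀ (I : {I : Ideal (𝓞 E) // Ideal.absNorm I = p ^ e}) (P : Ideal (𝓞 E)),
      (normalizedFactors I.1).count P < e + 1 := by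
    intro I P
    exact Nat.lt_succ_of_le ((Multiset.count_le_card _ _).trans (card_le_of_norm hp (hne I) I.2))
  let φ : {I : Ideal (𝓞 E) // Ideal.absNorm I = p ^ e} → (F → Fin (e + 1)) := fun I P =>
    ⟨(normalizedFactors I.1).count P.1, hcount I P.1⟩
  have hφ : Function.Injective φ := by
    intro I I' h
    apply Subtype.ext
    have hsupp : ∀ (I : {I : Ideal (𝓞 E) // Ideal.absNorm I = p ^ e}) (P : Ideal (𝓞 E)),
        P ∈ normalizedFactors I.1 → P ∈ F := by
      intro I P hP
      have hprime := prime_of_normalized_factor P hP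
      have h1 : I.1 ≤ P := Ideal.dvd_iff_le.1 (dvd_of_mem_normalizedFactors hP)
      have h2 : ((p ^ e : ℕ) : 𝓞 E) ∈ P := by
        have := Ideal.absNorm_mem I.1
        rw [I.2] at this
        exact h1 this
      have h3 : ((p : ℕ) : 𝓞 E) ∈ P := by
        rw [Nat.cast_pow] at h2
        exact (Ideal.isPrime_of_prime hprime).mem_of_pow_mem e h2
      rw [hF, Multiset.mem_toFinset]
      have h4 : P ∣ J := by
        rw [Ideal.dvd_iff_le, hJ, Ideal.span_singleton_le_iff_mem]
        exact h3
      obtain ⟨Q, hQ, hPQ⟩ := exists_mem_normalizedFactors_of_dvd hJ0 hprime.irreducible h4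
      rwa [associated_iff_eq.1 hPQ]
    have h5 : normalizedFactors I.1 = normalizedFactors I'.1 := by
      ext P
      by_cases hP : P ∈ F
      · exact congrArg Fin.val (congrFun h ⟨P, hP⟩)
      · rw [Multiset.count_eq_zero_of_notMem fun h' => hP (hsupp I P h'),
          Multiset.count_eq_zero_of_notMem fun h' => hP (hsupp I' P h')]
    rw [← Ideal.prod_normalizedFactors_eq_self (hne I), ← Ideal.prod_normalizedFactors_eq_self (hne I'),
      h5]
  have h6 : idc E (p ^ e) ≤ Nat.card (F → Fin (e + 1)) := Nat.card_le_card_of_injective φ hφ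
  refine h6.trans ?_
  rw [Nat.card_eq_fintype_card, Fintype.card_fun, Fintype.card_fin, Fintype.card_coe]
  exact Nat.pow_le_pow_right (by omega) hFcard

end Pool.TP
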