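import Pool.Agent.TP.IdcMul
import Pool.Agent.TP.IdcPow

/-!
The sum over the primes `∑ a(p) p^{-s}`, `a(p)` the number of ideals of norm `p` of a number field.
-/

open NumberField Polynomial Filter Topology
open scoped Pointwise BigOperators

namespace Pool.TP

namespace PrimeSum

variable (E : Type) [Field E] [NumberField E]

/-- The terms of the Dedekind zeta function. -/
noncomputable def ff (s : ℝ) (n : ℕ) : ℝ := (idc E n : ℝ) * (n : ℝ) ^ (-s)

/-- The value of the Dedekind zeta function. -/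
noncomputable def ZZ (s : ℝ) : ℝ := ∑' n, ff E s n

variable {E}

lemma ff_zero {s : ℝ} (hs : 1 < s) : ff E s 0 = 0 := by
  unfold ff
  rw [Nat.cast_zero, Real.zero_rpow (by linarith), mul_zero]

lemma ff_one {s : ℝ} : ff E s 1 = 1 := by
  unfold ff
  rw [IdcMul.idc_one]
  simp

lemma ff_nonneg (s : ℝ) (n : ℕ) : 0 ≤ ff E s n :=
  mul_nonneg (Nat.cast_nonneg _) (Real.rpow_nonneg (Nat.cast_nonneg _) _)

lemma ff_mul {s : ℝ} {m n : ℕ} (h : m.Coprime n) : ff E s (m * n) = ff E s m * ff E s n := by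
  unfold ff
  rw [idc_mul E h, Nat.cast_mul, Nat.cast_mul, Real.mul_rpow (Nat.cast_nonneg _) (Nat.cast_nonneg _)]
  ring

lemma tendsto_avg : Tendsto (fun n : ℕ => (∑ k ∈ Finset.Icc 1 n, (idc E k : ℝ)) / (n : ℝ)) atTop
    (𝓝 (dedekindZeta_residue E)) := by
  refine ((Ideal.tendsto_norm_le_div_atTop₀ E).comp tendsto_natCast_atTop_atTop).congr fun n ↦ ?_
  simp only [Function.comp_apply, Nat.cast_le, ← Nat.cast_sum]
  congr
  rw [← add_left_inj 1, ← Ideal.card_norm_le_eq_card_norm_le_add_one,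
    show Finset.Icc 1 n = Finset.Ioc 0 n from Finset.Icc_succ_left_eq_Ioc _ _,
    show 1 = idc E 0 from (IdcMul.idc_zero E).symm,
    Finset.sum_Ioc_add_eq_sum_Icc (n.zero_le)]
  unfold idc
  rw [← Finset.card_preimage_eq_sum_card_image_eq (fun k _ ↦ Ideal.finite_setOfPred_absNorm_eq k)]
  simp [Set.coe_eq_subtype]

lemma lsum {s : ℝ} (hs : 1 < s) :
    LSeriesSummable (fun n => ((idc E n : ℝ) : ℂ)) (s : ℂ) := by
  refine LSeriesSummable_of_sum_norm_bigO_and_nonneg (f := fun n => (idc E n : ℝ)) (r := 1) ?_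
    (fun _ => Nat.cast_nonneg _) zero_le_one (by simpa using hs)
  exact Asymptotics.isBigO_atTop_natCast_rpow_of_tendsto_div_rpow (a := dedekindZeta_residue E)
    (by simpa using tendsto_avg (E := E))

lemma term_eq {s : ℝ} (hs : 1 < s) (n : ℕ) :
    LSeries.term (fun n => ((idc E n : ℝ) : ℂ)) (s : ℂ) n = ((ff E s n : ℝ) : ℂ) := by
  rcases eq_or_ne n 0 with rfl | hn
  · rw [LSeries.term_zero, ff_zero hs, Complex.ofReal_zero]
  · rw [LSeries.term_of_ne_zero hn]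
    unfold ff
    rw [Real.rpow_neg (Nat.cast_nonneg _), Complex.ofReal_mul, Complex.ofReal_inv,
      Complex.ofReal_cpow (Nat.cast_nonneg _), div_eq_mul_inv]
    simp

lemma summable_ff {s : ℝ} (hs : 1 < s) : Summable (ff E s) := by
  have h := lsum (E := E) hs
  unfold LSeriesSummable at h
  have h2 : (LSeries.term (fun n => ((idc E n : ℝ) : ℂ)) (s : ℂ)) = fun n => ((ff E s n : ℝ) : ℂ) :=
    funext (term_eq hs)
  rw [h2] at h
  exact Complex.summable_ofReal.1 h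

lemma zeta_eq {s : ℝ} (hs : 1 < s) : dedekindZeta E s = ((ZZ E s : ℝ) : ℂ) := by
  unfold dedekindZeta LSeries ZZ
  rw [Complex.ofReal_tsum]
  refine tsum_congr fun n => ?_
  rw [← term_eq hs]
  rfl

lemma one_le_ZZ {s : ℝ} (hs : 1 < s) : 1 ≤ ZZ E s := by
  have := (summable_ff (E := E) hs).le_tsum 1 (fun n _ => ff_nonneg s n)
  rwa [ff_one] at this

lemma ZZ_anti {s t : ℝ} (hs : 1 < s) (hst : s ≤ t) : ZZ E t ≤ ZZ E s := by
  refine Summable.tsum_le_tsum ?_ (summable_ff (lt_of_lt_of_le hs hst)) (summable_ff hs)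
  intro n
  rcases Nat.eq_zero_or_pos n with rfl | hn
  · rw [ff_zero hs, ff_zero (lt_of_lt_of_le hs hst)]
  · unfold ff
    refine mul_le_mul_of_nonneg_left ?_ (Nat.cast_nonneg _)
    exact Real.rpow_le_rpow_of_exponent_le (by exact_mod_cast hn) (by linarith)

lemma tendsto_ZZ : Tendsto (fun s : ℝ => (s - 1) * ZZ E s) (𝓝[>] 1) (𝓝 (dedekindZeta_residue E)) := by
  have h := tendsto_sub_one_mul_dedekindZeta_nhdsGT E
  have h2 : Tendsto (fun s : ℝ => (((s - 1) * ZZ E s : ℝ) : ℂ)) (𝓝[>] 1)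
      (𝓝 ((dedekindZeta_residue E : ℝ) : ℂ)) := by
    refine h.congr' ?_
    filter_upwards [self_mem_nhdsWithin] with s hs
    rw [zeta_eq hs]
    push_cast
    rfl
  have h3 := (Complex.continuous_re.tendsto _).comp h2
  simpa [Function.comp_def] using h3

/-- `log Z(s)` and `log (1 / (s - 1))` differ by a bounded amount. -/
lemma log_ZZ : ∃ C : ℝ, ∀ s : ℝ, 1 < s → s ≤ 2 →
    |Real.log (ZZ E s) - Real.log (1 / (s - 1))| ≤ C := by
  have hρ : 0 < dedekindZeta_residue E := dedekindZeta_residue_pos E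
  set ρ := dedekindZeta_residue E with hρdef
  have h1 : ∀ᶠ s in 𝓝[>] (1 : ℝ), (s - 1) * ZZ E s ∈ Set.Ioo (ρ / 2) (2 * ρ) :=
    tendsto_ZZ.eventually (Ioo_mem_nhds (by linarith) (by linarith))
  obtain ⟨δ, hδ, hδ2⟩ := (mem_nhdsGT_iff_exists_Ioo_subset).1 h1
  have hδ1 : (1 : ℝ) < δ := hδ
  set m := min (ρ / 2) (δ - 1) with hm
  set M := max (2 * ρ) (ZZ E δ) with hM
  have hmpos : 0 < m := lt_min (by linarith) (by linarith)
  have hMpos : 0 < M := lt_max_of_lt_left (by linarith)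
  refine ⟨max |Real.log m| |Real.log M|, fun s hs hs2 => ?_⟩
  have hZpos : 0 < ZZ E s := lt_of_lt_of_le one_pos (one_le_ZZ hs)
  have hspos : 0 < s - 1 := by linarith
  have hmem : m ≤ (s - 1) * ZZ E s ∧ (s - 1) * ZZ E s ≤ M := by
    rcases lt_or_ge s δ with hlt | hge
    · have h2 : (s - 1) * ZZ E s ∈ Set.Ioo (ρ / 2) (2 * ρ) := hδ2 ⟨hs, hlt⟩
      exact ⟨(min_le_left _ _).trans h2.1.le, h2.2.le.trans (le_max_left _ _)⟩
    · constructor
      · calc m ≤ δ - 1 := min_le_right _ _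
          _ ≤ (s - 1) * 1 := by linarith
          _ ≤ (s - 1) * ZZ E s := mul_le_mul_of_nonneg_left (one_le_ZZ hs) hspos.le
      · calc (s - 1) * ZZ E s ≤ 1 * ZZ E s := mul_le_mul_of_nonneg_right (by linarith) hZpos.le
          _ ≤ ZZ E δ := by rw [one_mul]; exact ZZ_anti hδ1 hge
          _ ≤ M := le_max_right _ _
  have hlog : Real.log (ZZ E s) - Real.log (1 / (s - 1)) = Real.log ((s - 1) * ZZ E s) := by
    rw [Real.log_mul hspos.ne' hZpos.ne', one_div, Real.log_inv]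
    ring
  rw [hlog]
  have hl1 : Real.log m ≤ Real.log ((s - 1) * ZZ E s) := Real.log_le_log hmpos hmem.1
  have hl2 : Real.log ((s - 1) * ZZ E s) ≤ Real.log M :=
    Real.log_le_log (lt_of_lt_of_le hmpos hmem.1) hmem.2
  rw [abs_le]
  constructor
  · have a1 := neg_abs_le (Real.log m)
    have a2 := le_max_left |Real.log m| |Real.log M|
    linarith
  · have a1 := le_abs_self (Real.log M)
    have a2 := le_max_right |Real.log m| |Real.log M|
    linarith

/-- The local factor. -/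
noncomputable def FF (E : Type) [Field E] [NumberField E] (s : ℝ) (p : ℕ) : ℝ := ∑' e, ff E s (p ^ e)

lemma euler {s : ℝ} (hs : 1 < s) : HasProd (fun p : Nat.Primes => FF E s p) (ZZ E s) := by
  have h := EulerProduct.eulerProduct_hasProd (f := ff E s) ff_one (fun {m n} h => ff_mul h)
    (by
      have h1 := summable_ff (E := E) hs
      refine h1.congr fun n => ?_
      rw [Real.norm_of_nonneg (ff_nonneg s n)]) (ff_zero hs)
  exact h

/-- The constant in the bound of the tail of the local factor. -/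
noncomputable def CC (d : ℕ) : ℝ := ∑' e : ℕ, ((e : ℝ) + 3) ^ d * (1 / 2 : ℝ) ^ e

lemma summable_CC (d : ℕ) : Summable (fun e : ℕ => ((e : ℝ) + 3) ^ d * (1 / 2 : ℝ) ^ e) := by
  have h1 : Summable (fun e : ℕ => ((e : ℝ)) ^ d * (1 / 2 : ℝ) ^ e) :=
    summable_pow_mul_geometric_of_norm_lt_one d (by norm_num)
  have h2 := (summable_nat_add_iff 3).2 h1
  have h3 := h2.mul_left ((2 : ℝ) ^ 3)
  refine h3.congr fun e => ?_
  push_cast
  rw [pow_add]
  ring

lemma CC_nonneg (d : ℕ) : 0 ≤ CC d := tsum_nonneg fun e => by positivity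

lemma tail_le {s : ℝ} (hs : 1 < s) {p : ℕ} (hp : p.Prime) (e : ℕ) :
    ff E s (p ^ (e + 2)) ≤ ((p : ℝ) ^ 2)⁻¹ *
      (((e : ℝ) + 3) ^ (Module.finrank ℚ E) * (1 / 2 : ℝ) ^ e) := by
  have hp2 : (2 : ℝ) ≤ p := by exact_mod_cast hp.two_le
  have hp0 : (0 : ℝ) < p := by linarith
  unfold ff
  have h1 : (idc E (p ^ (e + 2)) : ℝ) ≤ ((e : ℝ) + 3) ^ (Module.finrank ℚ E) := by
    have := idc_prime_pow_le E hp (e + 2)
    have h2 : ((idc E (p ^ (e + 2)) : ℕ) : ℝ) ≤ (((e + 2 + 1) ^ Module.finrank ℚ E : ℕ) : ℝ) := by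
      exact_mod_cast this
    refine h2.trans (le_of_eq ?_)
    push_cast
    ring
  have h3 : (((p ^ (e + 2) : ℕ)) : ℝ) ^ (-s) ≤ ((p : ℝ) ^ 2)⁻¹ * (1 / 2 : ℝ) ^ e := by
    have hone : (1 : ℝ) ≤ ((p ^ (e + 2) : ℕ) : ℝ) := by
      exact_mod_cast Nat.one_le_pow _ _ hp.pos
    calc (((p ^ (e + 2) : ℕ)) : ℝ) ^ (-s) ≤ (((p ^ (e + 2) : ℕ)) : ℝ) ^ (-1 : ℝ) :=
          Real.rpow_le_rpow_of_exponent_le hone (by linarith)
      _ = ((p : ℝ) ^ 2)⁻¹ * ((p : ℝ)⁻¹) ^ e := by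
          rw [Real.rpow_neg_one]
          push_cast
          rw [pow_add, mul_inv, inv_pow, mul_comm]
      _ ≤ ((p : ℝ) ^ 2)⁻¹ * (1 / 2 : ℝ) ^ e := by
          refine mul_le_mul_of_nonneg_left ?_ (by positivity)
          refine pow_le_pow_left₀ (by positivity) ?_ e
          rw [one_div]
          exact inv_anti₀ (by norm_num) hp2
  calc (idc E (p ^ (e + 2)) : ℝ) * (((p ^ (e + 2) : ℕ)) : ℝ) ^ (-s)
      ≤ ((e : ℝ) + 3) ^ (Module.finrank ℚ E) * (((p : ℝ) ^ 2)⁻¹ * (1 / 2 : ℝ) ^ e) :=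
        mul_le_mul h1 h3 (Real.rpow_nonneg (Nat.cast_nonneg _) _) (by positivity)
    _ = _ := by ring

lemma summable_local {s : ℝ} (hs : 1 < s) {p : ℕ} (hp : p.Prime) :
    Summable (fun e : ℕ => ff E s (p ^ e)) :=
  (summable_ff (E := E) hs).comp_injective (Nat.pow_right_injective hp.two_le)

lemma FF_eq {s : ℝ} (hs : 1 < s) {p : ℕ} (hp : p.Prime) :
    FF E s p = 1 + ff E s p + ∑' e : ℕ, ff E s (p ^ (e + 2)) := by
  unfold FF
  rw [← (summable_local (E := E) hs hp).sum_add_tsum_nat_add 2]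
  rw [Finset.sum_range_succ, Finset.sum_range_one, pow_zero, pow_one, ff_one]

lemma tail_bounds {s : ℝ} (hs : 1 < s) {p : ℕ} (hp : p.Prime) :
    0 ≤ ∑' e : ℕ, ff E s (p ^ (e + 2)) ∧
      ∑' e : ℕ, ff E s (p ^ (e + 2)) ≤ CC (Module.finrank ℚ E) * ((p : ℝ) ^ 2)⁻¹ := by
  refine ⟨tsum_nonneg fun e => ff_nonneg s _, ?_⟩
  have h1 : Summable (fun e : ℕ => ff E s (p ^ (e + 2))) :=
    (summable_nat_add_iff (f := fun e => ff E s (p ^ e)) 2).2 (summable_local hs hp)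
  have h2 := (summable_CC (Module.finrank ℚ E)).mul_left (((p : ℝ) ^ 2)⁻¹)
  have h3 := Summable.tsum_le_tsum (tail_le (E := E) hs hp) h1 h2
  rw [tsum_mul_left] at h3
  refine h3.trans (le_of_eq ?_)
  unfold CC
  ring

lemma ff_prime_le {s : ℝ} (hs : 1 < s) {p : ℕ} (hp : p.Prime) :
    ff E s p ≤ 2 ^ (Module.finrank ℚ E) * (p : ℝ)⁻¹ := by
  unfold ff
  have h1 : (idc E p : ℝ) ≤ 2 ^ (Module.finrank ℚ E) := by
    have := idc_prime_pow_le E hp 1
    rw [pow_one] at this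
    exact_mod_cast this
  have h2 : (p : ℝ) ^ (-s) ≤ (p : ℝ)⁻¹ := by
    rw [← Real.rpow_neg_one]
    exact Real.rpow_le_rpow_of_exponent_le (by exact_mod_cast hp.one_le) (by linarith)
  exact mul_le_mul h1 h2 (Real.rpow_nonneg (Nat.cast_nonneg _) _) (by positivity)

/-- The constant. -/
noncomputable def DD (d : ℕ) : ℝ := CC d + (2 ^ d) ^ 2

lemma log_local {s : ℝ} (hs : 1 < s) {p : ℕ} (hp : p.Prime) :
    |Real.log (FF E s p) - ff E s p| ≤ DD (Module.finrank ℚ E) * ((p : ℝ) ^ 2)⁻¹ := by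
  have hF := FF_eq (E := E) hs hp
  obtain ⟨t0, t1⟩ := tail_bounds (E := E) hs hp
  set R := ∑' e : ℕ, ff E s (p ^ (e + 2)) with hR
  have hu0 : 0 ≤ ff E s p := ff_nonneg s p
  have hu1 := ff_prime_le (E := E) hs hp
  set u := ff E s p with hu
  have hp0 : (0 : ℝ) < p := by exact_mod_cast hp.pos
  have hsq : u ^ 2 ≤ (2 ^ (Module.finrank ℚ E)) ^ 2 * ((p : ℝ) ^ 2)⁻¹ := by
    calc u ^ 2 ≤ (2 ^ (Module.finrank ℚ E) * (p : ℝ)⁻¹) ^ 2 := pow_le_pow_left₀ hu0 hu1 2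
      _ = _ := by rw [mul_pow, inv_pow]
  have hCC := CC_nonneg (Module.finrank ℚ E)
  have hpos : (0 : ℝ) < ((p : ℝ) ^ 2)⁻¹ := by positivity
  have hFpos : 0 < FF E s p := by rw [hF]; linarith
  rw [abs_le]
  unfold DD
  constructor
  · -- lower bound
    have h1 : Real.log (1 + u) ≤ Real.log (FF E s p) :=
      Real.log_le_log (by linarith) (by rw [hF]; linarith)
    have h2 : 1 - (1 + u)⁻¹ ≤ Real.log (1 + u) := Real.one_sub_inv_le_log_of_pos (by linarith)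
    have h3 : u - u ^ 2 ≤ 1 - (1 + u)⁻¹ := by
      have h4 : 1 - (1 + u)⁻¹ - (u - u ^ 2) = u ^ 3 / (1 + u) := by
        field_simp
        ring
      have h5 : 0 ≤ u ^ 3 / (1 + u) := by positivity
      linarith
    have h6 : 0 ≤ CC (Module.finrank ℚ E) * ((p : ℝ) ^ 2)⁻¹ := mul_nonneg hCC hpos.le
    rw [add_mul]
    linarith
  · have h1 : Real.log (FF E s p) ≤ FF E s p - 1 := Real.log_le_sub_one_of_pos hFpos
    have h6 : 0 ≤ (2 ^ (Module.finrank ℚ E) : ℝ) ^ 2 * ((p : ℝ) ^ 2)⁻¹ := by positivity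
    rw [add_mul]
    rw [hF] at h1 ⊢
    linarith

lemma FF_pos {s : ℝ} (hs : 1 < s) {p : ℕ} (hp : p.Prime) : 0 < FF E s p := by
  rw [FF_eq hs hp]
  have h1 := (tail_bounds (E := E) hs hp).1
  have h2 := ff_nonneg (E := E) s p
  linarith

lemma hasSum_log {s : ℝ} (hs : 1 < s) :
    HasSum (fun p : Nat.Primes => Real.log (FF E s p)) (Real.log (ZZ E s)) := by
  have h := euler (E := E) hs
  have hZ : ZZ E s ≠ 0 := (lt_of_lt_of_le one_pos (one_le_ZZ hs)).ne'
  unfold HasProd at h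
  unfold HasSum
  refine ((Real.continuousAt_log hZ).tendsto.comp h).congr fun t => ?_
  simp only [Function.comp_apply]
  rw [Real.log_prod]
  intro p _
  exact (FF_pos hs p.2).ne'

lemma summable_inv_sq : Summable (fun p : Nat.Primes => (((p : ℕ) : ℝ) ^ 2)⁻¹) := by
  have h : Summable (fun n : ℕ => ((n : ℝ) ^ 2)⁻¹) := Real.summable_nat_pow_inv.2 (by norm_num)
  exact h.comp_injective Subtype.val_injective

end PrimeSum

/-- `∑ a(p) p^{-s} = log (1 / (s - 1)) + O(1)`, `a(p)` the number of ideals of norm `p`. -/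
theorem prime_sum (E : Type) [Field E] [NumberField E] :
    ∃ C : ℝ, ∀ s : ℝ, 1 < s → s ≤ 2 →
      Summable (fun p : Nat.Primes => (idc E p : ℝ) * (p : ℝ) ^ (-s)) ∧
      |(∑' p : Nat.Primes, (idc E p : ℝ) * (p : ℝ) ^ (-s)) - Real.log (1 / (s - 1))| ≤ C := by
  obtain ⟨C1, hC1⟩ := PrimeSum.log_ZZ (E := E)
  set D := PrimeSum.DD (Module.finrank ℚ E) with hD
  refine ⟨D * (∑' p : Nat.Primes, (((p : ℕ) : ℝ) ^ 2)⁻¹) + C1, fun s hs hs2 => ?_⟩
  have hsum : Summable (fun p : Nat.Primes => PrimeSum.ff E s p) :=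
    (PrimeSum.summable_ff (E := E) hs).comp_injective Subtype.val_injective
  refine ⟨hsum, ?_⟩
  have hlog := PrimeSum.hasSum_log (E := E) hs
  have h1 : HasSum (fun p : Nat.Primes => Real.log (PrimeSum.FF E s p) - PrimeSum.ff E s p)
      (Real.log (PrimeSum.ZZ E s) - ∑' p : Nat.Primes, PrimeSum.ff E s p) :=
    hlog.sub hsum.hasSum
  have h2 : Summable (fun p : Nat.Primes => D * (((p : ℕ) : ℝ) ^ 2)⁻¹) :=
    PrimeSum.summable_inv_sq.mul_left D
  have h3 : |Real.log (PrimeSum.ZZ E s) - ∑' p : Nat.Primes, PrimeSum.ff E s p| ≤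
      D * (∑' p : Nat.Primes, (((p : ℕ) : ℝ) ^ 2)⁻¹) := by
    rw [← h1.tsum_eq, ← Real.norm_eq_abs]
    refine (tsum_of_norm_bounded (h2.hasSum) fun p => ?_).trans (le_of_eq tsum_mul_left)
    rw [Real.norm_eq_abs]
    exact PrimeSum.log_local hs p.2
  have h4 := hC1 s hs hs2
  have h5 : (∑' p : Nat.Primes, (idc E p : ℝ) * (p : ℝ) ^ (-s)) - Real.log (1 / (s - 1))
      = -(Real.log (PrimeSum.ZZ E s) - ∑' p : Nat.Primes, PrimeSum.ff E s p)
        + (Real.log (PrimeSum.ZZ E s) - Real.log (1 / (s - 1))) := by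
    unfold PrimeSum.ff
    ring
  rw [h5]
  refine (abs_add_le _ _).trans ?_
  rw [abs_neg]
  exact add_le_add h3 h4

end Pool.TP
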