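import Pool.Agent.TP.Defs

/-!
Ramified primes of a Galois number field, square roots of primes in a number field, and quadratic
reciprocity for `q*`.
-/

open NumberField Polynomial
open scoped Pointwise BigOperators

namespace Pool.TP

namespace Ramif

/-- A prime in a prime ideal containing `y` divides the norm of `y`. -/
theorem dvd_absNorm {M : Type} [Field M] [NumberField M] {p : ℕ} (hp : p.Prime)
    {P : Ideal (𝓞 M)} (hP : P.IsPrime) (hpP : (p : 𝓞 M) ∈ P) {y : 𝓞 M} (hy : y ∈ P) :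
    p ∣ Ideal.absNorm (Ideal.span {y}) := by
  by_contra hd
  have hc : Nat.Coprime p (Ideal.absNorm (Ideal.span {y})) := (Nat.Prime.coprime_iff_not_dvd hp).mpr hd
  have h1 : ((Ideal.absNorm (Ideal.span {y}) : ℕ) : 𝓞 M) ∈ P :=
    (Ideal.span_singleton_le_iff_mem P).mpr hy (Ideal.absNorm_mem _)
  have h2 : IsCoprime (p : ℤ) ((Ideal.absNorm (Ideal.span {y}) : ℕ) : ℤ) :=
    Nat.isCoprime_iff_coprime.mpr hc
  obtain ⟨a, b, hab⟩ := h2
  have h3 : (a : 𝓞 M) * (p : 𝓞 M) + (b : 𝓞 M) * ((Ideal.absNorm (Ideal.span {y}) : ℕ) : 𝓞 M) = 1 := by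
    have := congrArg (fun z : ℤ => (z : 𝓞 M)) hab
    push_cast at this
    exact this
  apply hP.ne_top
  rw [Ideal.eq_top_iff_one, ← h3]
  exact Ideal.add_mem _ (Ideal.mul_mem_left _ _ hpP) (Ideal.mul_mem_left _ _ h1)

/-- The Galois group acts faithfully on the ring of integers. -/
theorem exists_moved {M : Type} [Field M] [NumberField M] (σ : M ≃ₐ[ℚ] M) (hσ : σ ≠ 1) :
    ∃ x : 𝓞 M, σ • x ≠ x := by
  by_contra hcon
  push Not at hcon
  apply hσ
  ext z
  obtain ⟨a, b, hb, hz⟩ := IsFractionRing.div_surjective (A := 𝓞 M) z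
  have h1 : ∀ x : 𝓞 M, σ (algebraMap (𝓞 M) M x) = algebraMap (𝓞 M) M x := by
    intro x
    have := congrArg (fun y : 𝓞 M => algebraMap (𝓞 M) M y) (hcon x)
    exact this
  rw [← hz, map_div₀, h1, h1]
  simp

end Ramif

theorem finite_ramified (M : Type) [Field M] [NumberField M] [IsGalois ℚ M] :
    {p : ℕ | p.Prime ∧ ∃ P : Ideal (𝓞 M), P.IsPrime ∧ (p : 𝓞 M) ∈ P ∧
      P.inertia (M ≃ₐ[ℚ] M) ≠ ⊥}.Finite := by
  choose x hx using (Ramif.exists_moved (M := M))
  have hfin : (⋃ σ : {σ : M ≃ₐ[ℚ] M // σ ≠ 1},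
      (((Ideal.absNorm (Ideal.span {σ.1 • x σ.1 σ.2 - x σ.1 σ.2})).divisors : Finset ℕ) :
        Set ℕ)).Finite := by
    apply Set.finite_iUnion
    intro σ
    exact Finset.finite_toSet _
  refine hfin.subset ?_
  rintro p ⟨hp, P, hP, hpP, hin⟩
  obtain ⟨σ, hσ1⟩ := Subgroup.ne_bot_iff_exists_ne_one.mp hin
  have hne : (σ : M ≃ₐ[ℚ] M) ≠ 1 := fun h => hσ1 (Subtype.ext h)
  have hmem : (σ : M ≃ₐ[ℚ] M) • x σ.1 hne - x σ.1 hne ∈ P := σ.2 _
  rw [Set.mem_iUnion]
  refine ⟨⟨σ.1, hne⟩, ?_⟩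
  rw [Finset.mem_coe, Nat.mem_divisors]
  refine ⟨Ramif.dvd_absNorm hp hP hpP hmem, ?_⟩
  rw [Ne, Ideal.absNorm_eq_zero_iff, Ideal.span_singleton_eq_bot]
  exact sub_ne_zero.mpr (hx _ _)

namespace Ramif

theorem isAlgClosure_rat : IsAlgClosure ℚ (AlgebraicClosure ℚ) :=
  @AlgebraicClosure.instIsAlgClosure ℚ _

theorem not_isSquare {q q' : ℕ} (hq : q.Prime) (hq' : q'.Prime) (hne : q ≠ q') (a : ℚ) :
    a ^ 2 ≠ (qstar q : ℚ) * (qstar q' : ℚ) := by
  intro h
  have habs : ∀ n : ℕ, |(qstar n : ℚ)| = n := by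
    intro n
    unfold qstar
    split_ifs <;> simp
  have h1 : a ^ 2 = ((q * q' : ℕ) : ℚ) := by
    have h2 : |a ^ 2| = ((q * q' : ℕ) : ℚ) := by
      rw [h, abs_mul, habs, habs]
      push_cast
      ring
    rwa [abs_of_nonneg (sq_nonneg a)] at h2
  have h3 : IsSquare ((q * q' : ℕ) : ℚ) := ⟨a, by rw [← h1, sq]⟩
  rw [Rat.isSquare_natCast_iff] at h3
  obtain ⟨b, hb⟩ := h3
  have h4 : q ∣ b := by
    have : q ∣ b * b := hb ▸ dvd_mul_right q q'
    rcases hq.dvd_mul.mp this with h | h <;> exact h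
  obtain ⟨c, rfl⟩ := h4
  have h5 : q' = q * (c * c) := by
    have h6 : q * q' = q * (q * (c * c)) := by rw [hb]; ring
    exact Nat.eq_of_mul_eq_mul_left hq.pos h6
  have h7 : q ∣ q' := ⟨_, h5⟩
  exact hne ((Nat.prime_dvd_prime_iff_eq hq hq').mp h7)

theorem fixed_of_adjoin (M : IntermediateField ℚ (AlgebraicClosure ℚ)) {x y : M}
    (h : y ∈ IntermediateField.adjoin ℚ {x}) (τ : AlgebraicClosure ℚ ≃ₐ[ℚ] AlgebraicClosure ℚ)
    (hx : τ (x : AlgebraicClosure ℚ) = x) : τ (y : AlgebraicClosure ℚ) = y := by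
  have h1 : IntermediateField.adjoin ℚ {x} ≤
      (IntermediateField.fixedField (Subgroup.zpowers τ)).comap M.val := by
    refine IntermediateField.adjoin_le_iff.mpr (Set.singleton_subset_iff.mpr ?_)
    change M.val x ∈ IntermediateField.fixedField (Subgroup.zpowers τ)
    rw [IntermediateField.mem_fixedField_iff]
    intro f hf
    have h2 : Subgroup.zpowers τ ≤
        MulAction.stabilizer (AlgebraicClosure ℚ ≃ₐ[ℚ] AlgebraicClosure ℚ)
          (x : AlgebraicClosure ℚ) := by
      rw [Subgroup.zpowers_le]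
      exact hx
    exact h2 hf
  have h2 := h1 h
  change M.val y ∈ IntermediateField.fixedField (Subgroup.zpowers τ) at h2
  rw [IntermediateField.mem_fixedField_iff] at h2
  exact h2 τ (Subgroup.mem_zpowers τ)

end Ramif

theorem finite_sq_mem (M : IntermediateField ℚ (AlgebraicClosure ℚ)) [FiniteDimensional ℚ M] :
    {q : ℕ | q.Prime ∧ ∃ r ∈ M, r ^ 2 = (qstar q : AlgebraicClosure ℚ)}.Finite := by
  have := Ramif.isAlgClosure_rat
  have hgal : IsGalois ℚ (AlgebraicClosure ℚ) := inferInstance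
  have hfin : Finite (IntermediateField ℚ M) := by
    apply Field.finite_intermediateField_of_exists_primitive_element
    exact Field.exists_primitive_element ℚ M
  have hr : ∀ q : {q : ℕ | q.Prime ∧ ∃ r ∈ M, r ^ 2 = (qstar q : AlgebraicClosure ℚ)},
      ∃ r : M, ((r : AlgebraicClosure ℚ)) ^ 2 = (qstar q : AlgebraicClosure ℚ) := by
    rintro ⟨q, hq, r, hrM, hr⟩
    exact ⟨⟨r, hrM⟩, hr⟩
  choose r hr using hr
  have hinj : Function.Injective
      (fun q : {q : ℕ | q.Prime ∧ ∃ r ∈ M, r ^ 2 = (qstar q : AlgebraicClosure ℚ)} =>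
        IntermediateField.adjoin ℚ {r q}) := by
    intro q q' hqq
    by_contra hne
    have hne' : (q : ℕ) ≠ q' := fun h => hne (Subtype.ext h)
    have hqq' : IntermediateField.adjoin ℚ {r q} = IntermediateField.adjoin ℚ {r q'} := hqq
    have h1 : r q ∈ IntermediateField.adjoin ℚ {r q'} := by
      rw [← hqq']
      exact IntermediateField.mem_adjoin_simple_self ℚ _
    have h2 : r q' ∈ IntermediateField.adjoin ℚ {r q} := by
      rw [hqq']
      exact IntermediateField.mem_adjoin_simple_self ℚ _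
    have hz : ∀ n : ℕ, n.Prime → (qstar n : AlgebraicClosure ℚ) ≠ 0 := by
      intro n hn
      have : qstar n ≠ 0 := by
        unfold qstar
        have := hn.ne_zero
        split_ifs <;> simpa using this
      exact_mod_cast this
    have hfix : ∀ τ : AlgebraicClosure ℚ ≃ₐ[ℚ] AlgebraicClosure ℚ,
        τ ((r q : AlgebraicClosure ℚ) * (r q' : AlgebraicClosure ℚ)) =
          (r q : AlgebraicClosure ℚ) * (r q' : AlgebraicClosure ℚ) := by
      intro τ
      have hsq : ∀ n, τ (r n : AlgebraicClosure ℚ) = r n ∨ τ (r n : AlgebraicClosure ℚ) = -r n := by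
        intro n
        apply sq_eq_sq_iff_eq_or_eq_neg.mp
        rw [← map_pow, hr]
        simp
      have hn0 : ∀ n, (r n : AlgebraicClosure ℚ) ≠ 0 := by
        intro n h0
        apply hz n n.2.1
        rw [← hr n, h0]
        simp
      rw [map_mul]
      rcases hsq q with h | h
      · rw [h, Ramif.fixed_of_adjoin M h2 τ h]
      · rcases hsq q' with h' | h'
        · exfalso
          have h3 := Ramif.fixed_of_adjoin M h1 τ h'
          rw [h] at h3
          exact hn0 q (self_eq_neg.mp h3.symm)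
        · rw [h, h']
          ring
    have h3 := (InfiniteGalois.mem_range_algebraMap_iff_fixed (k := ℚ) _).mpr hfix
    obtain ⟨a, ha⟩ := h3
    apply Ramif.not_isSquare q.2.1 q'.2.1 hne' a
    apply (algebraMap ℚ (AlgebraicClosure ℚ)).injective
    rw [map_pow, ha, mul_pow, hr, hr]
    simp
  have := Finite.of_injective _ hinj
  exact Set.toFinite _

/-- Quadratic reciprocity for `q*`. -/
theorem ls_qstar {p q : ℕ} (hp : p.Prime) (hq : q.Prime) (hp2 : p ≠ 2) (hq2 : q ≠ 2)
    (hpq : p ≠ q) : ls p (qstar q) = ls q p := by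
  have := Fact.mk hp
  have := Fact.mk hq
  have key : IsSquare ((qstar q : ℤ) : ZMod p) ↔ IsSquare ((p : ℤ) : ZMod q) := by
    have hq4 : q % 4 = 1 ∨ q % 4 = 3 := by
      have := hq.eq_two_or_odd
      omega
    have hp4 : p % 4 = 1 ∨ p % 4 = 3 := by
      have := hp.eq_two_or_odd
      omega
    rcases hq4 with h | h
    · have h1 : qstar q = (q : ℤ) := by simp [qstar, h]
      rw [h1]
      push_cast
      exact (ZMod.exists_sq_eq_prime_iff_of_mod_four_eq_one h hp2).symm
    · have h1 : qstar q = -(q : ℤ) := by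
        have : q % 4 ≠ 1 := by omega
        simp [qstar, this]
      rw [h1]
      rcases hp4 with h2 | h2
      · push_cast
        have h3 : IsSquare (-1 : ZMod p) := ZMod.exists_sq_eq_neg_one_iff.mpr (by omega)
        have h4 : IsSquare (-(q : ZMod p)) ↔ IsSquare (q : ZMod p) := by
          constructor
          · intro h5
            have := h3.mul h5
            simpa using this
          · intro h5
            have := h3.mul h5
            simpa using this
        rw [h4]
        exact ZMod.exists_sq_eq_prime_iff_of_mod_four_eq_one h2 hq2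
      · have h3 := ZMod.exists_sq_eq_prime_iff_of_mod_four_eq_three h2 h hpq
        have hq0 : ((q : ℤ) : ZMod p) ≠ 0 := by
          rw [Int.cast_natCast, Ne, ZMod.natCast_eq_zero_iff]
          intro hd
          exact hpq ((Nat.prime_dvd_prime_iff_eq hp hq).mp hd)
        have hq0' : ((-(q : ℤ) : ℤ) : ZMod p) ≠ 0 := by
          rw [Int.cast_neg, neg_ne_zero]
          exact hq0
        have h4 : IsSquare ((-(q : ℤ) : ℤ) : ZMod p) ↔ ¬ IsSquare ((q : ℤ) : ZMod p) := by
          rw [← legendreSym.eq_one_iff p hq0', ← legendreSym.eq_neg_one_iff p,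
            legendreSym.at_neg hp2, ZMod.χ₄_nat_three_mod_four h2]
          constructor <;> intro h5 <;> linarith
        rw [h4, Int.cast_natCast, Int.cast_natCast, h3, not_not]
  unfold ls
  by_cases h : IsSquare ((qstar q : ℤ) : ZMod p)
  · rw [if_pos h, if_pos (key.mp h)]
  · rw [if_neg h, if_neg (fun h' => h (key.mpr h'))]

end Pool.TP
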