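import Pool.Agent.TP.Roots
import Pool.Agent.TP.Ramif

/-!
# One step of the choice of primes

Given finitely many primes chosen so far, an automorphism `σ` on a finite Galois extension and
prescribed signs, there is a further prime with prescribed splitting and prescribed Legendre
symbols at the earlier primes.
-/

open Polynomial
open scoped Pointwise

namespace Pool.TP.Step

/-- The algebraic closure of the rationals. -/
abbrev Qb : Type := AlgebraicClosure ℚ

instance isAlgebraic : Algebra.IsAlgebraic ℚ Qb := AlgebraicClosure.isAlgebraic ℚ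

instance isIntegral : Algebra.IsIntegral ℚ Qb := Algebra.IsAlgebraic.isIntegral

instance isAlgClosure : IsAlgClosure ℚ Qb := ⟨inferInstance, inferInstance⟩

instance normal : Normal ℚ Qb := IsAlgClosure.normal ℚ Qb

instance isGalois : IsGalois ℚ Qb := ⟨⟩

/-- A square root of `qstar q`. -/
noncomputable def sr (q : ℕ) : Qb :=
  Classical.choose (IsAlgClosed.exists_pow_nat_eq (qstar q : Qb) (n := 2) (by norm_num))

theorem sr_sq (q : ℕ) : sr q ^ 2 = (qstar q : Qb) :=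
  Classical.choose_spec (IsAlgClosed.exists_pow_nat_eq (qstar q : Qb) (n := 2) (by norm_num))

theorem qstar_ne_zero {q : ℕ} (hq : q.Prime) : qstar q ≠ 0 := by
  have : (q : ℤ) ≠ 0 := by exact_mod_cast hq.ne_zero
  unfold qstar
  split_ifs
  · exact this
  · exact neg_ne_zero.2 this

theorem sr_ne_zero {q : ℕ} (hq : q.Prime) : sr q ≠ 0 := by
  intro h
  have h1 := sr_sq q
  rw [h] at h1
  have h2 : ((qstar q : ℤ) : Qb) = 0 := by rw [← h1]; norm_num
  exact qstar_ne_zero hq (by exact_mod_cast h2)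

theorem map_sr (τ : Qb ≃ₐ[ℚ] Qb) (q : ℕ) : ∃ ε : ℤˣ, τ (sr q) = ((ε : ℤ) : Qb) * sr q := by
  have h1 : (τ (sr q)) ^ 2 = (sr q) ^ 2 := by
    rw [← map_pow, sr_sq, map_intCast]
  rcases sq_eq_sq_iff_eq_or_eq_neg.1 h1 with h | h
  · exact ⟨1, by rw [h]; simp⟩
  · exact ⟨-1, by rw [h]; simp⟩

/-- The invariant of the construction. -/
def Inv (K : IntermediateField ℚ Qb) (D : ℤ) (B n : ℕ) (q : ℕ → ℕ) : Prop :=
  (∀ k < n, (q k).Prime ∧ q k ≠ 2 ∧ ¬ (q k : ℤ) ∣ 2 * D ∧ B < q k) ∧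
  (∀ j < n, ∀ k < n, q j = q k → j = k) ∧
  ∀ (τ₀ : Qb ≃ₐ[ℚ] Qb) (ε : ℕ → ℤˣ), ∃ τ : Qb ≃ₐ[ℚ] Qb, (∀ x ∈ K, τ x = τ₀ x) ∧
    ∀ k < n, τ (sr (q k)) = ((ε k : ℤ) : Qb) * sr (q k)

theorem inv_zero (K : IntermediateField ℚ Qb) (D : ℤ) (B : ℕ) (q : ℕ → ℕ) : Inv K D B 0 q :=
  ⟨fun _ hk => absurd hk (Nat.not_lt_zero _), fun _ hk => absurd hk (Nat.not_lt_zero _),
    fun τ₀ _ => ⟨τ₀, fun _ _ => rfl, fun _ hk => absurd hk (Nat.not_lt_zero _)⟩⟩

/-- The field generated by `K` and the square roots. -/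
noncomputable def fieldN (K : IntermediateField ℚ Qb) (n : ℕ) (q : ℕ → ℕ) :
    IntermediateField ℚ Qb :=
  K ⊔ IntermediateField.adjoin ℚ ((fun k => sr (q k)) '' Set.Iio n)

theorem finite_fieldN (K : IntermediateField ℚ Qb) [FiniteDimensional ℚ K] (n : ℕ) (q : ℕ → ℕ) :
    FiniteDimensional ℚ (fieldN K n q) := by
  have h0 : Finite ((fun k => sr (q k)) '' Set.Iio n) :=
    ((Set.finite_Iio n).image _).to_subtype
  have h1 : FiniteDimensional ℚ (IntermediateField.adjoin ℚ ((fun k => sr (q k)) '' Set.Iio n)) := by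
    apply IntermediateField.finiteDimensional_adjoin
    intro x _
    exact Algebra.IsIntegral.isIntegral x
  unfold fieldN
  exact IntermediateField.finiteDimensional_sup _ _

theorem inv_extend (K : IntermediateField ℚ Qb) (D : ℤ) (B n : ℕ) (q : ℕ → ℕ)
    (h : Inv K D B n q) (p : ℕ) (hp : p.Prime) (hp2 : p ≠ 2) (hpD : ¬ (p : ℤ) ∣ 2 * D)
    (hpB : B < p) (hnew : ∀ k < n, p ≠ q k) (hM : sr p ∉ fieldN K n q) :
    Inv K D B (n + 1) (Function.update q n p) := by
  have hupd : ∀ k < n, Function.update q n p k = q k := fun k hk =>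
    Function.update_of_ne hk.ne _ _
  have hupd' : Function.update q n p n = p := Function.update_self _ _ _
  refine ⟨?_, ?_, ?_⟩
  · intro k hk
    rcases Nat.lt_succ_iff_lt_or_eq.1 hk with hk | rfl
    · rw [hupd k hk]; exact h.1 k hk
    · rw [hupd']; exact ⟨hp, hp2, hpD, hpB⟩
  · intro j hj k hk hjk
    rcases Nat.lt_succ_iff_lt_or_eq.1 hj with hj | rfl <;>
      rcases Nat.lt_succ_iff_lt_or_eq.1 hk with hk | rfl
    · rw [hupd j hj, hupd k hk] at hjk
      exact h.2.1 j hj k hk hjk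
    · rw [hupd j hj, hupd'] at hjk
      exact absurd hjk.symm (hnew j hj)
    · rw [hupd k hk, hupd'] at hjk
      exact absurd hjk (hnew k hk)
    · rfl
  · intro τ₀ ε
    obtain ⟨τ, hτ1, hτ2⟩ := h.2.2 τ₀ ε
    obtain ⟨δ, hδ⟩ := map_sr τ p
    by_cases hδε : δ = ε n
    · refine ⟨τ, hτ1, fun k hk => ?_⟩
      rcases Nat.lt_succ_iff_lt_or_eq.1 hk with hk | rfl
      · rw [hupd k hk]; exact hτ2 k hk
      · rw [hupd', hδ, hδε]
    · have hgal : IsGalois ℚ Qb := inferInstance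
      have hρ : ∃ ρ ∈ (fieldN K n q).fixingSubgroup, ρ (sr p) ≠ sr p := by
        by_contra hcon
        push Not at hcon
        apply hM
        rw [← InfiniteGalois.fixedField_fixingSubgroup (fieldN K n q)]
        rw [IntermediateField.mem_fixedField_iff]
        exact hcon
      obtain ⟨ρ, hρ1, hρ2⟩ := hρ
      rw [IntermediateField.mem_fixingSubgroup_iff] at hρ1
      obtain ⟨δ', hδ'⟩ := map_sr ρ p
      have hδ1 : δ' = -1 := by
        rcases Int.units_eq_one_or δ' with h1 | h1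
        · exfalso
          apply hρ2
          rw [hδ', h1]
          simp
        · exact h1
      have hδ2 : -δ = ε n := by
        rcases Int.units_eq_one_or δ with h1 | h1 <;>
          rcases Int.units_eq_one_or (ε n) with h2 | h2 <;> rw [h1, h2] at hδε ⊢ <;> simp at hδε ⊢
      refine ⟨τ * ρ, fun x hx => ?_, fun k hk => ?_⟩
      · rw [AlgEquiv.mul_apply, hρ1 x (le_sup_left (a := K) hx), hτ1 x hx]
      · rcases Nat.lt_succ_iff_lt_or_eq.1 hk with hk | rfl
        · rw [hupd k hk, AlgEquiv.mul_apply, hρ1, hτ2 k hk]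
          apply le_sup_right (a := K)
          apply IntermediateField.subset_adjoin
          exact ⟨k, hk, rfl⟩
        · rw [hupd', AlgEquiv.mul_apply, hδ', hδ1, ← hδ2]
          simp [hδ]

theorem eval_sq {p : ℕ} (c : ℤ) (r : ZMod p) :
    ((X ^ 2 - C c : ℤ[X]).map (Int.castRingHom (ZMod p))).eval r = r ^ 2 - (c : ZMod p) := by
  rw [Polynomial.map_sub, Polynomial.map_pow, map_X, map_C, eval_sub, eval_pow, eval_X, eval_C]
  rfl

theorem card_sq {p : ℕ} (c : ℤ) : Nat.card {r : ZMod p //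
    ((X ^ 2 - C c : ℤ[X]).map (Int.castRingHom (ZMod p))).eval r = 0} ≠ 0 →
    IsSquare (c : ZMod p) := by
  intro h
  obtain ⟨⟨r, hr⟩⟩ := (Nat.card_ne_zero.1 h).1
  refine ⟨r, ?_⟩
  rw [eval_sq, sub_eq_zero] at hr
  rw [← hr, sq]

theorem sq_card {p : ℕ} (hp : p.Prime) (c : ℤ) (h : IsSquare (c : ZMod p)) :
    Nat.card {r : ZMod p //
    ((X ^ 2 - C c : ℤ[X]).map (Int.castRingHom (ZMod p))).eval r = 0} ≠ 0 := by
  have : NeZero p := ⟨hp.ne_zero⟩
  obtain ⟨r, hr⟩ := h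
  rw [Nat.card_ne_zero]
  refine ⟨⟨⟨r, ?_⟩⟩, inferInstance⟩
  rw [eval_sq, hr, sq, sub_self]

theorem step {ι : Type} [Fintype ι] (K : IntermediateField ℚ Qb) [FiniteDimensional ℚ K]
    (g : ι → ℤ[X]) (hg : ∀ i, (g i).Monic ∧ ((g i).map (Int.castRingHom ℚ)).Separable)
    (hroots : ∀ i (β : Qb), aeval β (g i) = 0 → β ∈ K) (D : ℤ) (hD : D ≠ 0) (B n : ℕ) (q : ℕ → ℕ)
    (hInv : Inv K D B n q) (τ₀ : Qb ≃ₐ[ℚ] Qb) (ε : ℕ → ℤˣ) :
    ∃ p : ℕ, Inv K D B (n + 1) (Function.update q n p) ∧ (∀ k < n, ls (q k) p = ε k) ∧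
      ∀ i, Nat.card {r : ZMod p // ((g i).map (Int.castRingHom (ZMod p))).eval r = 0} =
        Nat.card {β : Qb // aeval β (g i) = 0 ∧ τ₀ β = β} := by
  classical
  obtain ⟨τ, hτ1, hτ2⟩ := hInv.2.2 τ₀ ε
  let S : Finset ℤ[X] := (Finset.univ.image g) ∪
    (Finset.range n).image fun k => (X ^ 2 - C (qstar (q k)) : ℤ[X])
  have hS : ∀ h ∈ S, h.Monic ∧ (h.map (Int.castRingHom ℚ)).Separable := by
    intro h hh
    rcases Finset.mem_union.1 hh with hh | hh
    · obtain ⟨i, -, rfl⟩ := Finset.mem_image.1 hh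
      exact hg i
    · obtain ⟨k, hk, rfl⟩ := Finset.mem_image.1 hh
      rw [Finset.mem_range] at hk
      refine ⟨monic_X_pow_sub_C _ two_ne_zero, ?_⟩
      simp only [Polynomial.map_sub, Polynomial.map_pow, map_X, map_C]
      apply separable_X_pow_sub_C
      · norm_num
      · have := qstar_ne_zero (hInv.1 k hk).1
        rw [eq_intCast]
        exact_mod_cast this
  have hfd : FiniteDimensional ℚ (fieldN K n q) := finite_fieldN K n q
  let Bad : Set ℕ := Set.Iic (max B 2) ∪ {p : ℕ | (p : ℤ) ∣ 2 * D} ∪ (q '' Set.Iio n) ∪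
    {p : ℕ | p.Prime ∧ ∃ r ∈ fieldN K n q, r ^ 2 = (qstar p : AlgebraicClosure ℚ)}
  have hBad : Bad.Finite := by
    refine (((Set.finite_Iic _).union ?_).union ((Set.finite_Iio n).image _)).union
      (finite_sq_mem (fieldN K n q))
    have h2D : (2 * D).natAbs ≠ 0 := Int.natAbs_ne_zero.2 (mul_ne_zero two_ne_zero hD)
    refine ((2 * D).natAbs.divisors.finite_toSet).subset fun p hp => ?_
    rw [Finset.mem_coe, Nat.mem_divisors]
    exact ⟨Int.natCast_dvd.1 hp, h2D⟩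
  obtain ⟨p, ⟨hp, hcard⟩, hpB⟩ := ((frobenius_roots S hS τ).sdiff hBad).nonempty
  simp only [Bad, Set.mem_union, not_or, Set.mem_Iic, not_le, Set.mem_ofPred_eq, Set.mem_image,
    not_exists, not_and] at hpB
  obtain ⟨⟨⟨hp1, hp2⟩, hp3⟩, hp4⟩ := hpB
  have hpB' : B < p := (le_max_left _ _).trans_lt hp1
  have hp2' : p ≠ 2 := ((le_max_right _ _).trans_lt hp1).ne'
  refine ⟨p, ?_, ?_, ?_⟩
  · refine inv_extend K D B n q hInv p hp hp2' hp2 hpB' (fun k hk h => hp3 k hk h.symm) ?_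
    intro hM
    exact hp4 hp (sr p) hM (sr_sq p)
  · intro k hk
    have hqk := hInv.1 k hk
    have hne : p ≠ q k := fun h => hp3 k hk h.symm
    rw [← ls_qstar hp hqk.1 hp2' hqk.2.1 hne]
    have h1 := hcard (X ^ 2 - C (qstar (q k))) (Finset.mem_union_right _
      (Finset.mem_image_of_mem _ (Finset.mem_range.2 hk)))
    have haev : ∀ α : Qb, aeval α (X ^ 2 - C (qstar (q k)) : ℤ[X]) = 0 ↔
        α ^ 2 = sr (q k) ^ 2 := by
      intro α
      simp only [map_sub, map_pow, aeval_X, aeval_C]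
      rw [sub_eq_zero, sr_sq, eq_intCast]
    have h2 := hτ2 k hk
    rcases Int.units_eq_one_or (ε k) with h3 | h3
    · rw [h3] at h2 ⊢
      unfold ls
      rw [if_pos]
      apply card_sq
      rw [h1, Nat.card_ne_zero]
      have hfin : Finite {α : Qb // aeval α (X ^ 2 - C (qstar (q k)) : ℤ[X]) = 0 ∧ τ α = α} := by
        have : ({α : Qb | aeval α (X ^ 2 - C (qstar (q k)) : ℤ[X]) = 0 ∧ τ α = α}).Finite := by
          refine (Set.toFinite {sr (q k), -sr (q k)}).subset ?_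
          rintro α ⟨hα, -⟩
          exact sq_eq_sq_iff_eq_or_eq_neg.1 ((haev α).1 hα)
        exact this.to_subtype
      refine ⟨⟨⟨sr (q k), (haev _).2 rfl, ?_⟩⟩, hfin⟩
      rw [h2]
      simp
    · rw [h3] at h2 ⊢
      unfold ls
      rw [if_neg]
      intro hsq
      apply sq_card hp _ hsq
      rw [h1, Nat.card_eq_zero]
      left
      refine ⟨?_⟩
      rintro ⟨α, hα, hτα⟩
      have h4 : τ (sr (q k)) = -sr (q k) := by rw [h2]; simp
      have hne0 := sr_ne_zero hqk.1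
      rcases sq_eq_sq_iff_eq_or_eq_neg.1 ((haev α).1 hα) with h5 | h5
      · rw [h5, h4] at hτα
        exact hne0 (self_eq_neg.1 hτα.symm)
      · rw [h5, map_neg, h4, neg_neg] at hτα
        exact hne0 (self_eq_neg.1 hτα)
  · intro i
    rw [hcard (g i) (Finset.mem_union_left _ (Finset.mem_image_of_mem _ (Finset.mem_univ i)))]
    refine Nat.card_congr (Equiv.subtypeEquivRight fun β => ?_)
    refine and_congr_right fun hβ => ?_
    rw [hτ1 β (hroots i β hβ)]

end Pool.TP.Step
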