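import Pool.Agent.TP.Defs

/-!
Counting primes of degree one in subfields of a Galois number field.
-/

open NumberField
open scoped Pointwise

namespace Pool.TP

namespace DegOne

section General

variable (M : Type) [Field M] [NumberField M] [IsGalois ℚ M]

theorem galZ : IsGaloisGroup (M ≃ₐ[ℚ] M) ℤ (𝓞 M) :=
  IsGaloisGroup.of_isFractionRing (M ≃ₐ[ℚ] M) ℤ (𝓞 M) ℚ M

theorem galE (A : Subgroup (M ≃ₐ[ℚ] M)) :
    IsGaloisGroup A (𝓞 (IntermediateField.fixedField A)) (𝓞 M) := by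
  have h : IsGaloisGroup A (IntermediateField.fixedField A) M :=
    IsGaloisGroup.of_fixedPoints_eq (M ≃ₐ[ℚ] M) ℚ M A (IntermediateField.fixedField A) rfl
  exact IsGaloisGroup.of_isFractionRing A (𝓞 (IntermediateField.fixedField A)) (𝓞 M)
    (IntermediateField.fixedField A) M

end General

/-- The residue field of a maximal ideal with finite quotient is perfect. -/
theorem perfect {R : Type*} [CommRing R] (p : Ideal R) [p.IsMaximal] [Finite (R ⧸ p)] :
    PerfectField p.ResidueField := by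
  have h : Function.Surjective (algebraMap (R ⧸ p) p.ResidueField) :=
    (Ideal.bijective_algebraMap_quotient_residueField p).2
  have : Finite p.ResidueField := Finite.of_surjective _ h
  infer_instance

theorem finite_quot (E : Type) [Field E] [NumberField E] (q : Ideal (𝓞 E)) (hq : q ≠ ⊥) :
    Finite (𝓞 E ⧸ q) :=
  Ideal.finiteQuotientOfFreeOfNeBot q hq

theorem liesOver_of_mem {R : Type*} [CommRing R] [IsDomain R] [Algebra ℤ R] {p : ℕ}
    (hp : p.Prime) (P : Ideal R) (hP : P.IsPrime) (h : (p : R) ∈ P) :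
    P.LiesOver (Ideal.span {(p : ℤ)}) := by
  refine ⟨?_⟩
  have hmax : (Ideal.span {(p : ℤ)}).IsMaximal :=
    PrincipalIdealRing.isMaximal_of_irreducible (Nat.prime_iff_prime_int.1 hp).irreducible
  refine hmax.eq_of_le (Ideal.IsPrime.ne_top (Ideal.comap_isPrime _ _)) ?_
  rw [Ideal.span_singleton_le_iff_mem]
  simpa [Ideal.under, Ideal.mem_comap] using h

section Main

variable (M : Type) [Field M] [NumberField M] [IsGalois ℚ M] {p : ℕ} (hp : p.Prime)

include hp

theorem card_stab_Z (P : Ideal (𝓞 M)) (hP : P.IsPrime) (hpP : (p : 𝓞 M) ∈ P)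
    (hin : P.inertia (M ≃ₐ[ℚ] M) = ⊥) :
    Nat.card (MulAction.stabilizer (M ≃ₐ[ℚ] M) P) = P.inertiaDeg ℤ := by
  have := galZ M
  have := liesOver_of_mem hp P hP hpP
  have hmax : (Ideal.span {(p : ℤ)}).IsMaximal :=
    PrincipalIdealRing.isMaximal_of_irreducible (Nat.prime_iff_prime_int.1 hp).irreducible
  have hfin : Finite (ℤ ⧸ Ideal.span {(p : ℤ)}) := by
    have : NeZero p := ⟨hp.ne_zero⟩
    exact Finite.of_equiv _ (Int.quotientSpanNatEquivZMod p).symm.toEquiv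
  have := perfect (Ideal.span {(p : ℤ)})
  have h := Ideal.card_stabilizer_eq_card_inertia_mul_finrank (G := M ≃ₐ[ℚ] M)
    (Ideal.span {(p : ℤ)}) P
  rw [hin] at h
  simpa using h

theorem card_stab_E (A : Subgroup (M ≃ₐ[ℚ] M)) (P : Ideal (𝓞 M)) (hP : P.IsPrime)
    (hpP : (p : 𝓞 M) ∈ P) (hin : P.inertia (M ≃ₐ[ℚ] M) = ⊥) :
    Nat.card (MulAction.stabilizer A P) =
      P.inertiaDeg (𝓞 (IntermediateField.fixedField A)) := by
  have := galE M A
  let E := IntermediateField.fixedField A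
  let q : Ideal (𝓞 E) := P.under (𝓞 E)
  have hq0 : q ≠ ⊥ := by
    intro h0
    have h1 : (p : 𝓞 E) ∈ q := by
      change algebraMap (𝓞 E) (𝓞 M) (p : 𝓞 E) ∈ P
      simpa using hpP
    rw [h0, Ideal.mem_bot] at h1
    exact hp.ne_zero (by exact_mod_cast h1)
  have hqp : q.IsPrime := Ideal.comap_isPrime _ _
  have hqm : q.IsMaximal := hqp.isMaximal hq0
  have := finite_quot E q hq0
  have := perfect q
  have hlo : P.LiesOver q := ⟨rfl⟩
  have h := Ideal.card_stabilizer_eq_card_inertia_mul_finrank (G := A) q P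
  have hin' : P.inertia A = ⊥ := by
    rw [eq_bot_iff]
    intro a ha
    have h2 : (a : M ≃ₐ[ℚ] M) ∈ P.inertia (M ≃ₐ[ℚ] M) := fun x => ha x
    rw [hin, Subgroup.mem_bot] at h2
    rw [Subgroup.mem_bot]
    exact Subtype.ext h2
  rw [hin', Subgroup.card_bot, one_mul] at h
  exact h

omit [IsGalois ℚ M] hp in
theorem card_stab_A (A : Subgroup (M ≃ₐ[ℚ] M)) (P : Ideal (𝓞 M)) :
    Nat.card (MulAction.stabilizer A P) = Nat.card (MulAction.stabilizer (M ≃ₐ[ℚ] M) P) ↔
      MulAction.stabilizer (M ≃ₐ[ℚ] M) P ≤ A := by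
  have e : MulAction.stabilizer A P ≃
      ((MulAction.stabilizer (M ≃ₐ[ℚ] M) P).subgroupOf A) :=
    Equiv.subtypeEquivRight fun a => Iff.rfl
  rw [Nat.card_congr e]
  constructor
  · intro h
    let S := MulAction.stabilizer (M ≃ₐ[ℚ] M) P
    have h1 : Nat.card ((S.subgroupOf A).map A.subtype) = Nat.card (S.subgroupOf A) :=
      Nat.card_congr ((S.subgroupOf A).equivMapOfInjective A.subtype
        A.subtype_injective).symm.toEquiv
    rw [Subgroup.subgroupOf_map_subtype] at h1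
    have h2 : S ⊓ A = S := Subgroup.eq_of_le_of_card_ge inf_le_left (by rw [h1]; exact h.ge)
    exact inf_eq_left.1 h2
  · intro h
    exact Nat.card_congr (Subgroup.subgroupOfEquivOfLe h).toEquiv

theorem card_stab_conj (P P₀ : Ideal (𝓞 M)) (hP : P.IsPrime) (hpP : (p : 𝓞 M) ∈ P)
    (hP₀ : P₀.IsPrime) (hpP₀ : (p : 𝓞 M) ∈ P₀) :
    Nat.card (MulAction.stabilizer (M ≃ₐ[ℚ] M) P) =
      Nat.card (MulAction.stabilizer (M ≃ₐ[ℚ] M) P₀) := by
  have := galZ M
  have := liesOver_of_mem hp P hP hpP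
  have := liesOver_of_mem hp P₀ hP₀ hpP₀
  obtain ⟨σ, hσ⟩ := Ideal.exists_smul_eq_of_isGaloisGroup (Ideal.span {(p : ℤ)}) P₀ P
    (M ≃ₐ[ℚ] M)
  rw [← hσ]
  exact (Nat.card_congr (MulAction.stabilizerEquivStabilizer rfl).toEquiv).symm

end Main

end DegOne

open DegOne in
theorem card_degree_one (M : Type) [Field M] [NumberField M] [IsGalois ℚ M] {p : ℕ}
    (hp : p.Prime) (hur : ∀ P : Ideal (𝓞 M), P.IsPrime → (p : 𝓞 M) ∈ P →
      P.inertia (M ≃ₐ[ℚ] M) = ⊥) (A : Subgroup (M ≃ₐ[ℚ] M)) (P₀ : Ideal (𝓞 M))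
    (hP₀ : P₀.IsPrime) (hpP₀ : (p : 𝓞 M) ∈ P₀) :
    Nat.card A * idc (IntermediateField.fixedField A) p =
      Nat.card (MulAction.stabilizer (M ≃ₐ[ℚ] M) P₀) *
        Nat.card {P : Ideal (𝓞 M) // P.IsPrime ∧ (p : 𝓞 M) ∈ P ∧
          MulAction.stabilizer (M ≃ₐ[ℚ] M) P ≤ A} := by
  classical
  have hG := galZ M
  let E := IntermediateField.fixedField A
  have hGA := galE M A
  let D := Nat.card (MulAction.stabilizer (M ≃ₐ[ℚ] M) P₀)
  have hD : ∀ P : Ideal (𝓞 M), P.IsPrime → (p : 𝓞 M) ∈ P →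
      Nat.card (MulAction.stabilizer (M ≃ₐ[ℚ] M) P) = D := fun P hP hpP =>
    card_stab_conj M hp P P₀ hP hpP hP₀ hpP₀
  -- the two sets
  let X := {P : Ideal (𝓞 M) // P.IsPrime ∧ (p : 𝓞 M) ∈ P ∧
          MulAction.stabilizer (M ≃ₐ[ℚ] M) P ≤ A}
  let Y := {I : Ideal (𝓞 E) // Ideal.absNorm I = p}
  have key : ∀ P : Ideal (𝓞 M), P.IsPrime → (p : 𝓞 M) ∈ P →
      (MulAction.stabilizer (M ≃ₐ[ℚ] M) P ≤ A ↔ Ideal.absNorm (P.under (𝓞 E)) = p) := by
    intro P hP hpP
    have hlo := liesOver_of_mem hp P hP hpP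
    let q : Ideal (𝓞 E) := P.under (𝓞 E)
    have hlq : P.LiesOver q := ⟨rfl⟩
    have hqp : q.IsPrime := Ideal.comap_isPrime _ _
    have hpq : (p : 𝓞 E) ∈ q := by
      change algebraMap (𝓞 E) (𝓞 M) (p : 𝓞 E) ∈ P
      simpa using hpP
    have hlo' := liesOver_of_mem hp q hqp hpq
    have hq0 : q ≠ ⊥ := by
      intro h0
      rw [h0, Ideal.mem_bot] at hpq
      exact hp.ne_zero (by exact_mod_cast hpq)
    have hqm : q.IsMaximal := hqp.isMaximal hq0
    have hmax : (Ideal.span {(p : ℤ)}).IsMaximal :=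
      PrincipalIdealRing.isMaximal_of_irreducible (Nat.prime_iff_prime_int.1 hp).irreducible
    have h1 := card_stab_Z M hp P hP hpP (hur P hP hpP)
    have h2 := card_stab_E M hp A P hP hpP (hur P hP hpP)
    have h3 : P.inertiaDeg ℤ = q.inertiaDeg ℤ * P.inertiaDeg (𝓞 E) := Ideal.inertiaDeg_tower q P
    have h4 : Ideal.absNorm q = p ^ q.inertiaDeg ℤ := by
      rw [Ideal.absNorm_eq_pow_inertiaDeg' q hp, Ideal.inertiaDeg'_eq_inertiaDeg]
    have h5 : 0 < P.inertiaDeg (𝓞 E) := Ideal.inertiaDeg_pos P (𝓞 E)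
    rw [← card_stab_A M A P, h1, h2, h3]
    change _ ↔ Ideal.absNorm q = p
    rw [h4]
    constructor
    · intro h
      have h6 : q.inertiaDeg ℤ = 1 := by
        have : 1 * P.inertiaDeg (𝓞 E) = q.inertiaDeg ℤ * P.inertiaDeg (𝓞 E) := by
          rw [one_mul]; exact h
        exact (Nat.eq_of_mul_eq_mul_right h5 this).symm
      rw [h6, pow_one]
    · intro h
      have h6 : q.inertiaDeg ℤ = 1 := by
        have : p ^ q.inertiaDeg ℤ = p ^ 1 := by rw [pow_one]; exact h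
        exact Nat.pow_right_injective hp.two_le this
      rw [h6, one_mul]
  have hY : ∀ q : Y, q.1.IsPrime ∧ (p : 𝓞 E) ∈ q.1 := by
    rintro ⟨q, hq⟩
    refine ⟨Ideal.isPrime_of_irreducible_absNorm (by rw [hq]; exact hp), ?_⟩
    have := Ideal.absNorm_mem q
    rwa [hq] at this
  have hmem : ∀ q : Ideal (𝓞 E), Ideal.absNorm q = p → ∀ P : Ideal (𝓞 M),
      P ∈ q.primesOver (𝓞 M) → (p : 𝓞 M) ∈ P := by
    intro q hq P hP
    have h1 := (hY ⟨q, hq⟩).2
    have h2 := hP.2.over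
    change (p : 𝓞 E) ∈ q at h1
    rw [h2] at h1
    change algebraMap (𝓞 E) (𝓞 M) (p : 𝓞 E) ∈ P at h1
    simpa using h1
  let e : (Σ q : Y, (q.1.primesOver (𝓞 M))) ≃ X :=
    { toFun := fun z => ⟨z.2.1, z.2.2.1, hmem z.1.1 z.1.2 z.2.1 z.2.2,
        (key z.2.1 z.2.2.1 (hmem z.1.1 z.1.2 z.2.1 z.2.2)).2 (by
          have := z.2.2.2.over
          rw [← this]
          exact z.1.2)⟩
      invFun := fun P => ⟨⟨P.1.under (𝓞 E), (key P.1 P.2.1 P.2.2.1).1 P.2.2.2⟩,
        ⟨P.1, P.2.1, ⟨rfl⟩⟩⟩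
      left_inv := by
        rintro ⟨⟨q, hq⟩, ⟨P, hP, hPq⟩⟩
        have h1 := hPq.over
        subst h1
        rfl
      right_inv := fun P => rfl }
  have hYfin : Finite Y := Ideal.finite_setOfPred_absNorm_eq p
  have hfib : ∀ q : Y, D * Nat.card (q.1.primesOver (𝓞 M)) = Nat.card A := by
    rintro ⟨q, hq⟩
    have hqp : q.IsPrime := (hY ⟨q, hq⟩).1
    have hpq : (p : 𝓞 E) ∈ q := (hY ⟨q, hq⟩).2
    have hq0 : q ≠ ⊥ := by
      intro h0
      rw [h0, Ideal.mem_bot] at hpq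
      exact hp.ne_zero (by exact_mod_cast hpq)
    have hqm : q.IsMaximal := hqp.isMaximal hq0
    have := finite_quot E q hq0
    have := perfect q
    obtain ⟨P, hPm, hPc⟩ := Ideal.exists_ideal_over_maximal_of_isIntegral (S := 𝓞 M) q (by
      simp)
    have hlo : P.LiesOver q := ⟨hPc.symm⟩
    have hP : P.IsPrime := hPm.isPrime
    have hpP : (p : 𝓞 M) ∈ P := hmem q hq P ⟨hP, hlo⟩
    have h := Ideal.ncard_primesOver_mul_card_inertia_mul_finrank (G := A) q P
    have h2 := card_stab_E M hp A P hP hpP (hur P hP hpP)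
    have h3 := Ideal.card_stabilizer_eq_card_inertia_mul_finrank (G := A) q P
    have h4 : Nat.card (MulAction.stabilizer A P) = D := by
      rw [← hD P hP hpP]
      refine (card_stab_A M A P).2 ((key P hP hpP).2 ?_)
      rw [← hlo.over]
      exact hq
    rw [mul_assoc, ← h3] at h
    rw [← h, mul_comm]
    congr 1
    exact h4.symm
  change Nat.card A * Nat.card Y = D * Nat.card X
  have := Fintype.ofFinite Y
  have hA : 0 < Nat.card A := Nat.card_pos
  have hff : ∀ q : Y, Finite (q.1.primesOver (𝓞 M)) := by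
    intro q
    refine Nat.finite_of_card_ne_zero ?_
    intro h0
    have := hfib q
    rw [h0, mul_zero] at this
    omega
  rw [← Nat.card_congr e, Nat.card_sigma, Finset.mul_sum, Finset.sum_congr rfl (fun q _ => hfib q)]
  rw [Finset.sum_const, Finset.card_univ, ← Nat.card_eq_fintype_card, smul_eq_mul, mul_comm]

end Pool.TP
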