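import Pool.Agent.TP.PrimeSum
import Pool.Agent.TP.DegOne
import Pool.Agent.TP.Ramif

/-!
# Frobenius density theorem (existence part)

For a finite Galois extension `M / ℚ` and `τ` in its Galois group there are infinitely many
primes `p`, unramified in `M`, with a prime above `p` whose decomposition group is generated
by `τ`.
-/

open ArithmeticFunction NumberField
open scoped Pointwise

namespace Pool.TP.Frobenius

theorem sum_moebius_filter (n j : ℕ) (hn : n ≠ 0) (hj : j ∣ n) :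
    ∑ x ∈ n.divisorsAntidiagonal with j ∣ x.2, moebius x.1 = if j = n then 1 else 0 := by
  obtain ⟨l, rfl⟩ := hj
  have hj0 : j ≠ 0 := fun h => hn (by simp [h])
  have hl0 : l ≠ 0 := fun h => hn (by simp [h])
  have h1 : ∑ x ∈ (j * l).divisorsAntidiagonal with j ∣ x.2, moebius x.1 =
      ∑ k ∈ l.divisors, moebius k := by
    refine Finset.sum_nbij' (fun x => x.1) (fun k => (k, j * (l / k))) ?_ ?_ ?_ ?_ ?_
    · rintro ⟨a, b⟩ h
      simp only [Finset.mem_filter, Nat.mem_divisorsAntidiagonal, Nat.mem_divisors] at h ⊢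
      obtain ⟨⟨h1, -⟩, c, rfl⟩ := h
      refine ⟨⟨c, ?_⟩, hl0⟩
      have : j * (a * c) = j * l := by rw [← h1]; ring
      exact (Nat.eq_of_mul_eq_mul_left (Nat.pos_of_ne_zero hj0) this).symm
    · intro k hk
      simp only [Finset.mem_filter, Nat.mem_divisorsAntidiagonal, Nat.mem_divisors] at hk ⊢
      refine ⟨⟨?_, hn⟩, Dvd.intro _ rfl⟩
      obtain ⟨⟨c, rfl⟩, -⟩ := hk
      have hk0 : k ≠ 0 := fun h => hl0 (by simp [h])
      rw [Nat.mul_div_cancel_left _ (Nat.pos_of_ne_zero hk0)]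
      ring
    · rintro ⟨a, b⟩ h
      simp only [Finset.mem_filter, Nat.mem_divisorsAntidiagonal] at h ⊢
      obtain ⟨⟨h1, -⟩, c, rfl⟩ := h
      have h2 : a * c = l := by
        have : j * (a * c) = j * l := by rw [← h1]; ring
        exact Nat.eq_of_mul_eq_mul_left (Nat.pos_of_ne_zero hj0) this
      have ha0 : a ≠ 0 := fun h => hl0 (by simp [← h2, h])
      rw [← h2, Nat.mul_div_cancel_left _ (Nat.pos_of_ne_zero ha0)]
    · intro k hk
      rfl
    · intro x hx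
      rfl
  rw [h1]
  have h2 := congrArg (fun f : ArithmeticFunction ℤ => f l) moebius_mul_coe_zeta
  simp only [coe_mul_zeta_apply] at h2
  rw [h2, one_apply]
  by_cases hl : l = 1
  · subst hl; simp
  · rw [if_neg hl, if_neg]
    intro h
    apply hl
    have : j * l = j * 1 := by omega
    exact Nat.eq_of_mul_eq_mul_left (Nat.pos_of_ne_zero hj0) this

theorem sum_moebius_mul (n : ℕ) (hn : 0 < n) :
    ∑ x ∈ n.divisorsAntidiagonal, moebius x.1 * (x.2 : ℤ) = (n.totient : ℤ) := by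
  have h := (sum_eq_iff_sum_mul_moebius_eq (R := ℤ) (f := fun n => (n.totient : ℤ))
    (g := fun n => (n : ℤ))).1 (fun m _ => by
      rw [← Nat.cast_sum, Nat.sum_totient])
  exact h n hn

theorem mem_zpowers_pow {G : Type*} [Group G] [Finite G] (τ δ : G) (hδ : δ ∈ Subgroup.zpowers τ)
    (k m : ℕ) (hkm : k * m = orderOf τ) : δ ∈ Subgroup.zpowers (τ ^ k) ↔ δ ^ m = 1 := by
  have h0 : 0 < orderOf τ := orderOf_pos τ
  have hm : m ≠ 0 := by rintro rfl; simp at hkm; omega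
  obtain ⟨i, rfl⟩ := Subgroup.mem_zpowers_iff.1 hδ
  constructor
  · intro h
    obtain ⟨l, hl⟩ := Subgroup.mem_zpowers_iff.1 h
    rw [← hl, ← zpow_natCast, ← zpow_natCast, ← zpow_mul, ← zpow_mul]
    have : ((k : ℤ) * (l * m)) = (orderOf τ : ℤ) * l := by rw [← hkm]; push_cast; ring
    rw [this, zpow_mul, zpow_natCast, pow_orderOf_eq_one, one_zpow]
  · intro h
    rw [← zpow_natCast, ← zpow_mul, ← orderOf_dvd_iff_zpow_eq_one, ← hkm] at h
    push_cast at h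
    have : (k : ℤ) ∣ i := by
      have hm' : (m : ℤ) ≠ 0 := by exact_mod_cast hm
      exact Int.dvd_of_mul_dvd_mul_right hm' (by simpa using h)
    obtain ⟨l, rfl⟩ := this
    exact Subgroup.mem_zpowers_iff.2 ⟨l, by rw [← zpow_natCast, ← zpow_mul]⟩

theorem le_zpowers_pow {G : Type*} [Group G] [Finite G] (τ : G) (D : Subgroup G)
    (hD : D ≤ Subgroup.zpowers τ) (k m : ℕ) (hkm : k * m = orderOf τ) :
    D ≤ Subgroup.zpowers (τ ^ k) ↔ Nat.card D ∣ m := by
  have : IsCyclic D := by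
    have h1 : IsCyclic (Subgroup.zpowers τ) := inferInstance
    exact isCyclic_of_injective (Subgroup.inclusion hD) (Subgroup.inclusion_injective hD)
  obtain ⟨δ', hδ⟩ := IsCyclic.exists_generator (α := D)
  obtain ⟨δ, hδD, hδ'⟩ : ∃ δ : G, ∃ h : δ ∈ D, (⟨δ, h⟩ : D) = δ' := ⟨δ', δ'.2, rfl⟩
  have hD' : D = Subgroup.zpowers δ := by
    apply le_antisymm
    · intro x hx
      obtain ⟨i, hi⟩ := Subgroup.mem_zpowers_iff.1 (hδ ⟨x, hx⟩)
      rw [← hδ'] at hi
      exact Subgroup.mem_zpowers_iff.2 ⟨i, congrArg (fun y : D => (y : G)) hi⟩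
    · rw [Subgroup.zpowers_le]; exact hδD
  have hcard : Nat.card D = orderOf δ := by
    rw [hD', Nat.card_zpowers]
  rw [hcard, orderOf_dvd_iff_pow_eq_one, ← mem_zpowers_pow τ δ (hD hδD) k m hkm, hD']
  exact Subgroup.zpowers_le

theorem finite_primes (M : Type) [Field M] [NumberField M] {p : ℕ} (hp : p.Prime) :
    Finite {P : Ideal (𝓞 M) // P.IsPrime ∧ (p : 𝓞 M) ∈ P} := by
  have hp0 : (Ideal.span {(p : 𝓞 M)} : Ideal (𝓞 M)) ≠ ⊥ := by
    rw [Ne, Ideal.span_singleton_eq_bot]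
    exact_mod_cast hp.ne_zero
  have h := UniqueFactorizationMonoid.fintypeSubtypeDvd (Ideal.span {(p : 𝓞 M)}) hp0
  refine Finite.of_injective
    (fun P : {P : Ideal (𝓞 M) // P.IsPrime ∧ (p : 𝓞 M) ∈ P} =>
      (⟨P.1, by
        rw [Ideal.dvd_span_singleton]
        exact P.2.2⟩ : {P // P ∣ Ideal.span {(p : 𝓞 M)}})) ?_
  intro P Q hPQ
  exact Subtype.ext (congrArg (fun x => x.1) hPQ)

theorem exists_over (M : Type) [Field M] [NumberField M] {p : ℕ} (hp : p.Prime) :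
    ∃ P : Ideal (𝓞 M), P.IsPrime ∧ (p : 𝓞 M) ∈ P := by
  have h : (Ideal.span {(p : ℤ)}).IsPrime :=
    (Ideal.span_singleton_prime (by exact_mod_cast hp.ne_zero)).2 (Nat.prime_iff_prime_int.1 hp)
  obtain ⟨Q, hQ1, hQ2⟩ := Ideal.nonempty_primesOver (S := 𝓞 M) (Ideal.span {(p : ℤ)})
  refine ⟨Q, hQ1, ?_⟩
  have h1 : (p : ℤ) ∈ Q.under ℤ := by
    rw [← hQ2.over]
    exact Ideal.mem_span_singleton_self _
  rw [Ideal.under_def, Ideal.mem_comap] at h1
  simpa using h1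

theorem combo_zero (M : Type) [Field M] [NumberField M] [IsGalois ℚ M] {p : ℕ}
    (hp : p.Prime) (hur : ∀ P : Ideal (𝓞 M), P.IsPrime → (p : 𝓞 M) ∈ P →
      P.inertia (M ≃ₐ[ℚ] M) = ⊥) (τ : M ≃ₐ[ℚ] M)
    (hτ : ∀ P : Ideal (𝓞 M), P.IsPrime → (p : 𝓞 M) ∈ P →
      MulAction.stabilizer (M ≃ₐ[ℚ] M) P ≠ Subgroup.zpowers τ) :
    ∑ x ∈ (orderOf τ).divisorsAntidiagonal, moebius x.1 * (x.2 : ℤ) *
      (idc (IntermediateField.fixedField (Subgroup.zpowers (τ ^ x.1))) p : ℤ) = 0 := by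
  classical
  have hfin := finite_primes M hp
  let _ : Fintype {P : Ideal (𝓞 M) // P.IsPrime ∧ (p : 𝓞 M) ∈ P} := Fintype.ofFinite _
  obtain ⟨P₀, hP₀, hpP₀⟩ := exists_over M hp
  have hn : orderOf τ ≠ 0 := (orderOf_pos τ).ne'
  have h1 : ∀ x ∈ (orderOf τ).divisorsAntidiagonal, (x.2 : ℤ) *
      (idc (IntermediateField.fixedField (Subgroup.zpowers (τ ^ x.1))) p : ℤ) =
      (Nat.card (MulAction.stabilizer (M ≃ₐ[ℚ] M) P₀) : ℤ) *
        ∑ P : {P : Ideal (𝓞 M) // P.IsPrime ∧ (p : 𝓞 M) ∈ P},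
          if MulAction.stabilizer (M ≃ₐ[ℚ] M) P.1 ≤ Subgroup.zpowers (τ ^ x.1) then 1 else 0 := by
    rintro ⟨k, m⟩ hx
    rw [Nat.mem_divisorsAntidiagonal] at hx
    simp only at hx ⊢
    have h2 := card_degree_one M hp hur (Subgroup.zpowers (τ ^ k)) P₀ hP₀ hpP₀
    have hk0 : k ≠ 0 := by
      rintro rfl
      rw [zero_mul] at hx
      exact hn hx.1.symm
    have h3 : Nat.card (Subgroup.zpowers (τ ^ k)) = m := by
      rw [Nat.card_zpowers, orderOf_pow' τ hk0, ← hx.1, Nat.gcd_eq_right (Dvd.intro _ rfl),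
        Nat.mul_div_cancel_left _ (Nat.pos_of_ne_zero hk0)]
    rw [h3] at h2
    have h4 : Nat.card {P : Ideal (𝓞 M) // P.IsPrime ∧ (p : 𝓞 M) ∈ P ∧
          MulAction.stabilizer (M ≃ₐ[ℚ] M) P ≤ Subgroup.zpowers (τ ^ k)} =
        ∑ P : {P : Ideal (𝓞 M) // P.IsPrime ∧ (p : 𝓞 M) ∈ P},
          if MulAction.stabilizer (M ≃ₐ[ℚ] M) P.1 ≤ Subgroup.zpowers (τ ^ k) then 1 else 0 := by
      rw [Finset.sum_boole, Nat.cast_id, ← Fintype.card_subtype, ← Nat.card_eq_fintype_card]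
      refine Nat.card_congr ⟨fun P => ⟨⟨P.1, P.2.1, P.2.2.1⟩, P.2.2.2⟩,
        fun P => ⟨P.1.1, P.1.2.1, P.1.2.2, P.2⟩, fun P => rfl, fun P => rfl⟩
    rw [h4] at h2
    exact_mod_cast h2
  have h5 : ∑ x ∈ (orderOf τ).divisorsAntidiagonal, moebius x.1 * (x.2 : ℤ) *
      (idc (IntermediateField.fixedField (Subgroup.zpowers (τ ^ x.1))) p : ℤ) =
      (Nat.card (MulAction.stabilizer (M ≃ₐ[ℚ] M) P₀) : ℤ) *
        ∑ P : {P : Ideal (𝓞 M) // P.IsPrime ∧ (p : 𝓞 M) ∈ P},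
          ∑ x ∈ (orderOf τ).divisorsAntidiagonal,
          if MulAction.stabilizer (M ≃ₐ[ℚ] M) P.1 ≤ Subgroup.zpowers (τ ^ x.1) then
            moebius x.1 else 0 := by
    rw [Finset.sum_comm, Finset.mul_sum]
    refine Finset.sum_congr rfl fun x hx => ?_
    rw [mul_assoc, h1 x hx, mul_left_comm, Finset.mul_sum]
    simp only [mul_ite, mul_one, mul_zero]
  rw [h5]
  refine mul_eq_zero_of_right _ (Finset.sum_eq_zero fun P _ => ?_)
  by_cases hle : MulAction.stabilizer (M ≃ₐ[ℚ] M) P.1 ≤ Subgroup.zpowers τ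
  · have h6 : ∀ x ∈ (orderOf τ).divisorsAntidiagonal,
        (if MulAction.stabilizer (M ≃ₐ[ℚ] M) P.1 ≤ Subgroup.zpowers (τ ^ x.1) then
            moebius x.1 else 0) =
        if Nat.card (MulAction.stabilizer (M ≃ₐ[ℚ] M) P.1) ∣ x.2 then moebius x.1 else 0 := by
      intro x hx
      rw [Nat.mem_divisorsAntidiagonal] at hx
      exact if_congr (le_zpowers_pow τ _ hle x.1 x.2 hx.1) rfl rfl
    rw [Finset.sum_congr rfl h6, ← Finset.sum_filter, sum_moebius_filter _ _ hn, if_neg]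
    · intro hcard
      apply hτ P.1 P.2.1 P.2.2
      apply Subgroup.eq_of_le_of_card_ge hle
      rw [Nat.card_zpowers, hcard]
    · rw [← Nat.card_zpowers]
      exact Subgroup.card_dvd_of_le hle
  · refine Finset.sum_eq_zero fun x hx => if_neg fun h => hle (h.trans ?_)
    rw [Subgroup.zpowers_le]
    exact Subgroup.pow_mem _ (Subgroup.mem_zpowers τ) _

theorem main (M : Type) [Field M] [NumberField M] [IsGalois ℚ M] (τ : M ≃ₐ[ℚ] M) :
    {p : ℕ | p.Prime ∧ ∃ P : Ideal (𝓞 M), P.IsPrime ∧ (p : 𝓞 M) ∈ P ∧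
      P.inertia (M ≃ₐ[ℚ] M) = ⊥ ∧
      MulAction.stabilizer (M ≃ₐ[ℚ] M) P = Subgroup.zpowers τ}.Infinite := by
  classical
  intro hfin
  have hfin2 := finite_ramified M
  let Bad : Finset ℕ := hfin.toFinset ∪ hfin2.toFinset
  let Dv := (orderOf τ).divisorsAntidiagonal
  let E : ℕ × ℕ → IntermediateField ℚ M := fun x =>
    IntermediateField.fixedField (Subgroup.zpowers (τ ^ x.1))
  let b : ℕ → ℝ := fun p => ∑ x ∈ Dv, ((moebius x.1 : ℤ) : ℝ) * (x.2 : ℝ) * (idc (E x) p : ℝ)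
  have hb : ∀ p : ℕ, p.Prime → p ∉ Bad → b p = 0 := by
    intro p hp hpB
    rw [Finset.mem_union, not_or, Set.Finite.mem_toFinset, Set.Finite.mem_toFinset] at hpB
    have hur : ∀ P : Ideal (𝓞 M), P.IsPrime → (p : 𝓞 M) ∈ P →
      P.inertia (M ≃ₐ[ℚ] M) = ⊥ := by
      intro P hP hpP
      by_contra h
      exact hpB.2 ⟨hp, P, hP, hpP, h⟩
    have h := combo_zero M hp hur τ (fun P hP hpP h => hpB.1 ⟨hp, P, hP, hpP, hur P hP hpP, h⟩)
    have h' := congrArg (fun z : ℤ => (z : ℝ)) h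
    simp only [Int.cast_sum, Int.cast_mul, Int.cast_natCast, Int.cast_zero] at h'
    exact h'
  have hC : ∀ x : ℕ × ℕ, ∃ C : ℝ, ∀ s : ℝ, 1 < s → s ≤ 2 →
      Summable (fun p : Nat.Primes => (idc (E x) p : ℝ) * (p : ℝ) ^ (-s)) ∧
      |(∑' p : Nat.Primes, (idc (E x) p : ℝ) * (p : ℝ) ^ (-s)) - Real.log (1 / (s - 1))| ≤ C :=
    fun x => prime_sum (E x)
  choose C hC using hC
  let B : ℝ := ∑ p ∈ Bad, |b p|
  let B' : ℝ := B + ∑ x ∈ Dv, |((moebius x.1 : ℤ) : ℝ) * (x.2 : ℝ)| * C x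
  have key : ∀ s : ℝ, 1 < s → s ≤ 2 → Real.log (1 / (s - 1)) * ((orderOf τ).totient : ℝ) ≤ B' := by
    intro s hs hs2
    have hsum : ∀ x ∈ Dv, Summable (fun p : Nat.Primes =>
        ((moebius x.1 : ℤ) : ℝ) * (x.2 : ℝ) * ((idc (E x) p : ℝ) * (p : ℝ) ^ (-s))) := by
      intro x _
      exact ((hC x s hs hs2).1).mul_left _
    have h1 : ∑ x ∈ Dv, ((moebius x.1 : ℤ) : ℝ) * (x.2 : ℝ) *
        (∑' p : Nat.Primes, (idc (E x) p : ℝ) * (p : ℝ) ^ (-s)) =
        ∑' p : Nat.Primes, b p * (p : ℝ) ^ (-s) := by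
      simp_rw [← tsum_mul_left]
      rw [← Summable.tsum_finsetSum hsum]
      refine tsum_congr fun p => ?_
      rw [Finset.sum_mul]
      refine Finset.sum_congr rfl fun x _ => ?_
      ring
    have h2 : ∑' p : Nat.Primes, b p * (p : ℝ) ^ (-s) =
        ∑ p ∈ Bad.subtype (fun p => p.Prime), b p * (p : ℝ) ^ (-s) := by
      refine tsum_eq_sum fun p hp => ?_
      have hp' : (p : ℕ) ∉ Bad := fun h => hp (Finset.mem_subtype.2 h)
      rw [hb p p.2 hp', zero_mul]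
    have h3 : |∑' p : Nat.Primes, b p * (p : ℝ) ^ (-s)| ≤ B := by
      rw [h2]
      refine (Finset.abs_sum_le_sum_abs _ _).trans ?_
      have h4 : ∑ p ∈ Bad.subtype (fun p => p.Prime), |b p * (p : ℝ) ^ (-s)| ≤
          ∑ p ∈ Bad.subtype (fun p => p.Prime), |b p| := by
        refine Finset.sum_le_sum fun p _ => ?_
        rw [abs_mul]
        refine mul_le_of_le_one_right (abs_nonneg _) ?_
        rw [abs_of_nonneg (Real.rpow_nonneg (Nat.cast_nonneg _) _)]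
        apply Real.rpow_le_one_of_one_le_of_nonpos
        · exact_mod_cast p.2.one_lt.le
        · linarith
      refine h4.trans ?_
      have h4' : ∑ p ∈ Bad.subtype (fun p => p.Prime), |b p| =
          ∑ q ∈ (Bad.subtype (fun p => p.Prime)).map (Function.Embedding.subtype _), |b q| := by
        rw [Finset.sum_map]
        rfl
      refine h4'.trans_le ?_
      refine Finset.sum_le_sum_of_subset_of_nonneg ?_ (fun _ _ _ => abs_nonneg _)
      intro q hq
      rw [Finset.mem_map] at hq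
      obtain ⟨q', hq', rfl⟩ := hq
      rw [Finset.mem_subtype] at hq'
      exact hq'
    have h5 : ∑ x ∈ Dv, ((moebius x.1 : ℤ) : ℝ) * (x.2 : ℝ) *
        ((∑' p : Nat.Primes, (idc (E x) p : ℝ) * (p : ℝ) ^ (-s)) - Real.log (1 / (s - 1))) =
        (∑' p : Nat.Primes, b p * (p : ℝ) ^ (-s)) -
          Real.log (1 / (s - 1)) * ((orderOf τ).totient : ℝ) := by
      simp_rw [mul_sub]
      rw [Finset.sum_sub_distrib, h1]
      congr 1
      rw [← Finset.sum_mul, mul_comm]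
      congr 1
      have h6 := congrArg (fun z : ℤ => (z : ℝ)) (sum_moebius_mul (orderOf τ) (orderOf_pos τ))
      simp only [Int.cast_sum, Int.cast_mul, Int.cast_natCast] at h6
      exact h6
    have h7 : |∑ x ∈ Dv, ((moebius x.1 : ℤ) : ℝ) * (x.2 : ℝ) *
        ((∑' p : Nat.Primes, (idc (E x) p : ℝ) * (p : ℝ) ^ (-s)) - Real.log (1 / (s - 1)))| ≤
        ∑ x ∈ Dv, |((moebius x.1 : ℤ) : ℝ) * (x.2 : ℝ)| * C x := by
      refine (Finset.abs_sum_le_sum_abs _ _).trans (Finset.sum_le_sum fun x _ => ?_)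
      rw [abs_mul]
      exact mul_le_mul_of_nonneg_left (hC x s hs hs2).2 (abs_nonneg _)
    rw [h5] at h7
    have h8 := abs_le.1 h7
    have h9 := abs_le.1 h3
    linarith [h8.1, h9.2]
  have hB' : 0 ≤ B' := by
    refine add_nonneg (Finset.sum_nonneg fun _ _ => abs_nonneg _)
      (Finset.sum_nonneg fun x _ => mul_nonneg (abs_nonneg _) ?_)
    exact (abs_nonneg _).trans (hC x 2 (by norm_num) le_rfl).2
  have h10 := key (1 + Real.exp (-(B' + 1))) (by linarith [Real.exp_pos (-(B' + 1))]) (by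
    have : Real.exp (-(B' + 1)) ≤ 1 := Real.exp_le_one_iff.2 (by linarith)
    linarith)
  rw [add_sub_cancel_left, Real.exp_neg, one_div, inv_inv, Real.log_exp] at h10
  have h11 : (1 : ℝ) ≤ ((orderOf τ).totient : ℝ) := by
    exact_mod_cast Nat.totient_pos.2 (orderOf_pos τ)
  nlinarith

end Pool.TP.Frobenius

/-- Frobenius density theorem, existence part. -/
theorem Pool.TP.frobenius_exists (M : Type) [Field M] [NumberField M] [IsGalois ℚ M]
    (τ : M ≃ₐ[ℚ] M) :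
    {p : ℕ | p.Prime ∧ ∃ P : Ideal (𝓞 M), P.IsPrime ∧ (p : 𝓞 M) ∈ P ∧
      P.inertia (M ≃ₐ[ℚ] M) = ⊥ ∧
      MulAction.stabilizer (M ≃ₐ[ℚ] M) P = Subgroup.zpowers τ}.Infinite :=
  Pool.TP.Frobenius.main M τ
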