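import Pool.Agent.TP.Frobenius

/-!
# Frobenius density theorem in terms of numbers of roots

For a finite set of monic separable integer polynomials and an automorphism `τ` of the algebraic
numbers there are infinitely many primes `p` such that every polynomial of the set has exactly as
many roots modulo `p` as it has roots fixed by `τ`.
-/

open NumberField Polynomial
open scoped Pointwise

namespace Pool.TP.Roots

theorem exists_root (M : Type) [Field M] [NumberField M] (h : ℤ[X]) (hm : h.Monic)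
    (hsplit : (h.map (algebraMap ℤ M)).Splits) (P : Ideal (𝓞 M)) (hP : P.IsPrime) (n : ℤ)
    (hn : ((h.eval n : ℤ) : 𝓞 M) ∈ P) : ∃ α : 𝓞 M, aeval α h = 0 ∧ (n : 𝓞 M) - α ∈ P := by
  have hm' : (h.map (algebraMap ℤ M)).Monic := hm.map _
  have h1 : ∀ a ∈ (h.map (algebraMap ℤ M)).roots, aeval a h = 0 := by
    intro a ha
    have := (mem_roots'.1 ha).2
    rwa [IsRoot.def, eval_map, ← aeval_def] at this
  have h2 : ∀ a ∈ (h.map (algebraMap ℤ M)).roots, IsIntegral ℤ a := fun a ha =>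
    ⟨h, hm, h1 a ha⟩
  have h3 : ((h.eval n : ℤ) : M) =
      ((h.map (algebraMap ℤ M)).roots.map fun a => (n : M) - a).prod := by
    have h4 := hsplit.eval_eq_prod_roots_of_monic hm' (n : M)
    rw [← h4, eval_map, ← aeval_def, ← eq_intCast (algebraMap ℤ M) n, aeval_algebraMap_apply,
      coe_aeval_eq_eval]
    simp
  have hg : ∀ a : M, ∃ b : 𝓞 M, IsIntegral ℤ a → algebraMap (𝓞 M) M b = a := by
    intro a
    by_cases ha : IsIntegral ℤ a
    · exact ⟨⟨a, ha⟩, fun _ => rfl⟩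
    · exact ⟨0, fun h => absurd h ha⟩
  choose g hg using hg
  let R : Multiset (𝓞 M) := (h.map (algebraMap ℤ M)).roots.map g
  have hR : R.map (algebraMap (𝓞 M) M) = (h.map (algebraMap ℤ M)).roots := by
    rw [Multiset.map_map]
    conv_rhs => rw [← Multiset.map_id (h.map (algebraMap ℤ M)).roots]
    exact Multiset.map_congr rfl fun a ha => hg a (h2 a ha)
  have h5 : ((h.eval n : ℤ) : 𝓞 M) = (R.map fun α => (n : 𝓞 M) - α).prod := by
    apply FaithfulSMul.algebraMap_injective (𝓞 M) M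
    rw [map_multiset_prod, Multiset.map_map, map_intCast, h3, ← hR, Multiset.map_map]
    congr 1
  rw [h5, hP.multiset_prod_mem_iff_exists_mem] at hn
  obtain ⟨x, hx, hxP⟩ := hn
  obtain ⟨α, hα, rfl⟩ := Multiset.mem_map.1 hx
  refine ⟨α, ?_, hxP⟩
  have h7 : (α : M) ∈ (h.map (algebraMap ℤ M)).roots := by
    rw [← hR]
    exact Multiset.mem_map_of_mem _ hα
  apply FaithfulSMul.algebraMap_injective (𝓞 M) M
  rw [map_zero, ← aeval_algebraMap_apply]
  exact h1 _ h7

attribute [local instance] Ideal.Quotient.field in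
theorem card_roots (M : Type) [Field M] [NumberField M] [IsGalois ℚ M] (h : ℤ[X]) (hm : h.Monic)
    (hsplit : (h.map (algebraMap ℤ M)).Splits) (τ : M ≃ₐ[ℚ] M) {p : ℕ} (hp : p.Prime)
    (P : Ideal (𝓞 M)) (hP : P.IsPrime) (hpP : (p : 𝓞 M) ∈ P)
    (hst : MulAction.stabilizer (M ≃ₐ[ℚ] M) P = Subgroup.zpowers τ)
    (hsep : ∀ α β : 𝓞 M, aeval α h = 0 → aeval β h = 0 → α - β ∈ P → α = β) :
    Nat.card {r : ZMod p // (h.map (Int.castRingHom (ZMod p))).eval r = 0} =
      Nat.card {α : 𝓞 M // aeval α h = 0 ∧ τ • α = α} := by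
  have : Fact p.Prime := ⟨hp⟩
  have hPne : P ≠ ⊥ := by
    rintro rfl
    rw [Ideal.mem_bot] at hpP
    exact hp.ne_zero (by exact_mod_cast hpP)
  have hmax : P.IsMaximal := hP.isMaximal hPne
  have hcp : CharP (𝓞 M ⧸ P) p := by
    have h1 : ((p : ℕ) : 𝓞 M ⧸ P) = 0 := by
      rw [← map_natCast (Ideal.Quotient.mk P)]
      exact Ideal.Quotient.eq_zero_iff_mem.2 hpP
    exact (CharP.charP_iff_prime_eq_zero hp).2 h1
  have hint : ∀ n : ℤ, ((n : ℤ) : 𝓞 M) ∈ P ↔ (n : ZMod p) = 0 := by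
    intro n
    rw [← Ideal.Quotient.eq_zero_iff_mem, map_intCast, CharP.intCast_eq_zero_iff _ p,
      ZMod.intCast_zmod_eq_zero_iff_dvd]
  have heval : ∀ n : ℤ, (h.map (Int.castRingHom (ZMod p))).eval (n : ZMod p) =
      ((h.eval n : ℤ) : ZMod p) := by
    intro n
    rw [eval_intCast_map, eq_intCast, Int.cast_id]
  -- a fixed root reduces to an element of the prime field
  have hfix : ∀ α : 𝓞 M, τ • α = α → ∃ n : ℤ, (n : 𝓞 M) - α ∈ P := by
    intro α hα
    have hfinq : Finite (𝓞 M ⧸ P) := inferInstance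
    obtain ⟨σ, hσ⟩ := IsArithFrobAt.exists_of_isInvariant ℤ (M ≃ₐ[ℚ] M) P
    have hσ1 : σ ∈ Subgroup.zpowers τ := by
      rw [← hst]
      exact hσ.mem_stabilizer
    have hσ2 : σ • α = α := by
      have h1 : Subgroup.zpowers τ ≤ MulAction.stabilizer (M ≃ₐ[ℚ] M) α := by
        rw [Subgroup.zpowers_le]
        exact hα
      exact h1 hσ1
    have hcard : Nat.card (ℤ ⧸ P.under ℤ) = p := by
      have h1 : P.under ℤ = Ideal.span {(p : ℤ)} := by
        ext n
        rw [Ideal.under_def, Ideal.mem_comap, Ideal.mem_span_singleton, eq_intCast, hint,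
          ZMod.intCast_zmod_eq_zero_iff_dvd]
      rw [h1, Nat.card_congr (Int.quotientSpanNatEquivZMod p).toEquiv, Nat.card_zmod]
    have h2 : σ • α - α ^ p ∈ P := by
      have := hσ α
      rw [hcard] at this
      exact this
    rw [hσ2, ← Ideal.Quotient.eq, map_pow] at h2
    have h3 := (Subfield.mem_bot_iff_pow_eq_self (𝓞 M ⧸ P) p).2 h2.symm
    obtain ⟨n, hn⟩ := (mem_bot_iff_intCast p (𝓞 M ⧸ P)).1 h3
    refine ⟨n, ?_⟩
    rw [← Ideal.Quotient.eq, map_intCast, hn]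
  have hfix' : ∀ α : 𝓞 M, aeval α h = 0 → (∃ n : ℤ, (n : 𝓞 M) - α ∈ P) → τ • α = α := by
    rintro α hα ⟨n, hn⟩
    have hτ : τ • P = P := by
      have : τ ∈ MulAction.stabilizer (M ≃ₐ[ℚ] M) P := by
        rw [hst]; exact Subgroup.mem_zpowers τ
      exact this
    have h1 : τ • ((n : 𝓞 M) - α) ∈ P := by
      rw [← hτ]
      exact Ideal.smul_mem_pointwise_smul_iff.2 hn
    rw [smul_sub] at h1
    have h2 : τ • (n : 𝓞 M) = n := by
      apply NumberField.RingOfIntegers.ext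
      change τ ((n : 𝓞 M) : M) = _
      simp
    rw [h2] at h1
    apply hsep _ _ ?_ hα
    · have := P.sub_mem hn h1
      rwa [sub_sub_sub_cancel_left] at this
    · have h3 : aeval (τ • α) h = τ • aeval α h := by
        have h4 := aeval_algHom_apply (MulSemiringAction.toAlgHom ℤ (𝓞 M) τ) α h
        exact h4
      rw [h3, hα, smul_zero]
  have hdvd : ∀ (n : ℤ) (α : 𝓞 M), (n : 𝓞 M) - α ∈ P → aeval α h = 0 →
      (h.map (Int.castRingHom (ZMod p))).eval (n : ZMod p) = 0 := by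
    intro n α hn hα
    rw [heval, ← hint]
    have h1 : ((h.eval n : ℤ) : 𝓞 M) = aeval (n : 𝓞 M) h := by
      rw [← eq_intCast (algebraMap ℤ (𝓞 M)) n, aeval_algebraMap_apply, coe_aeval_eq_eval,
        eq_intCast]
    have h2 : (n : 𝓞 M) - α ∣ aeval (n : 𝓞 M) h - aeval α h := by
      rw [aeval_def, aeval_def, eval₂_eq_eval_map, eval₂_eq_eval_map]
      exact sub_dvd_eval_sub _ _ _
    rw [hα, sub_zero, ← h1] at h2
    exact P.mem_of_dvd h2 hn
  -- the bijection
  have hf : ∀ α : {α : 𝓞 M // aeval α h = 0 ∧ τ • α = α},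
      ∃ r : {r : ZMod p // (h.map (Int.castRingHom (ZMod p))).eval r = 0},
        ∃ n : ℤ, (n : ZMod p) = r.1 ∧ (n : 𝓞 M) - α.1 ∈ P := by
    rintro ⟨α, hα, hτ⟩
    obtain ⟨n, hn⟩ := hfix α hτ
    exact ⟨⟨n, hdvd n α hn hα⟩, n, rfl, hn⟩
  choose f hf using hf
  symm
  refine Nat.card_congr (Equiv.ofBijective f ⟨?_, ?_⟩)
  · intro α β hαβ
    obtain ⟨n, hn1, hn2⟩ := hf α
    obtain ⟨m, hm1, hm2⟩ := hf β
    rw [hαβ, ← hm1] at hn1
    have h1 : ((n - m : ℤ) : 𝓞 M) ∈ P := by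
      rw [hint, Int.cast_sub, hn1, sub_self]
    apply Subtype.ext
    apply hsep _ _ α.2.1 β.2.1
    have h2 := P.sub_mem (P.sub_mem h1 hn2) (P.neg_mem hm2)
    have h3 : (((n - m : ℤ) : 𝓞 M) - ((n : 𝓞 M) - α.1) - -((m : 𝓞 M) - β.1)) = α.1 - β.1 := by
      push_cast
      ring
    rwa [h3] at h2
  · rintro ⟨r, hr⟩
    obtain ⟨n, rfl⟩ := ZMod.intCast_surjective r
    rw [heval, ← hint] at hr
    obtain ⟨α, hα, hnα⟩ := exists_root M h hm hsplit P hP n hr
    have hτ := hfix' α hα ⟨n, hnα⟩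
    refine ⟨⟨α, hα, hτ⟩, ?_⟩
    obtain ⟨m, hm1, hm2⟩ := hf ⟨α, hα, hτ⟩
    apply Subtype.ext
    rw [← hm1, ← sub_eq_zero, ← Int.cast_sub, ← hint]
    have h2 := P.sub_mem hm2 hnα
    rw [sub_sub_sub_cancel_right, ← Int.cast_sub] at h2
    exact h2

theorem finite_mem (M : Type) [Field M] [NumberField M] (y : 𝓞 M) (hy : y ≠ 0) :
    {p : ℕ | p.Prime ∧ ∃ P : Ideal (𝓞 M), P.IsPrime ∧ (p : 𝓞 M) ∈ P ∧ y ∈ P}.Finite := by
  have hn : Ideal.absNorm (Ideal.span {y}) ≠ 0 := by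
    rw [Ne, Ideal.absNorm_eq_zero_iff, Ideal.span_singleton_eq_bot]
    exact hy
  refine ((Ideal.absNorm (Ideal.span {y})).primeFactors.finite_toSet).subset ?_
  rintro p ⟨hp, P, hP, hpP, hyP⟩
  rw [Finset.mem_coe, Nat.mem_primeFactors]
  refine ⟨hp, ?_, hn⟩
  by_contra hpn
  have hmem : ((Ideal.absNorm (Ideal.span {y}) : ℕ) : 𝓞 M) ∈ P :=
    (Ideal.span_le.2 (Set.singleton_subset_iff.2 hyP)) (Ideal.absNorm_mem _)
  have hcop : IsCoprime (p : ℤ) (Ideal.absNorm (Ideal.span {y}) : ℤ) :=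
    Nat.isCoprime_iff_coprime.2 ((Nat.Prime.coprime_iff_not_dvd hp).2 hpn)
  obtain ⟨a, b, hab⟩ := hcop
  apply hP.ne_top
  rw [Ideal.eq_top_iff_one]
  have h1 : ((a * p + b * Ideal.absNorm (Ideal.span {y}) : ℤ) : 𝓞 M) ∈ P := by
    push_cast
    exact P.add_mem (P.mul_mem_left _ hpP) (P.mul_mem_left _ hmem)
  rw [hab] at h1
  simpa using h1

theorem main (S : Finset ℤ[X]) (hS : ∀ h ∈ S, h.Monic ∧
    (h.map (Int.castRingHom ℚ)).Separable) (τ : AlgebraicClosure ℚ ≃ₐ[ℚ] AlgebraicClosure ℚ) :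
    {p : ℕ | p.Prime ∧ ∀ h ∈ S,
      Nat.card {r : ZMod p // (h.map (Int.castRingHom (ZMod p))).eval r = 0} =
      Nat.card {α : AlgebraicClosure ℚ // aeval α h = 0 ∧ τ α = α}}.Infinite := by
  classical
  let F : ℚ[X] := ∏ h ∈ S, h.map (Int.castRingHom ℚ)
  have hF0 : F ≠ 0 := Finset.prod_ne_zero_iff.2 fun h hh => ((hS h hh).1.map _).ne_zero
  let M : IntermediateField ℚ (AlgebraicClosure ℚ) :=
    IntermediateField.adjoin ℚ (F.rootSet (AlgebraicClosure ℚ))
  have hspl : IsSplittingField ℚ M F :=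
    IntermediateField.adjoin_rootSet_isSplittingField (IsAlgClosed.splits _)
  have hfd : FiniteDimensional ℚ M := IsSplittingField.finiteDimensional M F
  have hnorm : Normal ℚ M := Normal.of_isSplittingField F
  have hgal : IsGalois ℚ M := ⟨⟩
  have hnf : NumberField M := ⟨⟩
  have hdvd : ∀ h ∈ S, h.map (Int.castRingHom ℚ) ∣ F := fun h hh => Finset.dvd_prod_of_mem _ hh
  have haev : ∀ (h : ℤ[X]) (β : AlgebraicClosure ℚ),
      aeval β (h.map (Int.castRingHom ℚ)) = aeval β h := by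
    intro h β
    exact aeval_map_algebraMap ℚ β h
  have hroots : ∀ h ∈ S, ∀ β : AlgebraicClosure ℚ, aeval β h = 0 → β ∈ M := by
    intro h hh β hβ
    apply IntermediateField.subset_adjoin
    rw [mem_rootSet]
    refine ⟨hF0, ?_⟩
    obtain ⟨q, hq⟩ := hdvd h hh
    rw [hq, map_mul, haev, hβ, zero_mul]
  have hsplit : ∀ h ∈ S, (h.map (algebraMap ℤ M)).Splits := by
    intro h hh
    have h1 : (F.map (algebraMap ℚ M)).Splits := hspl.splits
    have h2 : h.map (algebraMap ℤ M) = (h.map (Int.castRingHom ℚ)).map (algebraMap ℚ M) := by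
      rw [map_map]
      congr 1
    rw [h2]
    exact h1.of_dvd (map_ne_zero hF0) (Polynomial.map_dvd _ (hdvd h hh))
  let Rts : Set (𝓞 M) := ⋃ h ∈ S, {α | aeval α h = 0}
  have hRts : Rts.Finite := by
    refine Set.Finite.biUnion S.finite_toSet fun h hh => ?_
    have h1 : (h.map (algebraMap ℤ (𝓞 M))) ≠ 0 := ((hS h hh).1.map _).ne_zero
    refine ((h.map (algebraMap ℤ (𝓞 M))).roots.toFinset.finite_toSet).subset ?_
    intro α hα
    rw [Finset.mem_coe, Multiset.mem_toFinset, mem_roots h1, IsRoot.def, eval_map, ← aeval_def]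
    exact hα
  let Bad : Set ℕ := ⋃ α ∈ Rts, ⋃ β ∈ Rts, {p : ℕ | α - β ≠ 0 ∧ p.Prime ∧
    ∃ P : Ideal (𝓞 M), P.IsPrime ∧ (p : 𝓞 M) ∈ P ∧ α - β ∈ P}
  have hBad : Bad.Finite := by
    refine hRts.biUnion fun α _ => hRts.biUnion fun β _ => ?_
    by_cases h0 : α - β = 0
    · convert Set.finite_empty
      ext p
      simp [h0]
    · exact (finite_mem M (α - β) h0).subset fun p hp => hp.2
  let τM : M ≃ₐ[ℚ] M := τ.restrictNormal M
  have hτM : ∀ x : M, ((τM x : M) : AlgebraicClosure ℚ) = τ (x : AlgebraicClosure ℚ) := fun x =>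
    AlgEquiv.restrictNormal_commutes τ M x
  refine ((frobenius_exists M τM).sdiff hBad).mono ?_
  rintro p ⟨⟨hp, P, hP, hpP, -, hst⟩, hpB⟩
  refine ⟨hp, fun h hh => ?_⟩
  rw [card_roots M h (hS h hh).1 (hsplit h hh) τM hp P hP hpP hst]
  · have hcoe : ∀ α : 𝓞 M, aeval (algebraMap M (AlgebraicClosure ℚ) (algebraMap (𝓞 M) M α)) h =
        algebraMap M (AlgebraicClosure ℚ) (algebraMap (𝓞 M) M (aeval α h)) := by
      intro α
      rw [aeval_algebraMap_apply, aeval_algebraMap_apply]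
    have hinj : ∀ α β : 𝓞 M, algebraMap M (AlgebraicClosure ℚ) (algebraMap (𝓞 M) M α) =
        algebraMap M (AlgebraicClosure ℚ) (algebraMap (𝓞 M) M β) → α = β := by
      intro α β hαβ
      exact FaithfulSMul.algebraMap_injective (𝓞 M) M
        ((algebraMap M (AlgebraicClosure ℚ)).injective hαβ)
    refine Nat.card_congr (Equiv.ofBijective (fun α : {α : 𝓞 M // aeval α h = 0 ∧ τM • α = α} =>
      (⟨algebraMap M (AlgebraicClosure ℚ) (algebraMap (𝓞 M) M α.1), ?_, ?_⟩ :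
        {α : AlgebraicClosure ℚ // aeval α h = 0 ∧ τ α = α})) ⟨?_, ?_⟩)
    · rw [hcoe, α.2.1, map_zero, map_zero]
    · have h1 := hτM (algebraMap (𝓞 M) M α.1)
      have h2 : τM (algebraMap (𝓞 M) M α.1) = algebraMap (𝓞 M) M (τM • α.1) := rfl
      rw [h2, α.2.2] at h1
      exact h1.symm
    · intro α β hαβ
      have h3 : algebraMap M (AlgebraicClosure ℚ) (algebraMap (𝓞 M) M α.1) =
          algebraMap M (AlgebraicClosure ℚ) (algebraMap (𝓞 M) M β.1) :=
        congrArg (fun x : {α : AlgebraicClosure ℚ // aeval α h = 0 ∧ τ α = α} => x.1) hαβ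
      exact Subtype.ext (hinj _ _ h3)
    · rintro ⟨β, hβ, hτβ⟩
      have hβM : β ∈ M := hroots h hh β hβ
      have hint : IsIntegral ℤ (⟨β, hβM⟩ : M) := by
        refine ⟨h, (hS h hh).1, ?_⟩
        apply (algebraMap M (AlgebraicClosure ℚ)).injective
        rw [map_zero, ← aeval_def, ← aeval_algebraMap_apply]
        exact hβ
      obtain ⟨α, hα⟩ : ∃ α : 𝓞 M, algebraMap (𝓞 M) M α = ⟨β, hβM⟩ := ⟨⟨_, hint⟩, rfl⟩
      have hα' : algebraMap M (AlgebraicClosure ℚ) (algebraMap (𝓞 M) M α) = β := by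
        rw [hα]
        rfl
      refine ⟨⟨α, ?_, ?_⟩, Subtype.ext hα'⟩
      · apply hinj
        rw [← hcoe, hα', hβ, map_zero, map_zero]
      · apply hinj
        have h2 : algebraMap (𝓞 M) M (τM • α) = τM (algebraMap (𝓞 M) M α) := rfl
        rw [h2]
        refine (hτM _).trans ?_
        change τ (algebraMap M (AlgebraicClosure ℚ) (algebraMap (𝓞 M) M α)) = _
        rw [hα', hτβ]
  · intro α β hα hβ hαβ
    by_contra hne
    apply hpB
    simp only [Bad, Set.mem_iUnion]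
    exact ⟨α, Set.mem_biUnion hh hα, β, Set.mem_biUnion hh hβ, sub_ne_zero.2 hne, hp, P, hP, hpP,
      hαβ⟩

end Pool.TP.Roots

/-- Frobenius density theorem (existence part), numbers of roots. -/
theorem Pool.TP.frobenius_roots (S : Finset ℤ[X]) (hS : ∀ h ∈ S, h.Monic ∧
    (h.map (Int.castRingHom ℚ)).Separable) (τ : AlgebraicClosure ℚ ≃ₐ[ℚ] AlgebraicClosure ℚ) :
    {p : ℕ | p.Prime ∧ ∀ h ∈ S,
      Nat.card {r : ZMod p // (h.map (Int.castRingHom (ZMod p))).eval r = 0} =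
      Nat.card {α : AlgebraicClosure ℚ // aeval α h = 0 ∧ τ α = α}}.Infinite :=
  Pool.TP.Roots.main S hS τ
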