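import Pool.Agent.TP.Defs

/-!
The descent lemma for quadratic twist pencils.
-/

open NumberField Polynomial
open scoped Pointwise BigOperators

namespace Pool.TP

namespace Descent

theorem ls_cast {p : ℕ} [Fact p.Prime] {a : ℤ} (ha : (a : ZMod p) ≠ 0) :
    ((ls p a : ℤˣ) : ℤ) = legendreSym p a := by
  unfold ls
  split_ifs with h
  · rw [(legendreSym.eq_one_iff p ha).2 h]; rfl
  · rcases legendreSym.eq_one_or_neg_one p ha with h1 | h1
    · exact absurd ((legendreSym.eq_one_iff p ha).1 h1) h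
    · rw [h1]; rfl

theorem ls_mul {p : ℕ} [Fact p.Prime] {a b : ℤ} (ha : (a : ZMod p) ≠ 0)
    (hb : (b : ZMod p) ≠ 0) : ls p (a * b) = ls p a * ls p b := by
  have hab : ((a * b : ℤ) : ZMod p) ≠ 0 := by
    push_cast
    exact mul_ne_zero ha hb
  apply Units.ext
  rw [Units.val_mul, ls_cast ha, ls_cast hb, ls_cast hab, legendreSym.mul]

theorem ls_one {p : ℕ} : ls p 1 = 1 := by
  unfold ls
  rw [if_pos]
  exact ⟨1, by simp⟩

theorem ls_pow {p : ℕ} [Fact p.Prime] {a : ℤ} (ha : (a : ZMod p) ≠ 0) (k : ℕ) :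
    ls p (a ^ k) = ls p a ^ k := by
  induction k with
  | zero => simp [ls_one]
  | succ k ih =>
    have : ((a ^ k : ℤ) : ZMod p) ≠ 0 := by push_cast; exact pow_ne_zero _ ha
    rw [pow_succ, pow_succ, ls_mul this ha, ih]

theorem ls_sq {p : ℕ} {a : ℤ} : ls p (a ^ 2) = 1 := by
  unfold ls
  rw [if_pos]
  exact ⟨(a : ZMod p), by push_cast; ring⟩

theorem ls_prod {p : ℕ} [Fact p.Prime] {κ : Type} (s : Finset κ) (f : κ → ℤ)
    (hf : ∀ k ∈ s, (f k : ZMod p) ≠ 0) : ls p (∏ k ∈ s, f k) = ∏ k ∈ s, ls p (f k) := by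
  classical
  induction s using Finset.induction_on with
  | empty => simp [ls_one]
  | insert k s hk ih =>
    have h1 : ((∏ k ∈ s, f k : ℤ) : ZMod p) ≠ 0 := by
      push_cast
      exact Finset.prod_ne_zero_iff.2 fun j hj => hf j (Finset.mem_insert_of_mem hj)
    rw [Finset.prod_insert hk, Finset.prod_insert hk, ls_mul (hf k (Finset.mem_insert_self _ _)) h1,
      ih fun j hj => hf j (Finset.mem_insert_of_mem hj)]

theorem ls_congr {p : ℕ} {a b : ℤ} (h : (a : ZMod p) = (b : ZMod p)) : ls p a = ls p b := by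
  unfold ls
  rw [h]

/-- The homogenised value `b ^ d * g (a / b)`. -/
noncomputable def R (g : ℤ[X]) (x : ℚ) : ℤ := (g.scaleRoots (x.den : ℤ)).eval x.num

theorem R_cast (g : ℤ[X]) (x : ℚ) : (R g x : ℚ) = (x.den : ℚ) ^ g.natDegree * aeval x g := by
  have h1 := Polynomial.eval₂_at_apply (p := g.scaleRoots (x.den : ℤ)) (Int.castRingHom ℚ) x.num
  have h2 := Polynomial.scaleRoots_eval₂_mul (p := g) (f := Int.castRingHom ℚ) x (x.den : ℤ)
  have h3 : (Int.castRingHom ℚ) x.num = (Int.castRingHom ℚ) (x.den : ℤ) * x := by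
    simp only [eq_intCast, Int.cast_natCast]
    rw [mul_comm, Rat.mul_den_eq_num]
  rw [h3, h2] at h1
  simp only [eq_intCast, Int.cast_natCast] at h1
  rw [R, ← h1]
  rfl

theorem R_mod (g : ℤ[X]) (x : ℚ) (p : ℕ) [Fact p.Prime] (hb : (x.den : ZMod p) ≠ 0) :
    (R g x : ZMod p) = (x.den : ZMod p) ^ g.natDegree *
      (g.map (Int.castRingHom (ZMod p))).eval ((x.num : ZMod p) / (x.den : ZMod p)) := by
  have h1 := Polynomial.eval₂_at_apply (p := g.scaleRoots (x.den : ℤ)) (Int.castRingHom (ZMod p))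
    x.num
  have h2 := Polynomial.scaleRoots_eval₂_mul (p := g) (f := Int.castRingHom (ZMod p))
    ((x.num : ZMod p) / (x.den : ZMod p)) (x.den : ℤ)
  have h3 : (Int.castRingHom (ZMod p)) x.num =
      (Int.castRingHom (ZMod p)) (x.den : ℤ) * ((x.num : ZMod p) / (x.den : ZMod p)) := by
    simp only [eq_intCast, Int.cast_natCast]
    field_simp
  rw [h3, h2] at h1
  simp only [eq_intCast, Int.cast_natCast] at h1
  rw [R, ← h1, Polynomial.eval_map]

theorem R_den (g : ℤ[X]) (hg : g.Monic) (x : ℚ) (p : ℕ) [Fact p.Prime]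
    (hb : (x.den : ZMod p) = 0) : (R g x : ZMod p) = (x.num : ZMod p) ^ g.natDegree := by
  have h1 := Polynomial.eval₂_at_apply (p := g.scaleRoots (x.den : ℤ)) (Int.castRingHom (ZMod p))
    x.num
  rw [← Polynomial.eval_map, Polynomial.map_scaleRoots _ _ _ (by rw [hg.leadingCoeff]; simp)] at h1
  simp only [eq_intCast, Int.cast_natCast, hb, Polynomial.scaleRoots_zero] at h1
  rw [R, ← h1, (hg.map _).leadingCoeff, hg.natDegree_map]
  simp

theorem den_ne (g : ℤ[X]) (hg : g.Monic) (x : ℚ) (p : ℕ) [Fact p.Prime]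
    (h : (R g x : ZMod p) = 0) : (x.den : ZMod p) ≠ 0 := by
  intro hb
  rw [R_den g hg x p hb] at h
  have h1 : (x.num : ZMod p) = 0 := by
    by_contra h0
    exact pow_ne_zero _ h0 h
  have h2 : (p : ℤ) ∣ x.num := (ZMod.intCast_zmod_eq_zero_iff_dvd _ _).1 h1
  have h3 : p ∣ x.den := (ZMod.natCast_eq_zero_iff _ _).1 hb
  have h4 : p ∣ x.num.natAbs := Int.natCast_dvd.1 h2
  have h5 := Nat.dvd_gcd h4 h3
  rw [x.reduced] at h5
  exact (Fact.out : p.Prime).one_lt.ne' (Nat.dvd_one.1 h5)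

theorem root (g : ℤ[X]) (hg : g.Monic) (x : ℚ) (p : ℕ) [Fact p.Prime]
    (h : (R g x : ZMod p) = 0) :
    (g.map (Int.castRingHom (ZMod p))).eval ((x.num : ZMod p) / (x.den : ZMod p)) = 0 := by
  have hb := den_ne g hg x p h
  rw [R_mod g x p hb] at h
  exact (mul_eq_zero.1 h).resolve_left (pow_ne_zero _ hb)

theorem uniq (g₁ g₂ : ℤ[X]) (h₁ : g₁.Monic) (h₂ : g₂.Monic) (D : ℤ)
    (hco : ∃ u v : ℤ[X], u * g₁ + v * g₂ = C D) (x : ℚ) (p : ℕ) [Fact p.Prime]
    (hD : ¬ (p : ℤ) ∣ D) (hp : (R g₁ x : ZMod p) = 0) : (R g₂ x : ZMod p) ≠ 0 := by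
  intro hp'
  obtain ⟨u, v, huv⟩ := hco
  have e1 := root g₁ h₁ x p hp
  have e2 := root g₂ h₂ x p hp'
  have e3 := congrArg (fun q : ℤ[X] => (q.map (Int.castRingHom (ZMod p))).eval
    ((x.num : ZMod p) / (x.den : ZMod p))) huv
  simp only [Polynomial.map_add, Polynomial.map_mul, eval_add, eval_mul, e1, e2, mul_zero,
    add_zero, Polynomial.map_C, eval_C] at e3
  rw [eq_intCast] at e3
  exact hD ((ZMod.intCast_zmod_eq_zero_iff_dvd _ _).1 e3.symm)

theorem exists_int (T : ℕ) (hT : Squarefree T) (w : ℚ) (z : ℤ) (h : (z : ℚ) = T * w ^ 2) :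
    ∃ W : ℤ, (W : ℚ) = w := by
  have hden : (w.den : ℚ) ≠ 0 := by exact_mod_cast w.den_nz
  have h1 : z * (w.den : ℤ) ^ 2 = T * w.num ^ 2 := by
    have h2 : (z : ℚ) * (w.den : ℚ) ^ 2 = T * (w.num : ℚ) ^ 2 := by
      rw [h, ← Rat.mul_den_eq_num w]
      ring
    exact_mod_cast h2
  have h3 : w.den ^ 2 ∣ T * w.num.natAbs ^ 2 := by
    have : (w.den : ℤ) ^ 2 ∣ (T : ℤ) * w.num ^ 2 := ⟨z, by rw [← h1]; ring⟩
    have h4 := Int.natAbs_dvd_natAbs.2 this
    simpa [Int.natAbs_mul, Int.natAbs_pow] using h4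
  have h5 : (w.den ^ 2).Coprime (w.num.natAbs ^ 2) := (w.reduced.symm).pow 2 2
  have h6 : w.den ^ 2 ∣ T := h5.dvd_of_dvd_mul_right h3
  have h7 : IsUnit w.den := hT w.den (by rwa [← pow_two])
  have h8 : w.den = 1 := Nat.isUnit_iff.1 h7
  exact ⟨w.num, by rw [← Rat.mul_den_eq_num w, h8]; simp⟩

theorem squarefree_prod {N : ℕ} (p : Fin N → ℕ) (hp : ∀ n, (p n).Prime)
    (hinj : Function.Injective p) (s : Finset (Fin N)) : Squarefree (∏ n ∈ s, p n) := by
  classical
  induction s using Finset.induction_on with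
  | empty => simp
  | insert a s ha ih =>
    rw [Finset.prod_insert ha, Nat.squarefree_mul_iff]
    refine ⟨?_, (hp a).prime.irreducible.squarefree, ih⟩
    rw [Nat.coprime_prod_right_iff]
    intro i hi
    rw [Nat.coprime_primes (hp a) (hp i)]
    intro h
    exact ha (hinj h ▸ hi)

end Descent

open Descent in
theorem descent {ι : Type} [Fintype ι] [DecidableEq ι] (g : ι → ℤ[X]) (hg : ∀ i, (g i).Monic)
    (heven : Even (∑ i, (g i).natDegree)) (D : ℤ) (hD : D ≠ 0)
    (hco : ∀ i j, i ≠ j → ∃ u v : ℤ[X], u * g i + v * g j = C D)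
    {N : ℕ} (p : Fin N → ℕ) (hp : ∀ n, (p n).Prime) (hinj : Function.Injective p)
    (hpD : ∀ n, ¬ (p n : ℤ) ∣ 2 * D) (x y : ℚ) (hne : ∀ i, aeval x (g i) ≠ 0)
    (h : ∏ i, aeval x (g i) = (∏ n, (p n : ℚ)) * y ^ 2) :
    ∃ (O : Fin N → ι) (ρ : ∀ n, ZMod (p n)) (β : Fin N → ℤˣ) (ν : ι → ℤ),
      (∀ i, ν i ∣ D) ∧
      (∀ n, ((g (O n)).map (Int.castRingHom (ZMod (p n)))).eval (ρ n) = 0) ∧
      ∀ n i, i ≠ O n →
        ls (p n) (ν i) * ∏ m with O m = i, ls (p n) (p m) =
          β n ^ (g i).natDegree * ls (p n) ((g i).eval ((ρ n).val : ℤ)) := by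
  classical
  have hf : ∀ n, Fact (p n).Prime := fun n => ⟨hp n⟩
  have hdenQ : (x.den : ℚ) ≠ 0 := by exact_mod_cast x.den_nz
  have hRne : ∀ i, R (g i) x ≠ 0 := by
    intro i h0
    have h1 := R_cast (g i) x
    rw [h0, Int.cast_zero] at h1
    exact (mul_ne_zero (pow_ne_zero _ hdenQ) (hne i)) h1.symm
  obtain ⟨m, hm⟩ := heven
  -- the product of the homogenised values
  have hprod : ((∏ i, R (g i) x : ℤ) : ℚ) = ((∏ n, p n : ℕ) : ℚ) * (y * (x.den : ℚ) ^ m) ^ 2 := by
    push_cast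
    simp only [R_cast]
    rw [Finset.prod_mul_distrib, Finset.prod_pow_eq_pow_sum, h, hm]
    ring
  obtain ⟨W, hW⟩ := exists_int _ (squarefree_prod p hp hinj Finset.univ) _ _ hprod
  have hprodZ : ∏ i, R (g i) x = ((∏ n, p n : ℕ) : ℤ) * W ^ 2 := by
    rw [← hW] at hprod
    exact_mod_cast hprod
  set r : ι → ℕ := fun i => (R (g i) x).natAbs with hr
  have hrne : ∀ i, r i ≠ 0 := fun i => Int.natAbs_ne_zero.2 (hRne i)
  have hprodN : ∏ i, r i = (∏ n, p n) * W.natAbs ^ 2 := by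
    have h1 := congrArg Int.natAbs hprodZ
    rw [Int.natAbs_mul, Int.natAbs_natCast, Int.natAbs_pow] at h1
    rw [← h1]
    exact (map_prod Int.natAbsHom (fun i => R (g i) x) Finset.univ).symm
  have hdvd : ∀ (l : ℕ) (i : ι), l ∣ r i ↔ (R (g i) x : ZMod l) = 0 := by
    intro l i
    rw [ZMod.intCast_zmod_eq_zero_iff_dvd, Int.natCast_dvd]
  have huniq : ∀ (l : ℕ), l.Prime → ¬ (l : ℤ) ∣ D → ∀ i j, i ≠ j → l ∣ r i → ¬ l ∣ r j := by
    intro l hl hlD i j hij h1 h2
    have : Fact l.Prime := ⟨hl⟩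
    rw [hdvd] at h1 h2
    exact uniq (g i) (g j) (hg i) (hg j) D (hco i j hij) x l hlD h1 h2
  have hpD' : ∀ n, ¬ (p n : ℤ) ∣ D := fun n h1 => hpD n (h1.mul_left 2)
  have hexO : ∀ n, ∃ i, p n ∣ r i := by
    intro n
    have h1 : p n ∣ ∏ i, r i := by
      rw [hprodN]
      exact (Finset.dvd_prod_of_mem p (Finset.mem_univ n)).mul_right _
    obtain ⟨i, _, hi⟩ := ((hp n).prime.dvd_finsetProd_iff _).1 h1
    exact ⟨i, hi⟩
  choose O hO using hexO
  have hOn : ∀ n i, i ≠ O n → ¬ p n ∣ r i :=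
    fun n i hi => huniq (p n) (hp n) (hpD' n) (O n) i (Ne.symm hi) (hO n)
  -- the parts
  set P : ι → ℕ := fun i => ∏ m with O m = i, p m with hP
  have hPd : ∀ i, P i ∣ r i := by
    intro i
    have h1 : P i = ∏ q ∈ (Finset.univ.filter (fun m => O m = i)).image p, q := by
      rw [Finset.prod_image (fun a _ b _ hab => hinj hab)]
    rw [h1]
    apply Finset.prod_primes_dvd
    · intro q hq
      rw [Finset.mem_image] at hq
      obtain ⟨n, _, rfl⟩ := hq
      exact (hp n).prime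
    · intro q hq
      rw [Finset.mem_image] at hq
      obtain ⟨n, hn, rfl⟩ := hq
      rw [Finset.mem_filter] at hn
      rw [← hn.2]
      exact hO n
  choose r' hr' using hPd
  have hsq : ∀ i, ∃ a b : ℕ, b ^ 2 * a = r' i ∧ Squarefree a := by
    intro i
    obtain ⟨a, b, h1, h2⟩ := Nat.sq_mul_squarefree (r' i)
    exact ⟨a, b, h1, h2⟩
  choose a z haz hsa using hsq
  have hPne : ∀ i, P i ≠ 0 := by
    intro i h0
    exact hrne i (by rw [hr' i, h0, zero_mul])
  have hr'ne : ∀ i, r' i ≠ 0 := by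
    intro i h0
    exact hrne i (by rw [hr' i, h0, mul_zero])
  have hane : ∀ i, a i ≠ 0 := by
    intro i h0
    exact hr'ne i (by rw [← haz i, h0, mul_zero])
  have hzne : ∀ i, z i ≠ 0 := by
    intro i h0
    exact hr'ne i (by rw [← haz i, h0]; simp)
  have hWne : W.natAbs ≠ 0 := by
    intro h0
    have h1 : ∏ i, r i ≠ 0 := Finset.prod_ne_zero_iff.2 fun i _ => hrne i
    rw [hprodN, h0] at h1
    simp at h1
  have heven' : ∀ (l : ℕ), l.Prime → ¬ (l : ℤ) ∣ D → ∀ i, Even (padicValNat l (r' i)) := by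
    intro l hl hlD i
    have : Fact l.Prime := ⟨hl⟩
    by_cases hli : l ∣ r i
    · have h1 : ∏ j, r j = r i * ∏ j ∈ Finset.univ.erase i, r j :=
        (Finset.mul_prod_erase Finset.univ r (Finset.mem_univ i)).symm
      have h2 : ¬ l ∣ ∏ j ∈ Finset.univ.erase i, r j := by
        rw [hl.prime.dvd_finsetProd_iff]
        rintro ⟨j, hj, hlj⟩
        exact huniq l hl hlD i j (Finset.ne_of_mem_erase hj).symm hli hlj
      have h3 : ∏ n, p n = P i * ∏ n with ¬ O n = i, p n :=
        (Finset.prod_filter_mul_prod_filter_not Finset.univ (fun n => O n = i) p).symm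
      have h4 : ¬ l ∣ ∏ n with ¬ O n = i, p n := by
        rw [hl.prime.dvd_finsetProd_iff]
        rintro ⟨n, hn, hln⟩
        rw [Finset.mem_filter] at hn
        have h5 : l ∣ r (O n) := hln.trans (hO n)
        exact huniq l hl hlD (O n) i hn.2 h5 hli
      have h6 : ∏ j ∈ Finset.univ.erase i, r j ≠ 0 := Finset.prod_ne_zero_iff.2 fun j _ => hrne j
      have h7 : ∏ n with ¬ O n = i, p n ≠ 0 := Finset.prod_ne_zero_iff.2 fun n _ => (hp n).ne_zero
      have h8 := congrArg (padicValNat l) hprodN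
      rw [h1, h3, hr' i, padicValNat.mul (mul_ne_zero (hPne i) (hr'ne i)) h6,
        padicValNat.mul (hPne i) (hr'ne i), padicValNat.eq_zero_of_not_dvd h2,
        padicValNat.mul (mul_ne_zero (hPne i) h7) (pow_ne_zero _ hWne),
        padicValNat.mul (hPne i) h7, padicValNat.eq_zero_of_not_dvd h4,
        padicValNat.pow] at h8
      exact ⟨padicValNat l W.natAbs, by omega⟩
    · rw [padicValNat.eq_zero_of_not_dvd]
      · exact Even.zero
      · intro h1
        exact hli (h1.trans ⟨P i, by rw [hr' i]; ring⟩)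
  have haD : ∀ i, (a i : ℤ) ∣ D := by
    intro i
    rw [Int.natCast_dvd, ← Nat.prod_primeFactors_of_squarefree (hsa i)]
    apply Finset.prod_primes_dvd
    · intro q hq
      exact (Nat.prime_of_mem_primeFactors hq).prime
    · intro q hq
      have hqp := Nat.prime_of_mem_primeFactors hq
      have : Fact q.Prime := ⟨hqp⟩
      have hqa := Nat.dvd_of_mem_primeFactors hq
      by_contra hqD
      rw [← Int.natCast_dvd] at hqD
      have h1 := heven' q hqp hqD i
      rw [← haz i, padicValNat.mul (pow_ne_zero _ (hzne i)) (hane i), padicValNat.pow] at h1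
      have h2 : padicValNat q (a i) = 1 := by
        have h3 : padicValNat q (a i) ≠ 0 := by
          intro h4
          rw [padicValNat.eq_zero_iff] at h4
          rcases h4 with h4 | h4 | h4
          · exact hqp.one_lt.ne' h4
          · exact hane i h4
          · exact h4 hqa
        have h4 := (hsa i).natFactorization_le_one q
        rw [Nat.factorization_def _ hqp] at h4
        omega
      rw [h2] at h1
      rcases h1 with ⟨k, hk⟩
      omega
  have hRdec : ∀ i, R (g i) x = (((R (g i) x).sign * a i) * ((P i : ℕ) : ℤ)) * (z i : ℤ) ^ 2 := by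
    intro i
    have h1 : (R (g i) x) = (R (g i) x).sign * ((r i : ℕ) : ℤ) := (Int.sign_mul_natAbs _).symm
    have h2 : ((r i : ℕ) : ℤ) = (P i : ℤ) * ((z i : ℤ) ^ 2 * (a i : ℤ)) := by
      rw [hr' i, ← haz i]
      push_cast
      ring
    calc R (g i) x = (R (g i) x).sign * ((r i : ℕ) : ℤ) := h1
      _ = _ := by rw [h2]; ring
  refine ⟨O, fun n => (x.num : ZMod (p n)) / (x.den : ZMod (p n)), fun n => ls (p n) (x.den : ℤ),
    fun i => (R (g i) x).sign * a i, ?_, ?_, ?_⟩
  · intro i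
    dsimp only
    rcases Int.sign_trichotomy (R (g i) x) with h1 | h1 | h1
    · rw [h1, one_mul]; exact haD i
    · exact absurd (Int.sign_eq_zero_iff_zero.1 h1) (hRne i)
    · rw [h1, neg_one_mul, neg_dvd]; exact haD i
  · intro n
    exact root (g (O n)) (hg _) x (p n) ((hdvd (p n) (O n)).1 (hO n))
  · intro n i hi
    have := hf n
    have hb : (x.den : ZMod (p n)) ≠ 0 := den_ne (g (O n)) (hg _) x (p n)
      ((hdvd (p n) (O n)).1 (hO n))
    have hRi : (R (g i) x : ZMod (p n)) ≠ 0 := fun h1 => hOn n i hi ((hdvd _ _).2 h1)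
    have h1 := hRi
    rw [hRdec i] at h1
    push_cast at h1
    have hz0 : ((z i : ℤ) : ZMod (p n)) ≠ 0 := by
      intro h2
      apply h1
      rw [Int.cast_natCast] at h2
      rw [h2]; simp
    have hP0 : ((P i : ℤ) : ZMod (p n)) ≠ 0 := by
      intro h2
      apply h1
      rw [Int.cast_natCast] at h2
      rw [h2]; simp
    have hs0 : (((R (g i) x).sign * (a i : ℤ) : ℤ) : ZMod (p n)) ≠ 0 := by
      intro h2
      apply h1
      push_cast at h2
      rw [h2]; simp
    have hsP : (((R (g i) x).sign * (a i : ℤ) * ((P i : ℕ) : ℤ) : ℤ) : ZMod (p n)) ≠ 0 := by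
      rw [Int.cast_mul]
      exact mul_ne_zero hs0 hP0
    have hz2 : (((z i : ℤ) ^ 2 : ℤ) : ZMod (p n)) ≠ 0 := by
      rw [Int.cast_pow]
      exact pow_ne_zero _ hz0
    have e1 : ls (p n) (R (g i) x) = ls (p n) ((R (g i) x).sign * a i) *
        ∏ m with O m = i, ls (p n) (p m) := by
      calc ls (p n) (R (g i) x) = ls (p n) ((((R (g i) x).sign * a i) * ((P i : ℕ) : ℤ)) *
            (z i : ℤ) ^ 2) := by rw [← hRdec i]
        _ = _ := by
          rw [ls_mul hsP hz2, ls_sq, mul_one, ls_mul hs0 hP0]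
          congr 1
          rw [hP]
          push_cast
          apply ls_prod
          intro k hk h2
          apply hP0
          rw [hP]
          push_cast
          apply Finset.prod_eq_zero hk
          simpa using h2
    have e2 : ls (p n) (R (g i) x) = ls (p n) (x.den : ℤ) ^ (g i).natDegree *
        ls (p n) ((g i).eval
          (((x.num : ZMod (p n)) / (x.den : ZMod (p n))).val : ℤ)) := by
      have hb' : ((x.den : ℤ) : ZMod (p n)) ≠ 0 := by rwa [Int.cast_natCast]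
      have h2 : (R (g i) x : ZMod (p n)) = (((x.den : ℤ) ^ (g i).natDegree * (g i).eval
          (((x.num : ZMod (p n)) / (x.den : ZMod (p n))).val : ℤ) : ℤ) : ZMod (p n)) := by
        rw [R_mod (g i) x (p n) hb]
        push_cast
        congr 1
        have h3 := Polynomial.eval₂_at_apply (p := g i) (Int.castRingHom (ZMod (p n)))
          (((x.num : ZMod (p n)) / (x.den : ZMod (p n))).val : ℤ)
        have h5 : (Int.castRingHom (ZMod (p n)))
            (((x.num : ZMod (p n)) / (x.den : ZMod (p n))).val : ℤ) =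
            (x.num : ZMod (p n)) / (x.den : ZMod (p n)) := by
          rw [eq_intCast, Int.cast_natCast, ZMod.natCast_zmod_val]
        rw [← Polynomial.eval_map, h5] at h3
        exact h3
      have h4 := hRi
      rw [h2, Int.cast_mul] at h4
      rw [ls_congr h2, ls_mul (left_ne_zero_of_mul h4) (right_ne_zero_of_mul h4), ls_pow hb']
    rw [← e1, e2]

end Pool.TP
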