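import Pool.Agent.TP.Core

/-!
# Twist pencils: the two cases, and sections
-/

open Polynomial

namespace Pool.TP.Final

open Step

/-- Value of a binary form with values of polynomials: the top coefficient. -/
theorem coeff_form {F : Type} [Field F] (c : ℕ → F) (d : ℕ) (a b : F[X]) (n : ℕ)
    (ha : a.natDegree ≤ n) (hb : b.natDegree ≤ n) :
    (∑ i ∈ Finset.range (d + 1), C (c i) * a ^ i * b ^ (d - i)).coeff (d * n) =
      ∑ i ∈ Finset.range (d + 1), c i * a.coeff n ^ i * b.coeff n ^ (d - i) := by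
  rw [finsetSum_coeff]
  refine Finset.sum_congr rfl fun i hi => ?_
  have hi' : i ≤ d := by
    have := Finset.mem_range.1 hi
    omega
  have h1 : d * n = i * n + (d - i) * n := by
    rw [← add_mul]
    congr 1
    omega
  rw [mul_assoc, coeff_C_mul, h1, coeff_mul_add_eq_of_natDegree_le ?_ ?_, coeff_pow_of_natDegree_le ha,
    coeff_pow_of_natDegree_le hb, mul_assoc]
  · exact natDegree_pow_le_of_le i ha
  · exact natDegree_pow_le_of_le (d - i) hb

theorem natDegree_form_le {F : Type} [Field F] (c : ℕ → F) (d : ℕ) (a b : F[X]) (n : ℕ)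
    (ha : a.natDegree ≤ n) (hb : b.natDegree ≤ n) :
    (∑ i ∈ Finset.range (d + 1), C (c i) * a ^ i * b ^ (d - i)).natDegree ≤ d * n := by
  refine natDegree_sum_le_of_forall_le _ _ fun i hi => ?_
  have hi' : i ≤ d := by
    have := Finset.mem_range.1 hi
    omega
  have h1 : d * n = 0 + i * n + (d - i) * n := by
    rw [zero_add, ← add_mul]
    congr 1
    omega
  rw [h1]
  exact natDegree_mul_le_of_le (natDegree_mul_le_of_le (by simp) (natDegree_pow_le_of_le i ha))
    (natDegree_pow_le_of_le (d - i) hb)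

/-- A binary form of even degree without nontrivial zeros does not represent `T * y ^ 2` over the
field of rational functions in `T`. -/
theorem no_section {F : Type} [Field F] (c : ℕ → F) (m : ℕ)
    (hc : ∀ x z : F, (x ≠ 0 ∨ z ≠ 0) →
      ∑ i ∈ Finset.range (2 * m + 1), c i * x ^ i * z ^ (2 * m - i) ≠ 0)
    (x y z : RatFunc F) (hxz : x ≠ 0 ∨ z ≠ 0) :
    RatFunc.X * y ^ 2 ≠
      ∑ i ∈ Finset.range (2 * m + 1), algebraMap F (RatFunc F) (c i) * x ^ i * z ^ (2 * m - i) := by
  intro h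
  obtain ⟨a₁, d₁, hd₁, rfl⟩ := IsFractionRing.div_surjective (A := F[X]) x
  obtain ⟨b₁, d₂, hd₂, rfl⟩ := IsFractionRing.div_surjective (A := F[X]) z
  obtain ⟨e, f, hf, rfl⟩ := IsFractionRing.div_surjective (A := F[X]) y
  have hd₁0 : d₁ ≠ 0 := nonZeroDivisors.ne_zero hd₁
  have hd₂0 : d₂ ≠ 0 := nonZeroDivisors.ne_zero hd₂
  have hf0 : f ≠ 0 := nonZeroDivisors.ne_zero hf
  have hinj : Function.Injective (algebraMap F[X] (RatFunc F)) := IsFractionRing.injective _ _
  have hd₁' : algebraMap F[X] (RatFunc F) d₁ ≠ 0 := (map_ne_zero_iff _ hinj).2 hd₁0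
  have hd₂' : algebraMap F[X] (RatFunc F) d₂ ≠ 0 := (map_ne_zero_iff _ hinj).2 hd₂0
  have hf' : algebraMap F[X] (RatFunc F) f ≠ 0 := (map_ne_zero_iff _ hinj).2 hf0
  obtain ⟨a, ha⟩ : ∃ a, a = a₁ * d₂ := ⟨_, rfl⟩
  obtain ⟨b, hb⟩ : ∃ b, b = b₁ * d₁ := ⟨_, rfl⟩
  obtain ⟨d, hd⟩ : ∃ d, d = d₁ * d₂ := ⟨_, rfl⟩
  have hd0 : d ≠ 0 := by rw [hd]; exact mul_ne_zero hd₁0 hd₂0
  have hab : a ≠ 0 ∨ b ≠ 0 := by
    rcases hxz with h1 | h1
    · left
      rw [ha]
      refine mul_ne_zero ?_ hd₂0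
      rintro rfl
      simp at h1
    · right
      rw [hb]
      refine mul_ne_zero ?_ hd₁0
      rintro rfl
      simp at h1
  have key : (X : F[X]) * e ^ 2 * d ^ (2 * m) = f ^ 2 *
      ∑ i ∈ Finset.range (2 * m + 1), C (c i) * a ^ i * b ^ (2 * m - i) := by
    apply hinj
    simp only [map_mul, map_pow, map_sum, RatFunc.algebraMap_X]
    have h1 := congrArg (fun w => w * (algebraMap F[X] (RatFunc F) f ^ 2 *
      algebraMap F[X] (RatFunc F) d ^ (2 * m))) h
    have h2 : RatFunc.X * (algebraMap F[X] (RatFunc F) e / algebraMap F[X] (RatFunc F) f) ^ 2 *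
        (algebraMap F[X] (RatFunc F) f ^ 2 * algebraMap F[X] (RatFunc F) d ^ (2 * m)) =
        RatFunc.X * algebraMap F[X] (RatFunc F) e ^ 2 * algebraMap F[X] (RatFunc F) d ^ (2 * m) := by
      rw [div_pow]
      field_simp
    rw [h2] at h1
    rw [h1, mul_comm (algebraMap F[X] (RatFunc F) f ^ 2), ← mul_assoc, mul_comm]
    congr 1
    rw [Finset.sum_mul]
    refine Finset.sum_congr rfl fun i hi => ?_
    have hi' : i ≤ 2 * m := by
      have := Finset.mem_range.1 hi
      omega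
    have h3 : algebraMap F[X] (RatFunc F) (C (c i)) = algebraMap F (RatFunc F) (c i) := by
      rw [RatFunc.algebraMap_C]
      rfl
    rw [h3]
    have h4 : algebraMap F[X] (RatFunc F) d ^ (2 * m) =
        algebraMap F[X] (RatFunc F) d ^ i * algebraMap F[X] (RatFunc F) d ^ (2 * m - i) := by
      rw [← pow_add]
      congr 1
      omega
    have h5 : algebraMap F[X] (RatFunc F) a₁ / algebraMap F[X] (RatFunc F) d₁ *
        algebraMap F[X] (RatFunc F) d = algebraMap F[X] (RatFunc F) a := by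
      rw [hd, ha, map_mul, map_mul]
      field_simp
    have h6 : algebraMap F[X] (RatFunc F) b₁ / algebraMap F[X] (RatFunc F) d₂ *
        algebraMap F[X] (RatFunc F) d = algebraMap F[X] (RatFunc F) b := by
      rw [hd, hb, map_mul, map_mul]
      field_simp
    rw [← h5, ← h6, h4, mul_pow, mul_pow]
    ring
  set G : F[X] := ∑ i ∈ Finset.range (2 * m + 1), C (c i) * a ^ i * b ^ (2 * m - i) with hG
  set n := max a.natDegree b.natDegree with hn
  have h7 : G.coeff (2 * m * n) ≠ 0 := by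
    rw [hG, coeff_form c (2 * m) a b n (le_max_left _ _) (le_max_right _ _)]
    apply hc
    rcases le_total a.natDegree b.natDegree with hle | hle
    · have hnb : n = b.natDegree := by rw [hn]; exact max_eq_right hle
      by_cases hb0 : b = 0
      · left
        have ha0 : a ≠ 0 := by
          rcases hab with h | h
          · exact h
          · exact absurd hb0 h
        have : a.natDegree = n := by
          rw [hnb]
          rw [hb0, natDegree_zero] at hle
          rw [hb0, natDegree_zero]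
          omega
        rw [← this]
        exact leadingCoeff_ne_zero.2 ha0
      · right
        rw [hnb]
        exact leadingCoeff_ne_zero.2 hb0
    · have hna : n = a.natDegree := by rw [hn]; exact max_eq_left hle
      by_cases ha0 : a = 0
      · right
        have hb0 : b ≠ 0 := by
          rcases hab with h | h
          · exact absurd ha0 h
          · exact h
        have : b.natDegree = n := by
          rw [hna]
          rw [ha0, natDegree_zero] at hle
          rw [ha0, natDegree_zero]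
          omega
        rw [← this]
        exact leadingCoeff_ne_zero.2 hb0
      · left
        rw [hna]
        exact leadingCoeff_ne_zero.2 ha0
  have hG0 : G ≠ 0 := by
    intro h0
    rw [h0, coeff_zero] at h7
    exact h7 rfl
  have hGd : G.natDegree = 2 * m * n :=
    le_antisymm (natDegree_form_le c (2 * m) a b n (le_max_left _ _) (le_max_right _ _))
      (le_natDegree_of_ne_zero h7)
  have he0 : e ≠ 0 := by
    rintro rfl
    have : f ^ 2 * G = 0 := by rw [← key]; ring
    exact mul_ne_zero (pow_ne_zero 2 hf0) hG0 this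
  have h8 := congrArg natDegree key
  rw [natDegree_mul (mul_ne_zero X_ne_zero (pow_ne_zero _ he0)) (pow_ne_zero _ hd0),
    natDegree_mul X_ne_zero (pow_ne_zero _ he0), natDegree_mul (pow_ne_zero _ hf0) hG0,
    natDegree_X, natDegree_pow, natDegree_pow, natDegree_pow, hGd] at h8
  have h9 : 2 * m * d.natDegree = 2 * (m * d.natDegree) := by ring
  have h10 : 2 * m * n = 2 * (m * n) := by ring
  omega


theorem form_eq {L : Type} [Field L] (P : ℤ[X]) (d : ℕ) (hd : P.natDegree ≤ d) (x z : L)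
    (hz : z ≠ 0) :
    ∑ i ∈ Finset.range (d + 1), (P.coeff i : L) * x ^ i * z ^ (d - i) =
      z ^ d * aeval (x / z) P := by
  rw [aeval_eq_sum_range' (n := d + 1) (by omega), Finset.mul_sum]
  refine Finset.sum_congr rfl fun i hi => ?_
  have hi' : i ≤ d := by
    have := Finset.mem_range.1 hi
    omega
  have h1 : z ^ d = z ^ i * z ^ (d - i) := by
    rw [← pow_add]
    congr 1
    omega
  rw [h1, div_pow, zsmul_eq_mul]
  field_simp

theorem form_zero {L : Type} [Field L] (P : ℤ[X]) (d : ℕ) (x : L) :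
    ∑ i ∈ Finset.range (d + 1), (P.coeff i : L) * x ^ i * 0 ^ (d - i) = (P.coeff d : L) * x ^ d := by
  rw [Finset.sum_range_succ, Nat.sub_self, pow_zero, mul_one]
  rw [Finset.sum_eq_zero, zero_add]
  intro i hi
  have hi' : d - i ≠ 0 := by
    have := Finset.mem_range.1 hi
    omega
  rw [zero_pow hi', mul_zero]

/-- A prime does not divide a form at a coprime pair if the polynomial has no roots modulo it and
the prime does not divide the leading coefficient. -/
theorem not_dvd_form (P : ℤ[X]) (p : ℕ) (hp : p.Prime)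
    (hroot : ∀ r : ZMod p, (P.map (Int.castRingHom (ZMod p))).eval r ≠ 0)
    (hlead : ¬ (p : ℤ) ∣ P.leadingCoeff) (a b : ℤ) (hab : IsCoprime a b) :
    ¬ (p : ℤ) ∣ ∑ i ∈ Finset.range (P.natDegree + 1), P.coeff i * a ^ i * b ^ (P.natDegree - i) := by
  intro h
  have hf : Fact p.Prime := ⟨hp⟩
  rw [← ZMod.intCast_zmod_eq_zero_iff_dvd] at h
  push_cast at h
  by_cases hb : (b : ZMod p) = 0
  · rw [hb, form_zero (L := ZMod p) P P.natDegree a] at h
    rcases mul_eq_zero.1 h with h1 | h1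
    · exact hlead ((ZMod.intCast_zmod_eq_zero_iff_dvd _ _).1 h1)
    · have h2 : (a : ZMod p) = 0 := eq_zero_of_pow_eq_zero h1
      rw [ZMod.intCast_zmod_eq_zero_iff_dvd] at h2 hb
      exact (Nat.prime_iff_prime_int.1 hp).not_isUnit (hab.isUnit_of_dvd' h2 hb)
  · rw [form_eq P P.natDegree le_rfl _ _ hb] at h
    rcases mul_eq_zero.1 h with h1 | h1
    · exact hb (eq_zero_of_pow_eq_zero h1)
    · apply hroot ((a : ZMod p) / (b : ZMod p))
      rw [eval_map, ← eq_intCast (algebraMap ℤ (ZMod p))] at *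
      exact h1

/-- Every rational point of the projective line has coprime integral coordinates. -/
theorem exists_coprime (x z : ℚ) (h : x ≠ 0 ∨ z ≠ 0) :
    ∃ (a b : ℤ) (l : ℚ), IsCoprime a b ∧ l ≠ 0 ∧ x = l * a ∧ z = l * b := by
  by_cases hz : z = 0
  · refine ⟨1, 0, x, isCoprime_one_left, ?_, by simp, by simp [hz]⟩
    rcases h with h | h
    · exact h
    · exact absurd hz h
  · have hd : ((x / z).den : ℚ) ≠ 0 := by exact_mod_cast (x / z).den_nz
    refine ⟨(x / z).num, (x / z).den, z / (x / z).den, ?_, div_ne_zero hz hd, ?_, ?_⟩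
    · rw [Int.isCoprime_iff_gcd_eq_one]
      exact (x / z).reduced
    · have h1 : (x / z) = (x / z).num / (x / z).den := (Rat.num_div_den _).symm
      have h2 : x = (x / z) * z := by field_simp
      conv_lhs => rw [h2, h1]
      field_simp
    · push_cast
      field_simp

theorem form_smul (P : ℤ[X]) (d : ℕ) (l a b : ℚ) :
    ∑ i ∈ Finset.range (d + 1), (P.coeff i : ℚ) * (l * a) ^ i * (l * b) ^ (d - i) =
      l ^ d * ∑ i ∈ Finset.range (d + 1), (P.coeff i : ℚ) * a ^ i * b ^ (d - i) := by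
  rw [Finset.mul_sum]
  refine Finset.sum_congr rfl fun i hi => ?_
  have hi' : i ≤ d := by
    have := Finset.mem_range.1 hi
    omega
  have h1 : l ^ d = l ^ i * l ^ (d - i) := by
    rw [← pow_add]
    congr 1
    omega
  rw [h1, mul_pow, mul_pow]
  ring

/-- If `p * y ^ 2` is an integer, `y` rational, then it is divisible by `p`. -/
theorem dvd_of_sq (p : ℕ) (hp : p.Prime) (y : ℚ) (A : ℤ) (h : (p : ℚ) * y ^ 2 = A) :
    (p : ℤ) ∣ A := by
  have hp' : Prime (p : ℤ) := Nat.prime_iff_prime_int.1 hp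
  have h1 : (p : ℤ) * y.num ^ 2 = A * y.den ^ 2 := by
    have h2 : y = y.num / y.den := (Rat.num_div_den _).symm
    have hd : (y.den : ℚ) ≠ 0 := by exact_mod_cast y.den_nz
    rw [h2, div_pow] at h
    field_simp at h
    have h3 : (p : ℚ) * (y.num : ℚ) ^ 2 = A * (y.den : ℚ) ^ 2 := by linarith
    exact_mod_cast h3
  by_contra hA
  have h3 : (p : ℤ) ∣ A * (y.den : ℤ) ^ 2 := by rw [← h1]; exact dvd_mul_right _ _
  have h4 : (p : ℤ) ∣ (y.den : ℤ) := hp'.dvd_of_dvd_pow ((hp'.dvd_or_dvd h3).resolve_left hA)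
  obtain ⟨c, hc⟩ := h4
  have h5 : (p : ℤ) ∣ y.num ^ 2 := by
    have h6 : (p : ℤ) * y.num ^ 2 = p * (p * (A * c ^ 2)) := by
      rw [h1, hc]; ring
    have h7 := mul_left_cancel₀ hp'.ne_zero h6
    rw [h7]
    exact dvd_mul_right _ _
  have h8 : (p : ℤ) ∣ y.num := hp'.dvd_of_dvd_pow h5
  have h9 : IsCoprime y.num (y.den : ℤ) := by
    rw [Int.isCoprime_iff_gcd_eq_one]
    exact y.reduced
  exact hp'.not_isUnit (h9.isUnit_of_dvd' h8 ⟨c, hc⟩)

theorem caseA (P : ℤ[X]) (m : ℕ) (hd : P.natDegree = 2 * m) (p : ℕ) (hp : p.Prime)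
    (hroot : ∀ r : ZMod p, (P.map (Int.castRingHom (ZMod p))).eval r ≠ 0)
    (hlead : ¬ (p : ℤ) ∣ P.leadingCoeff) (x y z : ℚ) (hxz : x ≠ 0 ∨ z ≠ 0) :
    (p : ℚ) * y ^ 2 ≠
      ∑ i ∈ Finset.range (2 * m + 1), (P.coeff i : ℚ) * x ^ i * z ^ (2 * m - i) := by
  intro h
  obtain ⟨a, b, l, hab, hl, rfl, rfl⟩ := exists_coprime x z hxz
  rw [form_smul, mul_comm 2 m, pow_mul, mul_comm m 2] at h
  refine not_dvd_form P p hp hroot hlead a b hab (dvd_of_sq p hp (y / l ^ m) _ ?_)
  have hlm : l ^ m ≠ 0 := pow_ne_zero _ hl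
  rw [hd]
  push_cast
  rw [div_pow, mul_div_assoc', h]
  field_simp

/-- The integral polynomial of `c` times a root. -/
theorem exists_scaled (c : ℤ) (hc : c ≠ 0) (P : ℤ[X]) (hcP : P.leadingCoeff = c) (f : ℚ[X])
    (hf : Irreducible f) (hfP : f ∣ P.map (Int.castRingHom ℚ)) :
    ∃ g : ℤ[X], g.Monic ∧ Irreducible (g.map (Int.castRingHom ℚ)) ∧
      g.natDegree = f.natDegree ∧
      ∃ k : ℚ, k ≠ 0 ∧ (g.map (Int.castRingHom ℚ)).comp (C (c : ℚ) * X) = C k * f := by
  have hcQ : (c : ℚ) ≠ 0 := by exact_mod_cast hc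
  have hf0 : f ≠ 0 := hf.ne_zero
  obtain ⟨α, hα⟩ := IsAlgClosed.exists_aeval_eq_zero Qb f
    (degree_pos_of_irreducible hf).ne'
  have hαP : aeval α P = 0 := by
    obtain ⟨q, hq⟩ := hfP
    have h1 : aeval α (P.map (algebraMap ℤ ℚ)) = aeval α P := aeval_map_algebraMap ℚ α P
    rw [← h1]
    change aeval α (P.map (Int.castRingHom ℚ)) = 0
    rw [hq, map_mul, hα, zero_mul]
  have hint : IsIntegral ℤ (c • α) := by
    rw [← hcP]
    exact isIntegral_leadingCoeff_smul P α hαP
  have hmap : (minpoly ℤ (c • α)).map (Int.castRingHom ℚ) = minpoly ℚ (c • α) :=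
    (minpoly.isIntegrallyClosed_eq_field_fractions' ℚ hint).symm
  have hintQ : IsIntegral ℚ (c • α) := hint.tower_top
  have hcα : (c • α : Qb) = algebraMap ℚ Qb (c : ℚ) * α := by
    rw [zsmul_eq_mul]
    simp
  have hmon : (minpoly ℤ (c • α)).Monic := minpoly.monic hint
  have hdeg1 : (minpoly ℤ (c • α)).natDegree = (minpoly ℚ (c • α)).natDegree := by
    rw [← hmap, hmon.natDegree_map]
  have hF : aeval α ((minpoly ℚ (c • α)).comp (C (c : ℚ) * X)) = 0 := by
    rw [aeval_comp, map_mul, aeval_C, aeval_X, ← hcα]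
    exact minpoly.aeval ℚ _
  have hmin : minpoly ℚ α = f * C f.leadingCoeff⁻¹ := (minpoly.eq_of_irreducible hf hα).symm
  have hfF : f ∣ (minpoly ℚ (c • α)).comp (C (c : ℚ) * X) := by
    have h1 := minpoly.dvd ℚ α hF
    rw [hmin] at h1
    exact (dvd_mul_right _ _).trans h1
  have hlin : (C (c : ℚ) * X : ℚ[X]).natDegree = 1 := natDegree_C_mul_X _ hcQ
  have hFd : ((minpoly ℚ (c • α)).comp (C (c : ℚ) * X)).natDegree =
      (minpoly ℚ (c • α)).natDegree := by
    rw [natDegree_comp, hlin, mul_one]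
  have hle : (minpoly ℚ (c • α)).natDegree ≤ f.natDegree := by
    have h1 : aeval (c • α) (f.comp (C (c : ℚ)⁻¹ * X)) = 0 := by
      rw [aeval_comp, map_mul, aeval_C, aeval_X, hcα, ← mul_assoc, ← map_mul,
        inv_mul_cancel₀ hcQ, map_one, one_mul]
      exact hα
    have hlin' : (C (c : ℚ)⁻¹ * X : ℚ[X]).natDegree = 1 := natDegree_C_mul_X _ (inv_ne_zero hcQ)
    have h2 : f.comp (C (c : ℚ)⁻¹ * X) ≠ 0 := by
      intro h0
      have h3 : (f.comp (C (c : ℚ)⁻¹ * X)).natDegree = f.natDegree := by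
        rw [natDegree_comp, hlin', mul_one]
      rw [h0, natDegree_zero] at h3
      have h4 := hf.natDegree_pos
      omega
    have h3 := natDegree_le_of_dvd (minpoly.dvd ℚ _ h1) h2
    rw [natDegree_comp, hlin', mul_one] at h3
    exact h3
  obtain ⟨q, hq⟩ := hfF
  have hF0 : (minpoly ℚ (c • α)).comp (C (c : ℚ) * X) ≠ 0 := by
    intro h0
    rw [h0, natDegree_zero] at hFd
    have := minpoly.natDegree_pos hintQ
    omega
  have hq0 : q ≠ 0 := by
    rintro rfl
    rw [mul_zero] at hq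
    exact hF0 hq
  have hd := congrArg natDegree hq
  rw [natDegree_mul hf0 hq0, hFd] at hd
  have hqd : q.natDegree = 0 := by omega
  refine ⟨minpoly ℤ (c • α), hmon, ?_, by omega, q.coeff 0, ?_, ?_⟩
  · rw [hmap]
    exact minpoly.irreducible hintQ
  · intro h0
    rw [eq_C_of_natDegree_eq_zero hqd, h0, map_zero] at hq0
    exact hq0 rfl
  · rw [hmap, hq, mul_comm]
    congr 1
    exact eq_C_of_natDegree_eq_zero hqd

theorem clear_denominators (g h : ℤ[X]) (hgh : IsCoprime (g.map (Int.castRingHom ℚ))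
    (h.map (Int.castRingHom ℚ))) : ∃ D : ℤ, D ≠ 0 ∧ ∃ u v : ℤ[X], u * g + v * h = C D := by
  obtain ⟨u, v, huv⟩ := hgh
  obtain ⟨b₁, hb₁0, hb₁⟩ := IsLocalization.integerNormalization_spec (nonZeroDivisors ℤ) u
  obtain ⟨b₂, hb₂0, hb₂⟩ := IsLocalization.integerNormalization_spec (nonZeroDivisors ℤ) v
  refine ⟨b₁ * b₂, mul_ne_zero (nonZeroDivisors.ne_zero hb₁0) (nonZeroDivisors.ne_zero hb₂0),
    C (b₂ : ℤ) * IsLocalization.integerNormalization (nonZeroDivisors ℤ) u,
    C (b₁ : ℤ) * IsLocalization.integerNormalization (nonZeroDivisors ℤ) v, ?_⟩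
  apply map_injective (algebraMap ℤ ℚ) (algebraMap ℤ ℚ).injective_int
  rw [Polynomial.map_add, Polynomial.map_mul, Polynomial.map_mul, Polynomial.map_mul,
    Polynomial.map_mul, hb₁, hb₂, map_C, map_C, map_C]
  have h1 : ∀ (b : ℤ) (w : ℚ[X]), b • w = C (algebraMap ℤ ℚ b) * w := by
    intro b w
    rw [zsmul_eq_mul]
    simp
  change C ((algebraMap ℤ ℚ) ↑b₂) * ((b₁ : ℤ) • u) * map (Int.castRingHom ℚ) g +
    C ((algebraMap ℤ ℚ) ↑b₁) * ((b₂ : ℤ) • v) * map (Int.castRingHom ℚ) h = _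
  rw [h1, h1, map_mul, C_mul]
  linear_combination (C ((algebraMap ℤ ℚ) ↑b₁) * C ((algebraMap ℤ ℚ) ↑b₂)) * huv

theorem not_sq {N : ℕ} (p : Fin N → ℕ) (hN : 0 < N) (hp : ∀ n, (p n).Prime)
    (hinj : Function.Injective p) (s : ℚ) : ((∏ n, p n : ℕ) : ℚ) ≠ s ^ 2 := by
  intro h
  have hsf : Squarefree (∏ n, p n) := by
    refine Finset.squarefree_prod_of_pairwise_isCoprime ?_ ?_
    · intro i _ j _ hij
      exact Nat.coprime_iff_isRelPrime.1 ((Nat.coprime_primes (hp i) (hp j)).2 fun h => hij (hinj h))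
    · intro n _
      exact (hp n).prime.squarefree
  have hint : ∃ t : ℕ, ∏ n, p n = t ^ 2 := by
    have h1 : IsSquare ((∏ n, p n : ℕ) : ℚ) := ⟨s, by rw [h]; ring⟩
    rw [Rat.isSquare_natCast_iff] at h1
    obtain ⟨t, ht⟩ := h1
    exact ⟨t, by rw [ht]; ring⟩
  obtain ⟨t, ht⟩ := hint
  rw [ht] at hsf
  have h1 : IsUnit t := hsf t ⟨1, by ring⟩
  have h2 : t = 1 := Nat.isUnit_iff.1 h1
  rw [h2, one_pow] at ht
  have h3 : p ⟨0, hN⟩ ∣ ∏ n, p n := Finset.dvd_prod_of_mem p (Finset.mem_univ _)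
  rw [ht, Nat.dvd_one] at h3
  exact (hp _).one_lt.ne' h3

theorem caseB (P : ℤ[X]) (m : ℕ) (hd : P.natDegree = 2 * m) (hm : 0 < m) {r : ℕ}
    (f : Fin r → ℚ[X]) (hf : ∀ i, Irreducible (f i))
    (hP : P.map (Int.castRingHom ℚ) = ∏ i, f i) (hsq : Squarefree (P.map (Int.castRingHom ℚ)))
    (hroot : ∀ x : ℚ, aeval x P ≠ 0)
    (hodd : (Finset.univ.filter fun i => Odd (f i).natDegree).card ≠ 2) (B : ℕ) :
    ∃ T : ℕ, B < T ∧ ∀ x y z : ℚ, (x ≠ 0 ∨ z ≠ 0) → ((P.leadingCoeff * T : ℤ) : ℚ) * y ^ 2 ≠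
      ∑ i ∈ Finset.range (2 * m + 1), (P.coeff i : ℚ) * x ^ i * z ^ (2 * m - i) := by
  classical
  have hP0 : P ≠ 0 := by
    rintro rfl
    rw [natDegree_zero] at hd
    omega
  obtain ⟨c, hcP⟩ : ∃ c, c = P.leadingCoeff := ⟨_, rfl⟩
  have hc : c ≠ 0 := by rw [hcP]; exact leadingCoeff_ne_zero.2 hP0
  have hcQ : (c : ℚ) ≠ 0 := by exact_mod_cast hc
  have hfP : ∀ i, f i ∣ P.map (Int.castRingHom ℚ) := fun i => by
    rw [hP]; exact Finset.dvd_prod_of_mem f (Finset.mem_univ i)
  choose g hmon hirr hdeg k hk hcomp using fun i =>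
    exists_scaled c hc P hcP.symm (f i) (hf i) (hfP i)
  have hlin : (C (c : ℚ) * X : ℚ[X]).natDegree = 1 := natDegree_C_mul_X _ hcQ
  have hPd : (P.map (Int.castRingHom ℚ)).natDegree = 2 * m := by
    rw [natDegree_map_eq_of_injective (Int.castRingHom ℚ).injective_int, hd]
  have hsum : ∑ i, (f i).natDegree = 2 * m := by
    rw [← hPd, hP, natDegree_prod _ _ fun i _ => (hf i).ne_zero]
  have hne1 : ∀ i, 2 ≤ (f i).natDegree := by
    intro i
    have h1 := (hf i).natDegree_pos
    by_contra h2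
    have h3 : (f i).natDegree = 1 := by omega
    obtain ⟨x, hx⟩ := exists_root_of_degree_eq_one
      ((degree_eq_iff_natDegree_eq_of_pos Nat.one_pos).2 h3)
    apply hroot x
    have h4 : aeval x (P.map (algebraMap ℤ ℚ)) = aeval x P := aeval_map_algebraMap ℚ x P
    rw [← h4]
    change aeval x (P.map (Int.castRingHom ℚ)) = 0
    obtain ⟨q, hq⟩ := hfP i
    rw [hq, map_mul, coe_aeval_eq_eval, hx.eq_zero, zero_mul]
  have hndvd : ∀ i j, i ≠ j → ¬ f i ∣ f j := by
    intro i j hij hdvd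
    have h1 : f i * f i ∣ P.map (Int.castRingHom ℚ) := by
      refine (mul_dvd_mul_left (f i) hdvd).trans ?_
      rw [hP]
      have h2 := Finset.mul_prod_erase Finset.univ f (Finset.mem_univ i)
      rw [← h2]
      exact mul_dvd_mul_left _ (Finset.dvd_prod_of_mem f
        (Finset.mem_erase.2 ⟨hij.symm, Finset.mem_univ j⟩))
    exact (hf i).not_isUnit (hsq _ h1)
  have hcop : ∀ i j, i ≠ j → IsCoprime ((g i).map (Int.castRingHom ℚ))
      ((g j).map (Int.castRingHom ℚ)) := by
    intro i j hij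
    rw [(hirr i).coprime_iff_not_dvd]
    rintro ⟨q, hq⟩
    apply hndvd i j hij
    have h1 := congrArg (fun w => w.comp (C (c : ℚ) * X)) hq
    simp only [mul_comp] at h1
    rw [hcomp i, hcomp j] at h1
    have h2 : f j = f i * (C (k i) * q.comp (C (c : ℚ) * X) * C (k j)⁻¹) := by
      have h3 : C (k j)⁻¹ * C (k j) = (1 : ℚ[X]) := by
        rw [← C_mul, inv_mul_cancel₀ (hk j), C_1]
      calc f j = (C (k j)⁻¹ * C (k j)) * f j := by rw [h3, one_mul]
        _ = C (k j)⁻¹ * (C (k j) * f j) := by ring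
        _ = _ := by rw [h1]; ring
    exact ⟨_, h2⟩
  have hD : ∃ D : ℤ, D ≠ 0 ∧ ∀ i j, i ≠ j → ∃ u v : ℤ[X], u * g i + v * g j = C D := by
    choose D hD u v huv using fun i j (hij : i ≠ j) => clear_denominators (g i) (g j) (hcop i j hij)
    let E : Fin r × Fin r → ℤ := fun x => if h : x.1 ≠ x.2 then D x.1 x.2 h else 1
    refine ⟨∏ x, E x, Finset.prod_ne_zero_iff.2 fun x _ => ?_, fun i j hij => ?_⟩
    · simp only [E]
      split_ifs with h
      · exact hD _ _ h
      · exact one_ne_zero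
    · obtain ⟨q, hq⟩ := Finset.dvd_prod_of_mem E (Finset.mem_univ (i, j))
      have hE : E (i, j) = D i j hij := dif_pos hij
      refine ⟨C q * u i j hij, C q * v i j hij, ?_⟩
      rw [hq, hE, C_mul, ← huv i j hij]
      ring
  obtain ⟨D, hD0, hco⟩ := hD
  have hne : Nonempty (Fin r) := by
    by_contra h
    rw [not_nonempty_iff] at h
    rw [Finset.univ_eq_empty, Finset.sum_empty] at hsum
    omega
  have hsum' : ∑ i, (g i).natDegree = 2 * m := by
    rw [← hsum]
    exact Finset.sum_congr rfl fun i _ => hdeg i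
  have hfilt : (Finset.univ.filter fun i => Odd (g i).natDegree) =
      Finset.univ.filter fun i => Odd (f i).natDegree := by
    ext i
    simp [hdeg i]
  have hevencard : Even (Finset.univ.filter fun i => Odd (f i).natDegree).card := by
    rw [← Finset.even_sum_iff_even_card_odd, hsum]
    exact even_two_mul m
  have hcard : (Finset.univ.filter fun i => Odd (g i).natDegree).card = 0 ∨
      4 ≤ (Finset.univ.filter fun i => Odd (g i).natDegree).card := by
    rw [hfilt]
    obtain ⟨w, hw⟩ := hevencard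
    omega
  obtain ⟨N, p, hN, hp, hinj, hcore⟩ := Core.main g hmon hirr (fun i => by rw [hdeg i]; exact hne1 i)
    (by rw [hsum']; exact even_two_mul m) hcard D hD0 hco B
  refine ⟨∏ n, p n, ?_, ?_⟩
  · refine (hp ⟨0, hN⟩).2.trans_le (Nat.le_of_dvd (Finset.prod_pos fun n _ => (hp n).1.pos) ?_)
    exact Finset.dvd_prod_of_mem p (Finset.mem_univ _)
  intro x y z hxz h
  rw [← hcP] at h
  have hprod : ∀ w : ℚ, ∏ i, aeval (c * w : ℚ) (g i) = (∏ i, k i) * aeval w P := by
    intro w
    have h1 : ∀ i, aeval (c * w : ℚ) (g i) = k i * (f i).eval w := by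
      intro i
      have h2 := congrArg (fun q => eval w q) (hcomp i)
      simp only [eval_comp, eval_mul, eval_C, eval_X] at h2
      rw [← h2, eval_map]
      rfl
    rw [Finset.prod_congr rfl fun i _ => h1 i, Finset.prod_mul_distrib, ← eval_prod, ← hP, eval_map]
    rfl
  have hK : (∏ i, k i) * c = (c : ℚ) ^ (2 * m) := by
    have h1 : ∀ i, (c : ℚ) ^ (f i).natDegree = k i * (f i).leadingCoeff := by
      intro i
      have h2 := congrArg leadingCoeff (hcomp i)
      rw [leadingCoeff_comp (by rw [hlin]; exact one_ne_zero), leadingCoeff_mul, leadingCoeff_C,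
        leadingCoeff_X, mul_one, ((hmon i).map _).leadingCoeff, one_mul,
        (hmon i).natDegree_map, hdeg i, leadingCoeff_mul, leadingCoeff_C] at h2
      exact h2
    have h3 : ∏ i, (c : ℚ) ^ (f i).natDegree = (∏ i, k i) * ∏ i, (f i).leadingCoeff := by
      rw [← Finset.prod_mul_distrib]
      exact Finset.prod_congr rfl fun i _ => h1 i
    rw [Finset.prod_pow_eq_pow_sum, hsum, ← leadingCoeff_prod, ← hP,
      leadingCoeff_map_of_injective (Int.castRingHom ℚ).injective_int, ← hcP] at h3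
    exact h3.symm
  by_cases hz : z = 0
  · subst hz
    have hx : x ≠ 0 := by
      rcases hxz with h1 | h1
      · exact h1
      · exact absurd rfl h1
    rw [form_zero, ← hd] at h
    change _ = (P.leadingCoeff : ℚ) * _ at h
    rw [← hcP, hd] at h
    push_cast at h
    have h1 : ((∏ n, (p n : ℚ))) * y ^ 2 = x ^ (2 * m) := by
      apply mul_left_cancel₀ hcQ
      rw [← h]
      ring
    have hy : y ≠ 0 := by
      rintro rfl
      rw [zero_pow two_ne_zero, mul_zero] at h1
      exact pow_ne_zero _ hx h1.symm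
    apply not_sq p hN (fun n => (hp n).1) hinj (x ^ m / y)
    push_cast
    rw [div_pow, eq_div_iff (pow_ne_zero 2 hy), h1]
    ring
  · rw [form_eq P (2 * m) hd.le x z hz] at h
    apply hcore (c * (x / z)) (c ^ m * y / z ^ m)
    rw [hprod]
    have hzm : z ^ m ≠ 0 := pow_ne_zero _ hz
    have h1 : aeval (x / z) P = ((c * (∏ n, p n : ℕ) : ℤ) : ℚ) * y ^ 2 / z ^ (2 * m) := by
      rw [h]
      field_simp
    rw [h1]
    push_cast
    have h2 : z ^ (2 * m) = (z ^ m) ^ 2 := by ring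
    rw [h2, div_pow, mul_pow]
    field_simp
    have h3 : (∏ i, k i) * c = ((c : ℚ) ^ m) ^ 2 := by rw [hK]; ring
    linear_combination (∏ n, (p n : ℚ)) * y ^ 2 * h3

end Pool.TP.Final
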