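import Pool.Agent.TP.Defs

/-!
The combinatorial core: there is no strategy in the game with signs.
-/

open scoped BigOperators

namespace Pool.TP

namespace Comb

set_option linter.unusedSectionVars false

variable {Ω X : Type} [Fintype Ω] [DecidableEq Ω] [Fintype X] [DecidableEq X]

/-- The set `S` contains all odd colours, and there is at least one. -/
def Full (odd : Ω → Prop) (S : Finset Ω) : Prop := (∃ O, odd O) ∧ ∀ O, odd O → O ∈ S

open Classical in
/-- The weight of a set of colours. -/
noncomputable def wt (odd : Ω → Prop) (S : Finset Ω) : ℝ := if Full odd S then 2 else 1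

/-- Colours used after `k`. -/
def ugt (π : X → Ω) {N : ℕ} (S : Finset Ω) (c : Fin N → X) (k : Fin N) : Finset Ω :=
  S ∪ (Finset.univ.filter (fun m => k < m)).image (fun m => π (c m))

/-- Colours used from `k` on. -/
def uge (π : X → Ω) {N : ℕ} (S : Finset Ω) (c : Fin N → X) (k : Fin N) : Finset Ω :=
  S ∪ (Finset.univ.filter (fun m => k ≤ m)).image (fun m => π (c m))

/-- The partition function. -/
noncomputable def part (π : X → Ω) (odd : Ω → Prop) (φ : X → ℝ) (N : ℕ) (S : Finset Ω) : ℝ :=
  ∑ c : Fin N → X, ∏ k, (φ (c k) * wt odd (uge π S c k) *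
    (1 / 2 : ℝ) ^ ((ugt π S c k).erase (π (c k))).card)

theorem ugt_snoc (π : X → Ω) {N : ℕ} (S : Finset Ω) (c : Fin N → X) (α : X) (k : Fin N) :
    ugt π S (Fin.snoc (α := fun _ => X) c α) k.castSucc = ugt π (insert (π α) S) c k := by
  ext O
  simp only [ugt, Finset.mem_union, Finset.mem_image, Finset.mem_filter, Finset.mem_univ,
    true_and, Finset.mem_insert]
  constructor
  · rintro (h | ⟨m, hm, rfl⟩)
    · exact Or.inl (Or.inr h)
    · induction m using Fin.lastCases with
      | last => left; left; simp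
      | cast m =>
        right
        refine ⟨m, by simpa using hm, by simp⟩
  · rintro ((h | h) | ⟨m, hm, rfl⟩)
    · right
      refine ⟨Fin.last N, Fin.castSucc_lt_last k, by simp [h]⟩
    · exact Or.inl h
    · right
      refine ⟨m.castSucc, by simpa using hm, by simp⟩

theorem uge_snoc (π : X → Ω) {N : ℕ} (S : Finset Ω) (c : Fin N → X) (α : X) (k : Fin N) :
    uge π S (Fin.snoc (α := fun _ => X) c α) k.castSucc = uge π (insert (π α) S) c k := by
  ext O
  simp only [uge, Finset.mem_union, Finset.mem_image, Finset.mem_filter, Finset.mem_univ,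
    true_and, Finset.mem_insert]
  constructor
  · rintro (h | ⟨m, hm, rfl⟩)
    · exact Or.inl (Or.inr h)
    · induction m using Fin.lastCases with
      | last => left; left; simp
      | cast m =>
        right
        refine ⟨m, by simpa using hm, by simp⟩
  · rintro ((h | h) | ⟨m, hm, rfl⟩)
    · right
      refine ⟨Fin.last N, (Fin.castSucc_lt_last k).le, by simp [h]⟩
    · exact Or.inl h
    · right
      refine ⟨m.castSucc, by simpa using hm, by simp⟩

theorem ugt_last (π : X → Ω) {N : ℕ} (S : Finset Ω) (c : Fin N → X) (α : X) :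
    ugt π S (Fin.snoc (α := fun _ => X) c α) (Fin.last N) = S := by
  ext O
  simp only [ugt, Finset.mem_union, Finset.mem_image, Finset.mem_filter, Finset.mem_univ,
    true_and]
  constructor
  · rintro (h | ⟨m, hm, rfl⟩)
    · exact h
    · exact absurd hm (not_lt.mpr (Fin.le_last m))
  · exact Or.inl

theorem uge_last (π : X → Ω) {N : ℕ} (S : Finset Ω) (c : Fin N → X) (α : X) :
    uge π S (Fin.snoc (α := fun _ => X) c α) (Fin.last N) = insert (π α) S := by
  ext O
  simp only [uge, Finset.mem_union, Finset.mem_image, Finset.mem_filter, Finset.mem_univ,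
    true_and, Finset.mem_insert]
  constructor
  · rintro (h | ⟨m, hm, rfl⟩)
    · exact Or.inr h
    · have : m = Fin.last N := le_antisymm (Fin.le_last m) hm
      subst this
      left; simp
  · rintro (h | h)
    · right
      exact ⟨Fin.last N, le_rfl, by simp [h]⟩
    · exact Or.inl h

theorem part_succ (π : X → Ω) (odd : Ω → Prop) (φ : X → ℝ) (N : ℕ) (S : Finset Ω) :
    part π odd φ (N + 1) S = ∑ α : X, φ α * wt odd (insert (π α) S) *
      (1 / 2 : ℝ) ^ (S.erase (π α)).card * part π odd φ N (insert (π α) S) := by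
  unfold part
  rw [← (Fin.snocEquiv (fun _ : Fin (N + 1) => X)).sum_comp, Fintype.sum_prod_type]
  refine Finset.sum_congr rfl fun α _ => ?_
  rw [Finset.mul_sum]
  refine Finset.sum_congr rfl fun c _ => ?_
  rw [Fin.prod_univ_castSucc]
  have h : (Fin.snocEquiv (fun _ : Fin (N + 1) => X)) (α, c) =
      Fin.snoc (α := fun _ => X) c α := rfl
  rw [h, ugt_last, uge_last]
  simp only [Fin.snoc_last, Fin.snoc_castSucc, ugt_snoc, uge_snoc]
  ring

theorem wt_nonneg (odd : Ω → Prop) (S : Finset Ω) : 0 ≤ wt odd S := by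
  unfold wt; split_ifs <;> norm_num

theorem wt_le_two (odd : Ω → Prop) (S : Finset Ω) : wt odd S ≤ 2 := by
  unfold wt; split_ifs <;> norm_num

theorem two_mul_le (n : ℕ) : ((n + 1 : ℕ) : ℝ) * (1 / 2 : ℝ) ^ n ≤ 1 := by
  induction n with
  | zero => norm_num
  | succ n ih =>
    have h0 : (0 : ℝ) ≤ (1 / 2 : ℝ) ^ n := by positivity
    have h1 : ((n + 1 + 1 : ℕ) : ℝ) ≤ 2 * ((n + 1 : ℕ) : ℝ) := by push_cast; linarith [Nat.cast_nonneg (α := ℝ) n]
    rw [pow_succ]
    nlinarith

theorem two_mul_le' (n : ℕ) (hn : 3 ≤ n) : 2 * ((n + 1 : ℕ) : ℝ) * (1 / 2 : ℝ) ^ n ≤ 1 := by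
  induction n, hn using Nat.le_induction with
  | base => norm_num
  | succ n hn ih =>
    have h0 : (0 : ℝ) ≤ (1 / 2 : ℝ) ^ n := by positivity
    have h1 : ((n + 1 + 1 : ℕ) : ℝ) ≤ 2 * ((n + 1 : ℕ) : ℝ) := by push_cast; linarith [Nat.cast_nonneg (α := ℝ) n]
    rw [pow_succ]
    nlinarith

/-- The diagonal coefficient is at most one. -/
theorem coef_le (odd : Ω → Prop) [DecidablePred odd]
    (hodd : (Finset.univ.filter odd).card = 0 ∨ 4 ≤ (Finset.univ.filter odd).card)
    (S : Finset Ω) (hS : S.Nonempty) :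
    wt odd S * (S.card : ℝ) * (1 / 2 : ℝ) ^ (S.card - 1) ≤ 1 := by
  obtain ⟨n, hn⟩ : ∃ n, S.card = n + 1 := ⟨S.card - 1, by have := hS.card_pos; omega⟩
  rw [hn, Nat.add_sub_cancel]
  unfold wt
  split_ifs with h
  · refine two_mul_le' n ?_
    obtain ⟨⟨O, hO⟩, h2⟩ := h
    have h3 : Finset.univ.filter odd ⊆ S := by
      intro O' hO'
      exact h2 O' (by simpa using hO')
    have h4 := Finset.card_le_card h3
    rcases hodd with h5 | h5
    · rw [Finset.card_eq_zero] at h5
      have : O ∈ Finset.univ.filter odd := by simpa using hO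
      rw [h5] at this
      simp at this
    · omega
  · rw [one_mul]; exact two_mul_le n

theorem part_bound (π : X → Ω) (odd : Ω → Prop) [DecidablePred odd]
    (hodd : (Finset.univ.filter odd).card = 0 ∨ 4 ≤ (Finset.univ.filter odd).card)
    (φ : X → ℝ) (hφ : ∀ α, 0 ≤ φ α) (θ : ℝ) (hθ0 : 0 ≤ θ) (hθ1 : θ ≤ 1)
    (hθ : ∀ O, (∑ α with π α = O, φ α) ≤ θ) (K : ℝ) (hK : 1 ≤ K) (N : ℕ) (S : Finset Ω) :
    part π odd φ N S ≤ K ^ (Fintype.card Ω - S.card) *
      (θ + 2 * (Fintype.card Ω : ℝ) / K) ^ N := by
  set lam : ℝ := θ + 2 * (Fintype.card Ω : ℝ) / K with hlam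
  have hlam0 : 0 ≤ lam := by positivity
  have hK0 : 0 < K := by linarith
  induction N generalizing S with
  | zero =>
    have : part π odd φ 0 S = 1 := by
      unfold part
      simp
    rw [this, pow_zero, mul_one]
    exact one_le_pow₀ hK
  | succ N ih =>
    rw [part_succ]
    have hnn : ∀ α, 0 ≤ φ α * wt odd (insert (π α) S) * (1 / 2 : ℝ) ^ (S.erase (π α)).card := by
      intro α
      have := hφ α
      have := wt_nonneg odd (insert (π α) S)
      positivity
    -- regroup by colour
    have h1 : (∑ α : X, φ α * wt odd (insert (π α) S) *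
        (1 / 2 : ℝ) ^ (S.erase (π α)).card * part π odd φ N (insert (π α) S)) ≤
        ∑ α : X, φ α * (wt odd (insert (π α) S) *
        (1 / 2 : ℝ) ^ (S.erase (π α)).card * (K ^ (Fintype.card Ω - (insert (π α) S).card) *
          lam ^ N)) := by
      refine Finset.sum_le_sum fun α _ => ?_
      have := mul_le_mul_of_nonneg_left (ih (insert (π α) S)) (hnn α)
      calc _ ≤ _ := this
        _ = _ := by ring
    refine h1.trans ?_
    have h2 : (∑ α : X, φ α * (wt odd (insert (π α) S) *
        (1 / 2 : ℝ) ^ (S.erase (π α)).card * (K ^ (Fintype.card Ω - (insert (π α) S).card) *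
          lam ^ N))) = ∑ O : Ω, (∑ α with π α = O, φ α) * (wt odd (insert O S) *
        (1 / 2 : ℝ) ^ (S.erase O).card * (K ^ (Fintype.card Ω - (insert O S).card) *
          lam ^ N)) := by
      rw [← Finset.sum_fiberwise Finset.univ π]
      refine Finset.sum_congr rfl fun O _ => ?_
      rw [Finset.sum_mul]
      refine Finset.sum_congr rfl fun α hα => ?_
      rw [Finset.mem_filter] at hα
      rw [hα.2]
    rw [h2]
    have hf0 : ∀ O, 0 ≤ ∑ α with π α = O, φ α := fun O => Finset.sum_nonneg fun α _ => hφ α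
    have hKN : 0 ≤ K ^ (Fintype.card Ω - S.card) * lam ^ N := by positivity
    rw [← Finset.sum_add_sum_compl S]
    have hin : (∑ O ∈ S, (∑ α with π α = O, φ α) * (wt odd (insert O S) *
        (1 / 2 : ℝ) ^ (S.erase O).card * (K ^ (Fintype.card Ω - (insert O S).card) *
          lam ^ N))) ≤ θ * (K ^ (Fintype.card Ω - S.card) * lam ^ N) := by
      rcases S.eq_empty_or_nonempty with hS | hS
      · subst hS
        simp only [Finset.sum_empty]
        positivity
      · have h3 : ∀ O ∈ S, (∑ α with π α = O, φ α) * (wt odd (insert O S) *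
            (1 / 2 : ℝ) ^ (S.erase O).card * (K ^ (Fintype.card Ω - (insert O S).card) *
            lam ^ N)) ≤ θ * (wt odd S * (1 / 2 : ℝ) ^ (S.card - 1) *
              (K ^ (Fintype.card Ω - S.card) * lam ^ N)) := by
          intro O hO
          rw [Finset.insert_eq_of_mem hO, Finset.card_erase_of_mem hO]
          refine mul_le_mul_of_nonneg_right (hθ O) ?_
          have := wt_nonneg odd S
          positivity
        refine (Finset.sum_le_sum h3).trans ?_
        rw [Finset.sum_const, nsmul_eq_mul]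
        have h4 := coef_le odd hodd S hS
        calc (S.card : ℝ) * (θ * (wt odd S * (1 / 2 : ℝ) ^ (S.card - 1) *
              (K ^ (Fintype.card Ω - S.card) * lam ^ N)))
            = (wt odd S * (S.card : ℝ) * (1 / 2 : ℝ) ^ (S.card - 1)) *
              (θ * (K ^ (Fintype.card Ω - S.card) * lam ^ N)) := by ring
          _ ≤ 1 * (θ * (K ^ (Fintype.card Ω - S.card) * lam ^ N)) := by
              refine mul_le_mul_of_nonneg_right h4 (by positivity)
          _ = _ := one_mul _
    have hout : (∑ O ∈ Sᶜ, (∑ α with π α = O, φ α) * (wt odd (insert O S) *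
        (1 / 2 : ℝ) ^ (S.erase O).card * (K ^ (Fintype.card Ω - (insert O S).card) *
          lam ^ N))) ≤ 2 * (Fintype.card Ω : ℝ) / K *
            (K ^ (Fintype.card Ω - S.card) * lam ^ N) := by
      have h3 : ∀ O ∈ Sᶜ, (∑ α with π α = O, φ α) * (wt odd (insert O S) *
          (1 / 2 : ℝ) ^ (S.erase O).card * (K ^ (Fintype.card Ω - (insert O S).card) *
          lam ^ N)) ≤ 2 / K * (K ^ (Fintype.card Ω - S.card) * lam ^ N) := by
        intro O hO
        rw [Finset.mem_compl] at hO
        rw [Finset.card_insert_of_notMem hO]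
        have hlt : S.card < Fintype.card Ω := by
          have h5 : (insert O S).card ≤ Fintype.card Ω := Finset.card_le_univ _
          rw [Finset.card_insert_of_notMem hO] at h5
          omega
        have h6 : K ^ (Fintype.card Ω - S.card) = K ^ (Fintype.card Ω - (S.card + 1)) * K := by
          rw [← pow_succ]; congr 1; omega
        have h7 : (2 / K * (K ^ (Fintype.card Ω - S.card) * lam ^ N)) =
            1 * (2 * 1 * (K ^ (Fintype.card Ω - (S.card + 1)) * lam ^ N)) := by
          rw [h6]; field_simp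
        rw [h7]
        refine mul_le_mul ((hθ O).trans hθ1) ?_ ?_ zero_le_one
        · refine mul_le_mul_of_nonneg_right ?_ (by positivity)
          refine mul_le_mul (wt_le_two _ _) ?_ (by positivity) (by norm_num)
          exact pow_le_one₀ (by norm_num) (by norm_num)
        · have := wt_nonneg odd (insert O S)
          positivity
      refine (Finset.sum_le_sum h3).trans ?_
      rw [Finset.sum_const, nsmul_eq_mul]
      have h8 : ((Sᶜ : Finset Ω).card : ℝ) ≤ (Fintype.card Ω : ℝ) := by
        exact_mod_cast Finset.card_le_univ _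
      calc ((Sᶜ : Finset Ω).card : ℝ) * (2 / K * (K ^ (Fintype.card Ω - S.card) * lam ^ N))
          ≤ (Fintype.card Ω : ℝ) * (2 / K * (K ^ (Fintype.card Ω - S.card) * lam ^ N)) :=
            mul_le_mul_of_nonneg_right h8 (by positivity)
        _ = _ := by ring
    calc _ ≤ θ * (K ^ (Fintype.card Ω - S.card) * lam ^ N) + 2 * (Fintype.card Ω : ℝ) / K *
            (K ^ (Fintype.card Ω - S.card) * lam ^ N) := add_le_add hin hout
      _ = K ^ (Fintype.card Ω - S.card) * lam ^ (N + 1) := by
        rw [pow_succ]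
        have : lam = θ + 2 * (Fintype.card Ω : ℝ) / K := hlam
        calc _ = (θ + 2 * (Fintype.card Ω : ℝ) / K) * (K ^ (Fintype.card Ω - S.card) * lam ^ N) := by
              ring
          _ = _ := by rw [← this]; ring

/-! ### Counting plays -/

/-- The pair `(m, k)` is determined by the earlier rows. -/
def Det (π : X → Ω) {N : ℕ} (c : Fin N → X) (p : Fin N × Fin N) : Prop :=
  p.2 < p.1 ∧ π (c p.2) ≠ π (c p.1) ∧ ∀ m', p.1 < m' → π (c m') ≠ π (c p.1)

open Classical in
theorem fiber_card {T V : Type} [Fintype T] [Fintype V] (π : X → Ω) (fix : T → X → Prop)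
    (odd : Ω → Prop) [DecidableRel fix] [DecidablePred odd] {N : ℕ}
    (c : Play T N → Fin N → X) (v : Play T N → V) (β : Play T N → Fin N → ℤˣ)
    (χ : Fin N → Fin N → Play T N → ℤˣ) (f : Fin N → Ω → V → X → Play T N → ℤˣ)
    (h1 : ∀ x k, fix (x k).1 (c x k))
    (h2 : ∀ k m x, k < m → χ k m x = (x m).2 k)
    (h3 : ∀ k m x y, m ≤ k → (∀ j ≤ k, x j = y j) → χ k m x = χ k m y)
    (h4 : ∀ k O v α x y, (∀ j ≤ k, x j = y j) → f k O v α x = f k O v α y)
    (h5 : ∀ x k O, O ≠ π (c x k) → (∏ m with π (c x m) = O, χ k m x) =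
        (if odd O then β x k else 1) * f k O (v x) (c x k) x) (c0 : Fin N → X) :
    Fintype.card {x : Play T N // c x = c0} ≤
      Fintype.card (V × ({k // Full odd (uge π ∅ c0 k)} → ℤˣ) ×
        (∀ k, {σ // fix σ (c0 k)}) × ({p : Fin N × Fin N // ¬ Det π c0 p} → ℤˣ)) := by
  refine Fintype.card_le_of_injective (fun x => (v x.1, (fun k => β x.1 k.1),
    (fun k => ⟨(x.1 k).1, by have := h1 x.1 k; rwa [x.2] at this⟩),
    (fun p => (x.1 p.1.1).2 p.1.2))) ?_
  rintro ⟨x, hx⟩ ⟨y, hy⟩ hxy
  simp only [Prod.mk.injEq] at hxy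
  obtain ⟨hv, hβ, hT, hS⟩ := hxy
  have hβ' : ∀ k, Full odd (uge π ∅ c0 k) → β x k = β y k := fun k hk =>
    congrFun hβ ⟨k, hk⟩
  have hT' : ∀ k, (x k).1 = (y k).1 := fun k => by
    have := congrFun hT k
    simpa using this
  have hS' : ∀ m k, ¬ Det π c0 (m, k) → (x m).2 k = (y m).2 k := fun m k hmk =>
    congrFun hS ⟨(m, k), hmk⟩
  rw [Subtype.mk.injEq]
  have key : ∀ n : ℕ, ∀ m : Fin N, m.1 = n → x m = y m := by
    intro n
    induction n using Nat.strong_induction_on with
    | _ n ih =>
      intro m hmn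
      have ih' : ∀ j, j < m → x j = y j := fun j hj => ih j.1 (by rw [← hmn]; exact hj) j rfl
      refine Prod.ext (hT' m) (funext fun k => ?_)
      by_cases hd : Det π c0 (m, k)
      swap
      · exact hS' m k hd
      obtain ⟨hkm, hne, hlast⟩ := hd
      simp only at hkm hne hlast
      have hloc : ∀ j ≤ k, x j = y j := fun j hj => ih' j (lt_of_le_of_lt hj hkm)
      -- the sign `β` agrees if the colour is odd
      have hb : odd (π (c0 m)) → β x k = β y k := by
        intro hodd
        by_cases hf : Full odd (uge π ∅ c0 k)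
        · exact hβ' k hf
        · unfold Full at hf
          rw [not_and] at hf
          have hf' := hf ⟨_, hodd⟩
          push Not at hf'
          obtain ⟨O', hO', hO''⟩ := hf'
          have hO3 : ∀ m', k ≤ m' → π (c0 m') ≠ O' := by
            intro m' hm' he
            apply hO''
            unfold uge
            simp only [Finset.empty_union, Finset.mem_image, Finset.mem_filter,
              Finset.mem_univ, true_and]
            exact ⟨m', hm', he⟩
          have e1 := h5 x k O' (by rw [hx]; exact (hO3 k le_rfl).symm)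
          have e2 := h5 y k O' (by rw [hy]; exact (hO3 k le_rfl).symm)
          rw [if_pos hO', hx] at e1
          rw [if_pos hO', hy] at e2
          have e3 : (∏ m with π (c0 m) = O', χ k m x) = ∏ m with π (c0 m) = O', χ k m y := by
            refine Finset.prod_congr rfl fun m' hm' => ?_
            rw [Finset.mem_filter] at hm'
            have hlt : m' ≤ k := by
              by_contra hcon
              exact hO3 m' (not_le.mp hcon).le hm'.2
            exact h3 k m' x y hlt hloc
          have e4 : f k O' (v x) (c0 k) x = f k O' (v y) (c0 k) y := by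
            rw [hv]; exact h4 k O' (v y) (c0 k) x y hloc
          rw [e3, e2, e4] at e1
          exact (mul_right_cancel e1).symm
      have e1 := h5 x k (π (c0 m)) (by rw [hx]; exact hne.symm)
      have e2 := h5 y k (π (c0 m)) (by rw [hy]; exact hne.symm)
      rw [hx] at e1
      rw [hy] at e2
      have e4 : f k (π (c0 m)) (v x) (c0 k) x = f k (π (c0 m)) (v y) (c0 k) y := by
        rw [hv]; exact h4 k _ (v y) (c0 k) x y hloc
      have e5 : (if odd (π (c0 m)) then β x k else 1) = if odd (π (c0 m)) then β y k else 1 := by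
        split_ifs with h
        · exact hb h
        · rfl
      have e6 : (∏ m' with π (c0 m') = π (c0 m), χ k m' x) =
          ∏ m' with π (c0 m') = π (c0 m), χ k m' y := by
        rw [e1, e2, e4, e5]
      have hmem : m ∈ Finset.univ.filter (fun m' => π (c0 m') = π (c0 m)) := by simp
      rw [← Finset.mul_prod_erase _ _ hmem, ← Finset.mul_prod_erase _ _ hmem] at e6
      have e7 : (∏ m' ∈ (Finset.univ.filter (fun m' => π (c0 m') = π (c0 m))).erase m,
          χ k m' x) = ∏ m' ∈ (Finset.univ.filter (fun m' => π (c0 m') = π (c0 m))).erase m,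
          χ k m' y := by
        refine Finset.prod_congr rfl fun m' hm' => ?_
        rw [Finset.mem_erase, Finset.mem_filter] at hm'
        have hlt : m' < m := by
          rcases lt_trichotomy m' m with h | h | h
          · exact h
          · exact absurd h hm'.1
          · exact absurd hm'.2.2 (hlast m' h)
        by_cases hk : m' ≤ k
        · exact h3 k m' x y hk hloc
        · rw [not_le] at hk
          rw [h2 k m' x hk, h2 k m' y hk, ih' m' hlt]
      rw [e7] at e6
      have e8 := mul_right_cancel e6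
      rw [h2 k m x hkm, h2 k m y hkm] at e8
      exact e8
  funext m
  exact key m.1 m rfl

open Classical in
theorem det_card (π : X → Ω) {N : ℕ} (c : Fin N → X) :
    ∑ k, ((ugt π ∅ c k).erase (π (c k))).card ≤
      Fintype.card {p : Fin N × Fin N // Det π c p} := by
  have hex : ∀ (k : Fin N) (O : Ω), O ∈ (ugt π ∅ c k).erase (π (c k)) →
      ∃ m, Det π c (m, k) ∧ π (c m) = O := by
    intro k O hO
    rw [Finset.mem_erase] at hO
    obtain ⟨hO1, hO2⟩ := hO
    unfold ugt at hO2
    simp only [Finset.empty_union, Finset.mem_image, Finset.mem_filter, Finset.mem_univ,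
      true_and] at hO2
    obtain ⟨m1, hm1, hm2⟩ := hO2
    have hne : (Finset.univ.filter (fun m => π (c m) = O)).Nonempty :=
      ⟨m1, by simp [hm2]⟩
    set m := (Finset.univ.filter (fun m => π (c m) = O)).max' hne with hm
    have hmem := Finset.max'_mem _ hne
    rw [← hm, Finset.mem_filter] at hmem
    have hle : m1 ≤ m := Finset.le_max' _ _ (by simp [hm2])
    refine ⟨m, ⟨lt_of_lt_of_le hm1 hle, ?_, ?_⟩, hmem.2⟩
    · show π (c k) ≠ π (c m)
      rw [hmem.2]; exact hO1.symm
    · intro m' hm' he
      have hlt : m < m' := hm'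
      have he' : π (c m') = O := by rw [he]; exact hmem.2
      exact absurd (Finset.le_max' (Finset.univ.filter (fun m => π (c m) = O)) m'
        (by simp [he'])) (not_le.mpr hlt)
  choose! g hg1 hg2 using hex
  have hcard : ∑ k, ((ugt π ∅ c k).erase (π (c k))).card =
      Fintype.card (Σ k : Fin N, {O // O ∈ (ugt π ∅ c k).erase (π (c k))}) := by
    rw [Fintype.card_sigma]
    refine Finset.sum_congr rfl fun k _ => ?_
    rw [Fintype.card_coe]
  rw [hcard]
  refine Fintype.card_le_of_injective (fun a => ⟨(g a.1 a.2.1, a.1), hg1 _ _ a.2.2⟩) ?_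
  rintro ⟨k, O, hO⟩ ⟨k', O', hO'⟩ h
  simp only [Subtype.mk.injEq, Prod.mk.injEq] at h
  obtain ⟨ha, hb⟩ := h
  subst hb
  have e1 := hg2 k O hO
  have e2 := hg2 k O' hO'
  rw [ha, e2] at e1
  subst e1
  rfl

end Comb

open Comb in
theorem no_strategy {Ω X T V : Type} [Fintype Ω] [DecidableEq Ω] [Fintype X] [DecidableEq X]
    [Fintype T] [Nonempty T] [Fintype V] (π : X → Ω) (fix : T → X → Prop) (odd : Ω → Prop)
    [DecidableRel fix] [DecidablePred odd]
    (hodd : (Finset.univ.filter odd).card = 0 ∨ 4 ≤ (Finset.univ.filter odd).card)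
    (hfix : ∀ O, (∑ α with π α = O, (Finset.univ.filter fun σ => fix σ α).card) <
      Fintype.card T) :
    ∃ N : ℕ, ∀ (c : Play T N → Fin N → X) (v : Play T N → V) (β : Play T N → Fin N → ℤˣ)
      (χ : Fin N → Fin N → Play T N → ℤˣ) (f : Fin N → Ω → V → X → Play T N → ℤˣ),
      (∀ x k, fix (x k).1 (c x k)) →
      (∀ k m x, k < m → χ k m x = (x m).2 k) →
      (∀ k m x y, m ≤ k → (∀ j ≤ k, x j = y j) → χ k m x = χ k m y) →
      (∀ k O v α x y, (∀ j ≤ k, x j = y j) → f k O v α x = f k O v α y) →
      (∀ x k O, O ≠ π (c x k) → (∏ m with π (c x m) = O, χ k m x) =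
        (if odd O then β x k else 1) * f k O (v x) (c x k) x) →
      False := by
  classical
  set t : ℝ := (Fintype.card T : ℝ) with ht
  have ht1 : 1 ≤ t := by
    have := Fintype.card_pos (α := T)
    rw [ht]; exact_mod_cast this
  have ht0 : 0 < t := by linarith
  set φ : X → ℝ := fun α => ((Finset.univ.filter fun σ => fix σ α).card : ℝ) / t with hφ
  have hφ0 : ∀ α, 0 ≤ φ α := fun α => by rw [hφ]; positivity
  set θ : ℝ := (t - 1) / t with hθ
  have hθ0 : 0 ≤ θ := div_nonneg (by linarith) ht0.le
  have hθ1 : θ ≤ 1 := by rw [hθ, div_le_one ht0]; linarith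
  have hθs : ∀ O, (∑ α with π α = O, φ α) ≤ θ := by
    intro O
    rw [hφ, ← Finset.sum_div, hθ]
    refine div_le_div_of_nonneg_right ?_ ht0.le
    have h := hfix O
    have h' : (∑ α with π α = O, (Finset.univ.filter fun σ => fix σ α).card) + 1 ≤
      Fintype.card T := h
    have h'' : ((∑ α with π α = O, (Finset.univ.filter fun σ => fix σ α).card : ℕ) : ℝ) + 1 ≤
      t := by rw [ht]; exact_mod_cast h'
    push_cast at h''
    linarith
  set K : ℝ := 2 * (Fintype.card Ω : ℝ) * t + 1 with hK
  have hK1 : 1 ≤ K := by rw [hK]; have : 0 ≤ 2 * (Fintype.card Ω : ℝ) * t := by positivity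
                         linarith
  have hK0 : 0 < K := by linarith
  have hlam : θ + 2 * (Fintype.card Ω : ℝ) / K < 1 := by
    have h1 : 2 * (Fintype.card Ω : ℝ) / K < 1 / t := by
      rw [div_lt_div_iff₀ hK0 ht0, hK]
      linarith
    have h2 : θ = 1 - 1 / t := by rw [hθ]; field_simp
    linarith
  have hlam0 : 0 ≤ θ + 2 * (Fintype.card Ω : ℝ) / K := by positivity
  set A : ℝ := (Fintype.card V : ℝ) * K ^ (Fintype.card Ω) + 1 with hA
  have hA0 : 0 < A := by rw [hA]; positivity
  obtain ⟨N, hN⟩ := exists_pow_lt_of_lt_one (show (0 : ℝ) < 1 / A by positivity) hlam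
  refine ⟨N, ?_⟩
  intro c v β χ f h1 h2 h3 h4 h5
  have hpart := part_bound π odd hodd φ hφ0 θ hθ0 hθ1 hθs K hK1 N ∅
  rw [Finset.card_empty, Nat.sub_zero] at hpart
  have hsmall : (Fintype.card V : ℝ) * part π odd φ N ∅ < 1 := by
    calc (Fintype.card V : ℝ) * part π odd φ N ∅
        ≤ (Fintype.card V : ℝ) * (K ^ (Fintype.card Ω) *
          (θ + 2 * (Fintype.card Ω : ℝ) / K) ^ N) :=
          mul_le_mul_of_nonneg_left hpart (Nat.cast_nonneg _)
      _ = ((Fintype.card V : ℝ) * K ^ (Fintype.card Ω)) *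
          (θ + 2 * (Fintype.card Ω : ℝ) / K) ^ N := by ring
      _ ≤ A * (θ + 2 * (Fintype.card Ω : ℝ) / K) ^ N := by
          refine mul_le_mul_of_nonneg_right (by rw [hA]; linarith) (pow_nonneg hlam0 _)
      _ < A * (1 / A) := by
          exact mul_lt_mul_of_pos_left hN hA0
      _ = 1 := by field_simp
  -- the count
  have hcount : (Fintype.card (Play T N) : ℝ) = t ^ N * 2 ^ (N * N) := by
    rw [Fintype.card_fun, Fintype.card_prod, Fintype.card_fun, Fintype.card_fin,
      Fintype.card_units_int]
    push_cast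
    rw [mul_pow, ← pow_mul]
  have hsum : (Fintype.card (Play T N) : ℝ) ≤ ∑ c0 : Fin N → X,
      t ^ N * 2 ^ (N * N) * ((Fintype.card V : ℝ) * ∏ k, (φ (c0 k) * wt odd (uge π ∅ c0 k) *
        (1 / 2 : ℝ) ^ ((ugt π ∅ c0 k).erase (π (c0 k))).card)) := by
    rw [← Fintype.card_congr (Equiv.sigmaFiberEquiv c), Fintype.card_sigma]
    push_cast
    refine Finset.sum_le_sum fun c0 _ => ?_
    have hle := fiber_card π fix odd c v β χ f h1 h2 h3 h4 h5 c0
    have hdet := det_card π c0
    rw [Fintype.card_prod, Fintype.card_prod, Fintype.card_prod, Fintype.card_fun,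
      Fintype.card_fun, Fintype.card_units_int, Fintype.card_pi,
      Fintype.card_subtype_compl, Fintype.card_prod, Fintype.card_fin] at hle
    have hle' : (Fintype.card {x : Play T N // c x = c0} : ℝ) ≤
        (Fintype.card V : ℝ) * ((2 : ℝ) ^ (Fintype.card {k // Full odd (uge π ∅ c0 k)}) *
        ((∏ k, (Fintype.card {σ // fix σ (c0 k)} : ℝ)) *
        (2 : ℝ) ^ (N * N - Fintype.card {p : Fin N × Fin N // Det π c0 p}))) := by
      exact_mod_cast hle
    refine hle'.trans ?_
    have hD : Fintype.card {p : Fin N × Fin N // Det π c0 p} ≤ N * N := by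
      have := Fintype.card_subtype_le (fun p : Fin N × Fin N => Det π c0 p)
      rwa [Fintype.card_prod, Fintype.card_fin] at this
    have e1 : (2 : ℝ) ^ (N * N - Fintype.card {p : Fin N × Fin N // Det π c0 p}) ≤
        2 ^ (N * N) * (1 / 2 : ℝ) ^ (∑ k, ((ugt π ∅ c0 k).erase (π (c0 k))).card) := by
      have e2 : (2 : ℝ) ^ (N * N - Fintype.card {p : Fin N × Fin N // Det π c0 p}) =
          2 ^ (N * N) * (1 / 2 : ℝ) ^ (Fintype.card {p : Fin N × Fin N // Det π c0 p}) := by
        rw [one_div, inv_pow, ← div_eq_mul_inv, eq_div_iff (by positivity), ← pow_add]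
        congr 1; omega
      rw [e2]
      refine mul_le_mul_of_nonneg_left ?_ (by positivity)
      exact pow_le_pow_of_le_one (by norm_num) (by norm_num) hdet
    have e3 : ∏ k, wt odd (uge π ∅ c0 k) =
        (2 : ℝ) ^ (Fintype.card {k // Full odd (uge π ∅ c0 k)}) := by
      unfold wt
      rw [Finset.prod_ite, Finset.prod_const_one, mul_one, Finset.prod_const,
        Fintype.card_subtype]
    have e4 : ∏ k, φ (c0 k) = (∏ k, (Fintype.card {σ // fix σ (c0 k)} : ℝ)) / t ^ N := by
      rw [hφ]
      rw [Finset.prod_div_distrib, Finset.prod_const, Finset.card_univ, Fintype.card_fin]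
      congr 1
      refine Finset.prod_congr rfl fun k _ => ?_
      rw [Fintype.card_subtype]
    rw [Finset.prod_mul_distrib, Finset.prod_mul_distrib, e3, e4,
      Finset.prod_pow_eq_pow_sum]
    have hpr : 0 ≤ ∏ k, (Fintype.card {σ // fix σ (c0 k)} : ℝ) :=
      Finset.prod_nonneg fun k _ => Nat.cast_nonneg _
    calc (Fintype.card V : ℝ) * ((2 : ℝ) ^ (Fintype.card {k // Full odd (uge π ∅ c0 k)}) *
          ((∏ k, (Fintype.card {σ // fix σ (c0 k)} : ℝ)) *
          (2 : ℝ) ^ (N * N - Fintype.card {p : Fin N × Fin N // Det π c0 p})))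
        ≤ (Fintype.card V : ℝ) * ((2 : ℝ) ^ (Fintype.card {k // Full odd (uge π ∅ c0 k)}) *
          ((∏ k, (Fintype.card {σ // fix σ (c0 k)} : ℝ)) *
          (2 ^ (N * N) * (1 / 2 : ℝ) ^ (∑ k, ((ugt π ∅ c0 k).erase (π (c0 k))).card)))) := by
          gcongr
      _ = _ := by field_simp
  rw [← Finset.mul_sum, ← Finset.mul_sum, hcount] at hsum
  have hpos : (0 : ℝ) < t ^ N * 2 ^ (N * N) := by positivity
  have : (1 : ℝ) ≤ (Fintype.card V : ℝ) * part π odd φ N ∅ := by
    unfold part
    by_contra hcon
    rw [not_le] at hcon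
    have := mul_lt_mul_of_pos_left hcon hpos
    linarith
  linarith

end Pool.TP
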