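import Pool.Agent.TP.Strat
import Pool.Agent.TP.Descent
import Pool.Agent.TP.Comb

/-!
# The core theorem

Products of primes that are not represented, up to squares, by a polynomial without
rational roots.
-/

open Polynomial
open scoped Pointwise

namespace Pool.TP.Core

open Step

section Match

variable {ι : Type} (g : ι → ℤ[X])

/-- The labels. -/
abbrev Lab : Type := Σ i : ι, {β : Qb // aeval β (g i) = 0}

open Classical in
/-- The root modulo `p` which corresponds to a label. -/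
noncomputable def rt (p : ℕ) (τ : Qb ≃ₐ[ℚ] Qb) (α : Lab g) : ZMod p :=
  if h : Good g p τ ∧ τ α.2.1 = α.2.1 then
    ((Classical.choice (h.1 α.1)).symm ⟨α.2.1, α.2.2, h.2⟩).1 else 0

/-- The label of a root modulo `p`. -/
noncomputable def lab (p : ℕ) (τ : Qb ≃ₐ[ℚ] Qb) (h : Good g p τ) (i : ι) (r : ZMod p)
    (hr : ((g i).map (Int.castRingHom (ZMod p))).eval r = 0) : Lab g :=
  ⟨i, ((Classical.choice (h i)) ⟨r, hr⟩).1, ((Classical.choice (h i)) ⟨r, hr⟩).2.1⟩

theorem lab_fix (p : ℕ) (τ : Qb ≃ₐ[ℚ] Qb) (h : Good g p τ) (i : ι) (r : ZMod p)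
    (hr : ((g i).map (Int.castRingHom (ZMod p))).eval r = 0) :
    τ (lab g p τ h i r hr).2.1 = (lab g p τ h i r hr).2.1 :=
  ((Classical.choice (h i)) ⟨r, hr⟩).2.2

theorem rt_lab (p : ℕ) (τ : Qb ≃ₐ[ℚ] Qb) (h : Good g p τ) (i : ι) (r : ZMod p)
    (hr : ((g i).map (Int.castRingHom (ZMod p))).eval r = 0) :
    rt g p τ (lab g p τ h i r hr) = r := by
  unfold rt
  rw [dif_pos ⟨h, lab_fix g p τ h i r hr⟩]
  change ((Classical.choice (h i)).symm ((Classical.choice (h i)) ⟨r, hr⟩)).1 = r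
  rw [Equiv.symm_apply_apply]

end Match

theorem aeval_ne_zero (h : ℤ[X]) (hirr : Irreducible (h.map (Int.castRingHom ℚ)))
    (hmon : h.Monic) (hdeg : 2 ≤ h.natDegree) (x : ℚ) : aeval x h ≠ 0 := by
  intro hx
  have h1 : (h.map (Int.castRingHom ℚ)).IsRoot x := by
    rw [IsRoot.def, eval_map]
    exact hx
  have h2 := degree_eq_one_of_irreducible_of_root hirr h1
  have h3 : (h.map (Int.castRingHom ℚ)).natDegree = 1 := natDegree_eq_of_degree_eq_some h2
  rw [hmon.natDegree_map] at h3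
  omega

theorem exists_field {ι : Type} [Fintype ι] (g : ι → ℤ[X]) (hmon : ∀ i, (g i).Monic) :
    ∃ K : IntermediateField ℚ Qb, FiniteDimensional ℚ K ∧ Normal ℚ K ∧
      ∀ i (β : Qb), aeval β (g i) = 0 → β ∈ K := by
  let F : ℚ[X] := ∏ i, (g i).map (Int.castRingHom ℚ)
  have hF0 : F ≠ 0 := Finset.prod_ne_zero_iff.2 fun i _ => ((hmon i).map _).ne_zero
  let K : IntermediateField ℚ Qb := IntermediateField.adjoin ℚ (F.rootSet Qb)
  have hspl : IsSplittingField ℚ K F :=
    IntermediateField.adjoin_rootSet_isSplittingField (IsAlgClosed.splits _)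
  refine ⟨K, IsSplittingField.finiteDimensional K F, Normal.of_isSplittingField F, ?_⟩
  intro i β hβ
  apply IntermediateField.subset_adjoin
  rw [mem_rootSet]
  refine ⟨hF0, ?_⟩
  have h1 : aeval β ((g i).map (algebraMap ℤ ℚ)) = aeval β (g i) := aeval_map_algebraMap ℚ β (g i)
  obtain ⟨q, hq⟩ := Finset.dvd_prod_of_mem (fun i => (g i).map (Int.castRingHom ℚ))
    (Finset.mem_univ i)
  change F = _ at hq
  rw [hq, map_mul]
  refine mul_eq_zero_of_left ?_ _
  exact h1.trans hβ

theorem main {ι : Type} [Fintype ι] [DecidableEq ι] [Nonempty ι] (g : ι → ℤ[X])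
    (hmon : ∀ i, (g i).Monic) (hirr : ∀ i, Irreducible ((g i).map (Int.castRingHom ℚ)))
    (hdeg : ∀ i, 2 ≤ (g i).natDegree) (heven : Even (∑ i, (g i).natDegree))
    (hodd : (Finset.univ.filter fun i => Odd (g i).natDegree).card = 0 ∨
      4 ≤ (Finset.univ.filter fun i => Odd (g i).natDegree).card)
    (D : ℤ) (hD : D ≠ 0) (hco : ∀ i j, i ≠ j → ∃ u v : ℤ[X], u * g i + v * g j = C D) (B : ℕ) :
    ∃ (N : ℕ) (p : Fin N → ℕ), 0 < N ∧ (∀ n, (p n).Prime ∧ B < p n) ∧ Function.Injective p ∧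
      ∀ x y : ℚ, ∏ i, aeval x (g i) ≠ (∏ n, (p n : ℚ)) * y ^ 2 := by
  classical
  obtain ⟨K, hKf, hKn, hroots⟩ := exists_field g hmon
  have hfinG : Finite (K ≃ₐ[ℚ] K) := inferInstance
  let _ : Fintype (K ≃ₐ[ℚ] K) := Fintype.ofFinite _
  have hlift : ∀ σ : K ≃ₐ[ℚ] K, ∃ τ : Qb ≃ₐ[ℚ] Qb, ∀ x : K, τ x = (σ x : K) := by
    intro σ
    obtain ⟨τ, rfl⟩ := AlgEquiv.restrictNormalHom_surjective (F := ℚ) (K₁ := K) Qb σ
    exact ⟨τ, fun x => (AlgEquiv.restrictNormal_commutes τ K x).symm⟩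
  choose lift hlift using hlift
  have hfinX : ∀ i, Finite {β : Qb // aeval β (g i) = 0} := fun i => finite_roots (g i) (hmon i)
  let _ : ∀ i, Fintype {β : Qb // aeval β (g i) = 0} := fun i => Fintype.ofFinite _
  have hsep : ∀ i, ((g i).map (Int.castRingHom ℚ)).Separable := fun i => (hirr i).separable
  let T : Type := {σ : K ≃ₐ[ℚ] K // σ ≠ 1}
  have hfix : ∀ O : ι, (∑ α : Lab g with α.1 = O,
      (Finset.univ.filter fun σ : T => lift σ.1 α.2.1 = α.2.1).card) < Fintype.card T := by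
    intro O
    obtain ⟨inst, h⟩ := count_fix K (g O) (hmon O) (hdeg O) (hirr O) (hroots O) lift hlift
    rw [← Nat.card_eq_fintype_card]
    refine lt_of_eq_of_lt ?_ h
    have hinst : inst = Fintype.ofFinite _ := Subsingleton.elim _ _
    subst hinst
    rw [Finset.sum_filter, Fintype.sum_sigma, Finset.sum_eq_single O]
    · refine Finset.sum_congr rfl fun β _ => ?_
      rw [if_pos rfl, Nat.card_eq_fintype_card, Fintype.card_subtype]
    · intro i _ hi
      exact Finset.sum_eq_zero fun β _ => if_neg hi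
    · intro h
      exact absurd (Finset.mem_univ O) h
  have hT : Nonempty T := by
    obtain ⟨i⟩ := ‹Nonempty ι›
    have := hfix i
    exact Fintype.card_pos_iff.1 (by omega)
  have hfinV : Finite {d : ℤ // d ∣ D} := by
    have : ({d : ℤ | d ∣ D}).Finite := by
      refine (Set.finite_Icc (-|D|) |D|).subset fun d hd => ?_
      have h1 : |d| ≤ |D| := Int.le_of_dvd (abs_pos.2 hD) ((abs_dvd_abs d D).2 hd)
      exact abs_le.1 h1
    exact this.to_subtype
  let _ : Fintype {d : ℤ // d ∣ D} := Fintype.ofFinite _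
  obtain ⟨N, hN⟩ := no_strategy (Ω := ι) (X := Lab g) (T := T) (V := ι → {d : ℤ // d ∣ D})
    Sigma.fst (fun σ α => lift σ.1 α.2.1 = α.2.1) (fun i => Odd (g i).natDegree) hodd hfix
  have hN0 : 0 < N := by
    rcases Nat.eq_zero_or_pos N with h0 | h0
    · exfalso
      subst h0
      exact hN (fun _ k => k.elim0) (fun _ _ => ⟨1, one_dvd _⟩) (fun _ _ => 1) (fun _ _ _ => 1)
        (fun _ _ _ _ _ => 1) (fun _ k => k.elim0) (fun k => k.elim0) (fun k => k.elim0)
        (fun k => k.elim0) (fun _ k => k.elim0)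
    · exact h0
  by_contra hcon
  push Not at hcon
  let τs : Play T N → ℕ → Qb ≃ₐ[ℚ] Qb := fun x n => if h : n < N then lift (x ⟨n, h⟩).1.1 else 1
  let εs : Play T N → ℕ → ℕ → ℤˣ := fun x n k =>
    if h : n < N ∧ k < N then (x ⟨n, h.1⟩).2 ⟨k, h.2⟩ else 1
  let P : Play T N → Fin N → ℕ := fun x n => pr g K D B (τs x) (εs x) n
  have hP := fun (x : Play T N) (n : Fin N) =>
    pr_spec g K D B hmon hsep hroots hD (τs x) (εs x) n
  have hPinj : ∀ x, Function.Injective (P x) := fun x a b hab =>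
    Fin.ext (pr_injective g K D B hmon hsep hroots hD (τs x) (εs x) hab)
  have hdes : ∀ x : Play T N, ∃ (O : Fin N → ι) (ρ : ∀ n, ZMod (P x n)) (β : Fin N → ℤˣ)
      (ν : ι → ℤ), (∀ i, ν i ∣ D) ∧
      (∀ n, ((g (O n)).map (Int.castRingHom (ZMod (P x n)))).eval (ρ n) = 0) ∧
      ∀ n i, i ≠ O n →
        ls (P x n) (ν i) * ∏ m with O m = i, ls (P x n) (P x m) =
          β n ^ (g i).natDegree * ls (P x n) ((g i).eval ((ρ n).val : ℤ)) := by
    intro x
    obtain ⟨a, y, hay⟩ := hcon N (P x) hN0 (fun n => ⟨(hP x n).1.1, (hP x n).1.2.2.2⟩) (hPinj x)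
    exact descent g hmon heven D hD hco (P x) (fun n => (hP x n).1.1) (hPinj x)
      (fun n => (hP x n).1.2.2.1) a y (fun i => aeval_ne_zero (g i) (hirr i) (hmon i) (hdeg i) a) hay
  choose O ρ β ν hν hρ hcons using hdes
  have hgood : ∀ (x : Play T N) (k : Fin N), Good g (P x k) (lift (x k).1.1) := by
    intro x k
    have h := (hP x k).2.2
    have h1 : τs x k = lift (x k).1.1 := by
      simp only [τs]
      rw [dif_pos k.2]
    rw [h1] at h
    exact h
  have hPcongr : ∀ (k : Fin N) (x y : Play T N), (∀ j ≤ k, x j = y j) → P x k = P y k := by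
    intro k x y hxy
    refine pr_congr g K D B _ _ _ _ k fun j hj => ?_
    have hjN : j < N := lt_of_le_of_lt hj k.2
    have h1 := hxy ⟨j, hjN⟩ hj
    refine ⟨?_, ?_⟩
    · simp only [τs]
      rw [dif_pos hjN, dif_pos hjN, h1]
    · funext l
      simp only [εs]
      by_cases hl : j < N ∧ l < N
      · rw [dif_pos hl, dif_pos hl, h1]
      · rw [dif_neg hl, dif_neg hl]
  refine hN (fun x k => lab g (P x k) _ (hgood x k) (O x k) (ρ x k) (hρ x k))
    (fun x i => ⟨ν x i, hν x i⟩) β (fun k m x => ls (P x k) (P x m))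
    (fun k i v α x => ls (P x k) (v i) *
      ls (P x k) ((g i).eval ((rt g (P x k) (lift (x k).1.1) α).val : ℤ))) ?_ ?_ ?_ ?_ ?_
  · intro x k
    exact lab_fix g _ _ (hgood x k) _ _ _
  · intro k m x hkm
    have h := (hP x m).2.1 k hkm
    refine h.trans ?_
    simp only [εs]
    rw [dif_pos ⟨m.2, k.2⟩]
  · intro k m x y hmk hxy
    rw [hPcongr k x y hxy, hPcongr m x y fun j hj => hxy j (hj.trans hmk)]
  · intro k i v α x y hxy
    rw [hPcongr k x y hxy, hxy k le_rfl]
  · intro x k i hi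
    change i ≠ O x k at hi
    have h := hcons x k i hi
    change ∏ m with O x m = i, ls (P x k) (P x m) = (if Odd (g i).natDegree then β x k else 1) *
      (ls (P x k) (ν x i) * ls (P x k) ((g i).eval
        ((rt g (P x k) (lift (x k).1.1)
          (lab g (P x k) _ (hgood x k) (O x k) (ρ x k) (hρ x k))).val : ℤ)))
    rw [rt_lab]
    have h1 : (β x k) ^ (g i).natDegree = if Odd (g i).natDegree then β x k else 1 := by
      split_ifs with hoddi
      · obtain ⟨m, hm⟩ := hoddi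
        rw [hm, pow_succ, pow_mul, Int.units_sq, one_pow, one_mul]
      · obtain ⟨m, hm⟩ := Nat.not_odd_iff_even.1 hoddi
        rw [hm, ← two_mul, pow_mul, Int.units_sq, one_pow]
    rw [h1] at h
    have h2 : ls (P x k) (ν x i) * ls (P x k) (ν x i) = 1 := Int.units_mul_self _
    calc ∏ m with O x m = i, ls (P x k) (P x m)
        = ls (P x k) (ν x i) * (ls (P x k) (ν x i) * ∏ m with O x m = i, ls (P x k) (P x m)) := by
          rw [← mul_assoc, h2, one_mul]
      _ = _ := by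
          rw [h]
          exact mul_left_comm _ _ _

end Pool.TP.Core
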