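import Pool.Agent.TP.Step

/-!
# Counting fixed roots

Burnside-type count for the roots of an irreducible polynomial in a finite Galois extension.
-/

open Polynomial
open scoped Pointwise

namespace Pool.TP.Core

open Step

theorem minpoly_eq' {E : Type} [Field E] [Algebra ℚ E] (h : ℤ[X]) (hmon : h.Monic)
    (hirr : Irreducible (h.map (Int.castRingHom ℚ))) (β : E) (hβ : aeval β h = 0) :
    minpoly ℚ β = h.map (Int.castRingHom ℚ) := by
  symm
  apply minpoly.eq_of_irreducible_of_monic hirr _ (hmon.map _)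
  have h1 : aeval β (h.map (algebraMap ℤ ℚ)) = aeval β h := aeval_map_algebraMap ℚ β h
  exact h1.trans hβ

theorem card_stab {E : Type} [Field E] [Algebra ℚ E] [FiniteDimensional ℚ E] [Normal ℚ E]
    (h : ℤ[X]) (hmon : h.Monic)
    (hirr : Irreducible (h.map (Int.castRingHom ℚ))) (β : E) (hβ : aeval β h = 0) :
    h.natDegree * Nat.card (MulAction.stabilizer (E ≃ₐ[ℚ] E) β) = Nat.card (E ≃ₐ[ℚ] E) := by
  classical
  have h0 : h.map (Int.castRingHom ℚ) ≠ 0 := (hmon.map _).ne_zero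
  have hcz : CharZero E := charZero_of_injective_algebraMap (algebraMap ℚ E).injective
  have horb : MulAction.orbit (E ≃ₐ[ℚ] E) β = (h.map (Int.castRingHom ℚ)).rootSet E := by
    ext γ
    rw [← Normal.minpoly_eq_iff_mem_orbit, minpoly_eq' h hmon hirr β hβ, mem_rootSet]
    constructor
    · intro h1
      refine ⟨h0, ?_⟩
      rw [← h1]
      exact minpoly.aeval ℚ γ
    · rintro ⟨-, h1⟩
      exact (minpoly.eq_of_irreducible_of_monic hirr h1 (hmon.map _)).symm
  have hsplit : ((h.map (Int.castRingHom ℚ)).map (algebraMap ℚ E)).Splits := by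
    rw [← minpoly_eq' h hmon hirr β hβ]
    exact Normal.splits inferInstance β
  have hcard : (MulAction.orbit (E ≃ₐ[ℚ] E) β).ncard = h.natDegree := by
    rw [horb, ← Nat.card_coe_set_eq, Nat.card_eq_fintype_card,
      card_rootSet_eq_natDegree hirr.separable hsplit, hmon.natDegree_map]
  rw [← hcard, ← MulAction.index_stabilizer, mul_comm, Subgroup.card_mul_index]

theorem count_fix (K : IntermediateField ℚ Qb) [FiniteDimensional ℚ K] [Normal ℚ K]
    (h : ℤ[X]) (hmon : h.Monic) (hdeg : 2 ≤ h.natDegree)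
    (hirr : Irreducible (h.map (Int.castRingHom ℚ)))
    (hroots : ∀ β : Qb, aeval β h = 0 → β ∈ K)
    (lift : (K ≃ₐ[ℚ] K) → (Qb ≃ₐ[ℚ] Qb)) (hlift : ∀ σ (x : K), lift σ x = (σ x : K)) :
    ∃ _ : Fintype {β : Qb // aeval β h = 0}, ∑ β : {β : Qb // aeval β h = 0},
      Nat.card {σ : {σ : K ≃ₐ[ℚ] K // σ ≠ 1} // lift σ.1 β.1 = β.1} <
      Nat.card {σ : K ≃ₐ[ℚ] K // σ ≠ 1} := by
  classical
  have hfinG : Finite (K ≃ₐ[ℚ] K) := inferInstance
  have h0 : h.map (Int.castRingHom ℚ) ≠ 0 := (hmon.map _).ne_zero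
  have hR : Nat.card {β : Qb // aeval β h = 0} = h.natDegree := by
    have h1 : ∀ β : Qb, aeval β h = 0 ↔ β ∈ (h.map (Int.castRingHom ℚ)).rootSet Qb := by
      intro β
      rw [mem_rootSet, and_iff_right h0]
      have h2 : aeval β (h.map (algebraMap ℤ ℚ)) = aeval β h := aeval_map_algebraMap ℚ β h
      exact (Eq.congr_left h2).symm
    rw [Nat.card_congr (Equiv.subtypeEquivRight h1)]
    change Nat.card ((h.map (Int.castRingHom ℚ)).rootSet Qb) = _
    rw [Nat.card_eq_fintype_card, card_rootSet_eq_natDegree hirr.separable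
      (IsAlgClosed.splits _), hmon.natDegree_map]
  have hfinR : Finite {β : Qb // aeval β h = 0} := by
    apply Nat.finite_of_card_ne_zero
    omega
  have hT : Nat.card {σ : K ≃ₐ[ℚ] K // σ ≠ 1} = Nat.card (K ≃ₐ[ℚ] K) - 1 := by
    have h1 : Nat.card {σ : K ≃ₐ[ℚ] K // σ ≠ 1} = ((Set.univ : Set (K ≃ₐ[ℚ] K)) \ {1}).ncard := by
      rw [← Nat.card_coe_set_eq]
      refine Nat.card_congr (Equiv.subtypeEquivRight fun σ => ?_)
      simp
    rw [h1, Set.ncard_sdiff_singleton_of_mem (Set.mem_univ _), Set.ncard_univ]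
  have hS : ∀ β : {β : Qb // aeval β h = 0},
      h.natDegree * (Nat.card {σ : {σ : K ≃ₐ[ℚ] K // σ ≠ 1} // lift σ.1 β.1 = β.1} + 1) =
        Nat.card (K ≃ₐ[ℚ] K) := by
    intro β
    have hβK := hroots β.1 β.2
    have hβ' : aeval (⟨β.1, hβK⟩ : K) h = 0 := by
      apply (algebraMap K Qb).injective
      rw [map_zero, ← aeval_algebraMap_apply]
      exact β.2
    rw [← card_stab h hmon hirr _ hβ']
    congr 1
    have hfix : ∀ σ : K ≃ₐ[ℚ] K, lift σ β.1 = β.1 ↔
        σ ∈ (MulAction.stabilizer (K ≃ₐ[ℚ] K) (⟨β.1, hβK⟩ : K) : Set (K ≃ₐ[ℚ] K)) := by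
      intro σ
      rw [SetLike.mem_coe, MulAction.mem_stabilizer_iff]
      have h2 := hlift σ ⟨β.1, hβK⟩
      constructor
      · intro h3
        apply Subtype.ext
        exact h2.symm.trans h3
      · intro h3
        refine h2.trans ?_
        exact congrArg (fun z : K => (z : Qb)) h3
    have h1 : Nat.card {σ : {σ : K ≃ₐ[ℚ] K // σ ≠ 1} // lift σ.1 β.1 = β.1} =
        ((MulAction.stabilizer (K ≃ₐ[ℚ] K) (⟨β.1, hβK⟩ : K) : Set (K ≃ₐ[ℚ] K)) \ {1}).ncard := by
      rw [← Nat.card_coe_set_eq]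
      refine Nat.card_congr ⟨fun σ => ⟨σ.1.1, (hfix _).1 σ.2, σ.1.2⟩,
        fun σ => ⟨⟨σ.1, σ.2.2⟩, (hfix _).2 σ.2.1⟩, fun σ => rfl, fun σ => rfl⟩
    rw [h1, Set.ncard_sdiff_singleton_add_one (one_mem _), ← Nat.card_coe_set_eq]
    rfl
  let _ : Fintype {β : Qb // aeval β h = 0} := Fintype.ofFinite _
  refine ⟨Fintype.ofFinite _, ?_⟩
  rw [hT]
  obtain ⟨β₀⟩ : Nonempty {β : Qb // aeval β h = 0} := by
    rw [← Finite.card_pos_iff]
    omega
  have hconst : ∀ β : {β : Qb // aeval β h = 0},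
      Nat.card {σ : {σ : K ≃ₐ[ℚ] K // σ ≠ 1} // lift σ.1 β.1 = β.1} =
      Nat.card {σ : {σ : K ≃ₐ[ℚ] K // σ ≠ 1} // lift σ.1 β₀.1 = β₀.1} := by
    intro β
    have h1 := (hS β).trans (hS β₀).symm
    have := Nat.eq_of_mul_eq_mul_left (by omega) h1
    omega
  rw [Finset.sum_congr rfl fun β _ => hconst β, Finset.sum_const, Finset.card_univ,
    ← Nat.card_eq_fintype_card, hR, smul_eq_mul, ← hS β₀]
  have := Nat.mul_add h.natDegree (Nat.card {σ : {σ : K ≃ₐ[ℚ] K // σ ≠ 1} //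
    lift σ.1 β₀.1 = β₀.1}) 1
  omega

end Pool.TP.Core
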