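import Pool.Agent.TP.Count

/-!
# The sequence of primes attached to a history of choices
-/

open Polynomial
open scoped Pointwise

namespace Pool.TP.Core

open Step

section

variable {ι : Type} [Fintype ι] [DecidableEq ι] (g : ι → ℤ[X])

/-- Matching of the roots modulo `p` with the roots fixed by `τ`. -/
def Good (p : ℕ) (τ : Qb ≃ₐ[ℚ] Qb) : Prop :=
  ∀ i, Nonempty ({r : ZMod p // ((g i).map (Int.castRingHom (ZMod p))).eval r = 0} ≃
        {β : Qb // aeval β (g i) = 0 ∧ τ β = β})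

theorem finite_roots (h : ℤ[X]) (hmon : h.Monic) : Finite {β : Qb // aeval β h = 0} := by
  have h0 : h.map (algebraMap ℤ Qb) ≠ 0 := (hmon.map _).ne_zero
  have : ({β : Qb | aeval β h = 0}).Finite := by
    refine ((h.map (algebraMap ℤ Qb)).roots.finite_toSet).subset ?_
    intro β hβ
    rw [Set.mem_ofPred_eq, mem_roots h0, IsRoot.def, eval_map, ← aeval_def]
    exact hβ
  exact this.to_subtype

theorem good_of_card (hmon : ∀ i, (g i).Monic) {p : ℕ} (hp : p.Prime) {τ : Qb ≃ₐ[ℚ] Qb}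
    (h : ∀ i, Nat.card {r : ZMod p // ((g i).map (Int.castRingHom (ZMod p))).eval r = 0} =
        Nat.card {β : Qb // aeval β (g i) = 0 ∧ τ β = β}) : Good g p τ := by
  intro i
  have : NeZero p := ⟨hp.ne_zero⟩
  have h1 := finite_roots (g i) (hmon i)
  have hfin : Finite {β : Qb // aeval β (g i) = 0 ∧ τ β = β} :=
    Finite.of_injective (fun β => (⟨β.1, β.2.1⟩ : {β : Qb // aeval β (g i) = 0})) (by
      intro β γ hβγ
      exact Subtype.ext (congrArg (fun z : {β : Qb // aeval β (g i) = 0} => z.1) hβγ))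
  exact ⟨(Finite.equivFin _).trans ((finCongr (h i)).trans (Finite.equivFin _).symm)⟩

variable (K : IntermediateField ℚ Qb) (D : ℤ) (B : ℕ)

open Classical in
/-- The next prime. -/
noncomputable def next (n : ℕ) (q : ℕ → ℕ) (τ : Qb ≃ₐ[ℚ] Qb) (ε : ℕ → ℤˣ) : ℕ :=
  if h : ∃ p : ℕ, Inv K D B (n + 1) (Function.update q n p) ∧ (∀ k < n, ls (q k) p = ε k) ∧
      Good g p τ then h.choose else 0

/-- The history. -/
noncomputable def hist (τ : ℕ → Qb ≃ₐ[ℚ] Qb) (ε : ℕ → ℕ → ℤˣ) : ℕ → ℕ → ℕ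
  | 0 => fun _ => 0
  | n + 1 => Function.update (hist τ ε n) n (next g K D B n (hist τ ε n) (τ n) (ε n))

/-- The primes. -/
noncomputable def pr (τ : ℕ → Qb ≃ₐ[ℚ] Qb) (ε : ℕ → ℕ → ℤˣ) (n : ℕ) : ℕ :=
  hist g K D B τ ε (n + 1) n

theorem hist_eq (τ : ℕ → Qb ≃ₐ[ℚ] Qb) (ε : ℕ → ℕ → ℤˣ) (n k : ℕ) (hk : k < n) :
    hist g K D B τ ε n k = pr g K D B τ ε k := by
  induction n with
  | zero => omega
  | succ n ih =>
    rcases Nat.lt_succ_iff_lt_or_eq.1 hk with h | rfl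
    · rw [← ih h]
      change Function.update (hist g K D B τ ε n) n _ k = _
      rw [Function.update_of_ne h.ne]
    · rfl

theorem hist_congr (τ τ' : ℕ → Qb ≃ₐ[ℚ] Qb) (ε ε' : ℕ → ℕ → ℤˣ) (n : ℕ)
    (h : ∀ j < n, τ j = τ' j ∧ ε j = ε' j) : hist g K D B τ ε n = hist g K D B τ' ε' n := by
  induction n with
  | zero => rfl
  | succ n ih =>
    change Function.update (hist g K D B τ ε n) n _ = Function.update (hist g K D B τ' ε' n) n _
    rw [ih fun j hj => h j (by omega), (h n (by omega)).1, (h n (by omega)).2]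

theorem pr_congr (τ τ' : ℕ → Qb ≃ₐ[ℚ] Qb) (ε ε' : ℕ → ℕ → ℤˣ) (n : ℕ)
    (h : ∀ j ≤ n, τ j = τ' j ∧ ε j = ε' j) : pr g K D B τ ε n = pr g K D B τ' ε' n := by
  unfold pr
  rw [hist_congr g K D B τ τ' ε ε' (n + 1) fun j hj => h j (by omega)]

variable [FiniteDimensional ℚ K] (hmon : ∀ i, (g i).Monic)
  (hsep : ∀ i, ((g i).map (Int.castRingHom ℚ)).Separable)
  (hroots : ∀ i (β : Qb), aeval β (g i) = 0 → β ∈ K) (hD : D ≠ 0)

include hmon hsep hroots hD in
theorem next_spec (n : ℕ) (q : ℕ → ℕ) (hq : Inv K D B n q) (τ : Qb ≃ₐ[ℚ] Qb) (ε : ℕ → ℤˣ) :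
    Inv K D B (n + 1) (Function.update q n (next g K D B n q τ ε)) ∧
      (∀ k < n, ls (q k) (next g K D B n q τ ε) = ε k) ∧ Good g (next g K D B n q τ ε) τ := by
  have h : ∃ p : ℕ, Inv K D B (n + 1) (Function.update q n p) ∧ (∀ k < n, ls (q k) p = ε k) ∧
      Good g p τ := by
    obtain ⟨p, h1, h2, h3⟩ := step K g (fun i => ⟨hmon i, hsep i⟩) hroots D hD B n q hq τ ε
    refine ⟨p, h1, h2, good_of_card g hmon ?_ h3⟩
    have := (h1.1 n (Nat.lt_succ_self n)).1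
    rwa [Function.update_self] at this
  unfold next
  rw [dif_pos h]
  exact h.choose_spec

include hmon hsep hroots hD in
theorem hist_inv (τ : ℕ → Qb ≃ₐ[ℚ] Qb) (ε : ℕ → ℕ → ℤˣ) (n : ℕ) :
    Inv K D B n (hist g K D B τ ε n) := by
  induction n with
  | zero => exact inv_zero _ _ _ _
  | succ n ih => exact (next_spec g K D B hmon hsep hroots hD n _ ih (τ n) (ε n)).1

include hmon hsep hroots hD in
theorem pr_spec (τ : ℕ → Qb ≃ₐ[ℚ] Qb) (ε : ℕ → ℕ → ℤˣ) (n : ℕ) :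
    ((pr g K D B τ ε n).Prime ∧ pr g K D B τ ε n ≠ 2 ∧ ¬ (pr g K D B τ ε n : ℤ) ∣ 2 * D ∧
      B < pr g K D B τ ε n) ∧
    (∀ k < n, ls (pr g K D B τ ε k) (pr g K D B τ ε n) = ε n k) ∧
    Good g (pr g K D B τ ε n) (τ n) := by
  have h := next_spec g K D B hmon hsep hroots hD n _ (hist_inv g K D B hmon hsep hroots hD τ ε n)
    (τ n) (ε n)
  have hpr : pr g K D B τ ε n = next g K D B n (hist g K D B τ ε n) (τ n) (ε n) := by
    unfold pr
    change Function.update (hist g K D B τ ε n) n _ n = _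
    rw [Function.update_self]
  refine ⟨?_, fun k hk => ?_, ?_⟩
  · have := h.1.1 n (Nat.lt_succ_self n)
    rw [Function.update_self, ← hpr] at this
    exact this
  · rw [hpr, ← hist_eq g K D B τ ε n k hk]
    exact h.2.1 k hk
  · rw [hpr]
    exact h.2.2

include hmon hsep hroots hD in
theorem pr_injective (τ : ℕ → Qb ≃ₐ[ℚ] Qb) (ε : ℕ → ℕ → ℤˣ) :
    Function.Injective (pr g K D B τ ε) := by
  intro j k hjk
  have h := hist_inv g K D B hmon hsep hroots hD τ ε (max j k + 1)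
  refine h.2.1 j (by omega) k (by omega) ?_
  rw [hist_eq g K D B τ ε _ j (by omega), hist_eq g K D B τ ε _ k (by omega), hjk]

end

end Pool.TP.Core
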