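import Pool.Agent.TP.Final

/-!
# Quadratic twist pencils of hyperelliptic curves over the rationals

For a polynomial `P` with integer coefficients, squarefree over the rationals and of degree at
least three, the family of the smooth projective models of the curves `t y ^ 2 = P(x)` over a
nonempty open subset of the `t`-line is arithmetically surjective if and only if it has a section,
if and only if `P` has odd degree or a rational root. This is proved for all `P` whose number of
irreducible factors of odd degree is not two, and for all `P` which have no roots modulo infinitely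
many primes.
-/

open Polynomial

namespace Pool.TP.TwistPencils

/-- Half of the degree of `P`, rounded up (the genus of `t y ^ 2 = P(x)` plus one). -/
def half (P : ℤ[X]) : ℕ := (P.natDegree + 1) / 2

/-- The binary form of degree `2 * half P` which dehomogenises to `P`. -/
def form (P : ℤ[X]) {L : Type} [Field L] (x z : L) : L :=
  ∑ i ∈ Finset.range (2 * half P + 1), (P.coeff i : L) * x ^ i * z ^ (2 * half P - i)

/-- The smooth projective model of `t y ^ 2 = P(x)`, that is the curve `t y ^ 2 = form P x z` in
the weighted projective plane with weights `1, half P, 1`, has a point over `L`. -/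
def HasPoint (P : ℤ[X]) (L : Type) [Field L] (t : L) : Prop :=
  ∃ x y z : L, (x ≠ 0 ∨ z ≠ 0) ∧ t * y ^ 2 = form P x z

/-- The family `t y ^ 2 = P(x)` over the open subset `t ≠ 0`, `h(t) ≠ 0` of the line is
arithmetically surjective: for every number field, every point of the base over the number field
is the image of a point of the family over the number field. -/
def ArithSurj (P h : ℤ[X]) : Prop :=
  ∀ (L : Type) [Field L] [NumberField L] (t : L), t ≠ 0 → aeval t h ≠ 0 → HasPoint P L t

/-- The generic fibre of the family has a rational point, that is the family has a section. -/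
def HasSection (P : ℤ[X]) : Prop := HasPoint P (RatFunc ℚ) RatFunc.X

theorem hasPoint_of_odd (P : ℤ[X]) (hodd : Odd P.natDegree) (L : Type) [Field L] (t : L) :
    HasPoint P L t := by
  refine ⟨1, 0, 0, Or.inl one_ne_zero, ?_⟩
  unfold form
  rw [Pool.TP.Final.form_zero, coeff_eq_zero_of_natDegree_lt]
  · simp
  · obtain ⟨k, hk⟩ := hodd
    unfold half
    omega

theorem hasPoint_of_root (P : ℤ[X]) (r : ℚ) (hr : aeval r P = 0) (L : Type) [Field L] [CharZero L]
    (t : L) : HasPoint P L t := by
  refine ⟨algebraMap ℚ L r, 0, 1, Or.inr one_ne_zero, ?_⟩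
  unfold form
  rw [Pool.TP.Final.form_eq P (2 * half P) (by unfold half; omega) _ _ one_ne_zero, div_one,
    aeval_algebraMap_apply, hr]
  simp

theorem section_iff (P : ℤ[X]) (hdeg : 1 ≤ P.natDegree) :
    HasSection P ↔ Odd P.natDegree ∨ ∃ r : ℚ, aeval r P = 0 := by
  have hcz : CharZero (RatFunc ℚ) :=
    charZero_of_injective_algebraMap (algebraMap ℚ (RatFunc ℚ)).injective
  constructor
  · intro h
    by_contra hcon
    rw [not_or, Nat.not_odd_iff_even, not_exists] at hcon
    obtain ⟨heven, hroot⟩ := hcon
    have hP0 : P ≠ 0 := by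
      rintro rfl
      simp at hdeg
    have hd : P.natDegree = 2 * half P := by
      obtain ⟨k, hk⟩ := heven
      unfold half
      omega
    obtain ⟨x, y, z, hxz, hxyz⟩ := h
    refine Pool.TP.Final.no_section (F := ℚ) (fun i => (P.coeff i : ℚ)) (half P) ?_ x y z hxz ?_
    · intro a b hab
      by_cases hb : b = 0
      · rw [hb, Pool.TP.Final.form_zero, ← hd]
        refine mul_ne_zero ?_ (pow_ne_zero _ ?_)
        · exact_mod_cast leadingCoeff_ne_zero.2 hP0
        · rcases hab with h | h
          · exact h
          · exact absurd hb h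
      · rw [Pool.TP.Final.form_eq P (2 * half P) hd.le a b hb]
        exact mul_ne_zero (pow_ne_zero _ hb) (hroot _)
    · rw [hxyz]
      unfold form
      refine Finset.sum_congr rfl fun i _ => ?_
      rw [map_intCast]
  · rintro (h | ⟨r, hr⟩)
    · exact hasPoint_of_odd P h _ _
    · exact hasPoint_of_root P r hr _ _

theorem exists_bound (h : ℤ[X]) (hh : h ≠ 0) : ∃ B : ℕ, ∀ t : ℤ, B < t.natAbs →
    aeval (t : ℚ) h ≠ 0 := by
  refine ⟨h.roots.toFinset.sup Int.natAbs, fun t ht h0 => ?_⟩
  have h1 : aeval (t : ℚ) h = ((h.eval t : ℤ) : ℚ) := by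
    rw [← eq_intCast (algebraMap ℤ ℚ) t, aeval_algebraMap_apply, coe_aeval_eq_eval]
    simp
  rw [h1] at h0
  have h2 : h.eval t = 0 := by exact_mod_cast h0
  have h3 : t ∈ h.roots.toFinset := by
    rw [Multiset.mem_toFinset, mem_roots hh]
    exact h2
  have h4 := Finset.le_sup (f := Int.natAbs) h3
  omega

/-- Main theorem. Let `P` be a polynomial with integer coefficients, squarefree over the
rationals, of degree at least three, and let `h` be a nonzero polynomial with integer
coefficients. Suppose that the number of irreducible factors of odd degree of `P` over the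
rationals is not two, or that there are infinitely many primes modulo which `P` has no root. Then
the following are equivalent: the family `t y ^ 2 = P(x)` over `t ≠ 0`, `h(t) ≠ 0` is
arithmetically surjective; all its fibres over integers `t` have rational points; it has a
section; `P` has odd degree or a rational root. -/
theorem result (P h : ℤ[X]) (hdeg : 3 ≤ P.natDegree)
    (hsq : Squarefree (P.map (Int.castRingHom ℚ))) (hh : h ≠ 0)
    (hyp : (∃ (r : ℕ) (f : Fin r → ℚ[X]), (∀ i, Irreducible (f i)) ∧
        P.map (Int.castRingHom ℚ) = ∏ i, f i ∧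
        (Finset.univ.filter fun i => Odd (f i).natDegree).card ≠ 2) ∨
      {p : ℕ | p.Prime ∧
        ∀ r : ZMod p, (P.map (Int.castRingHom (ZMod p))).eval r ≠ 0}.Infinite) :
    [ArithSurj P h,
      ∀ t : ℤ, t ≠ 0 → aeval (t : ℚ) h ≠ 0 → HasPoint P ℚ t,
      HasSection P,
      Odd P.natDegree ∨ ∃ r : ℚ, aeval r P = 0].TFAE := by
  have hsec := section_iff P (by omega)
  have key : (∀ t : ℤ, t ≠ 0 → aeval (t : ℚ) h ≠ 0 → HasPoint P ℚ t) →
      Odd P.natDegree ∨ ∃ r : ℚ, aeval r P = 0 := by
    intro H
    by_contra hcon
    rw [not_or, Nat.not_odd_iff_even, not_exists] at hcon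
    obtain ⟨heven, hroot⟩ := hcon
    have hd : P.natDegree = 2 * half P := by
      obtain ⟨k, hk⟩ := heven
      unfold half
      omega
    have hP0 : P ≠ 0 := by
      rintro rfl
      simp at hdeg
    have hc : P.leadingCoeff ≠ 0 := leadingCoeff_ne_zero.2 hP0
    obtain ⟨B, hB⟩ := exists_bound h hh
    rcases hyp with ⟨r, f, hf, hP, hodd⟩ | hinf
    · obtain ⟨T, hT, hno⟩ := Pool.TP.Final.caseB P (half P) hd (by omega) f hf hP hsq hroot hodd B
      have h1 : B < (P.leadingCoeff * (T : ℤ)).natAbs := by
        rw [Int.natAbs_mul, Int.natAbs_natCast]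
        have h2 : 1 ≤ P.leadingCoeff.natAbs := Nat.one_le_iff_ne_zero.2 (by simpa using hP0)
        calc B < T := hT
          _ ≤ P.leadingCoeff.natAbs * T := Nat.le_mul_of_pos_left _ h2
      have h2 : P.leadingCoeff * (T : ℤ) ≠ 0 := by
        intro h0
        rw [h0] at h1
        simp at h1
      obtain ⟨x, y, z, hxz, hxyz⟩ := H _ h2 (hB _ h1)
      exact hno x y z hxz hxyz
    · obtain ⟨p, hp, hpB⟩ := hinf.exists_gt (max B P.leadingCoeff.natAbs)
      have h1 : B < ((p : ℤ)).natAbs := by
        rw [Int.natAbs_natCast]
        exact (le_max_left _ _).trans_lt hpB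
      have h2 : (p : ℤ) ≠ 0 := by
        exact_mod_cast hp.1.ne_zero
      have hlead : ¬ (p : ℤ) ∣ P.leadingCoeff := by
        intro hdvd
        have h3 := Int.natAbs_dvd_natAbs.2 hdvd
        rw [Int.natAbs_natCast] at h3
        have h4 := Nat.le_of_dvd (Int.natAbs_pos.2 hc) h3
        have h5 := (le_max_right B P.leadingCoeff.natAbs).trans_lt hpB
        omega
      obtain ⟨x, y, z, hxz, hxyz⟩ := H _ h2 (hB _ h1)
      refine Pool.TP.Final.caseA P (half P) hd p hp.1 hp.2 hlead x y z hxz ?_
      rw [← Int.cast_natCast (R := ℚ) p]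
      exact hxyz
  have hback : HasSection P → ArithSurj P h := by
    intro hs L _ _ t _ _
    rcases hsec.1 hs with h | ⟨r, hr⟩
    · exact hasPoint_of_odd P h _ _
    · exact hasPoint_of_root P r hr _ _
  have hres : ArithSurj P h → ∀ t : ℤ, t ≠ 0 → aeval (t : ℚ) h ≠ 0 → HasPoint P ℚ t := by
    intro H t ht hht
    exact H ℚ t (by exact_mod_cast ht) hht
  tfae_have 1 → 2 := hres
  tfae_have 2 → 4 := key
  tfae_have 4 → 3 := hsec.2
  tfae_have 3 → 1 := hback
  tfae_finish

end Pool.TP.TwistPencils
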